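import Mathlib
import Pool.Agent.Helper35.HC.StG

/-!
# Project HG (MP_925021_gt): every codimension `q = k + 2`, `n ≥ 8(q-1)`, sharp constant `1/3`, definitions

Flows are rescaled to `ℝ^N`, `N = n + k + 3`: `|F(·,t)|² = rr n t = 1 - 2nt`, `∂_t F = HH`.  Everything of the
projects PI, PI2, CL, MS, HSF, HC is proved and may be used (`Pool/Agent/Helper35/HC/All.lean`).

Algebra: `A_ij` (vector valued, symmetric) is the second fundamental form in an orthonormal tangent frame,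
`A_ij = h_ij - r δ_ij x₀`, `r = 1/ρ²`, `x₀` the position, `h_ij` in the space `V` of normals of `M` in the sphere,
`dim V = k + 2`.  For a unit normal `ν ∈ V`: `kn A ν = ⟨A_ij,ν⟩`.  In a frame `e_0, .., e_(k+1)` of `V`:
`A_ij = Σ_α H^α_ij e_α - r δ_ij x₀`.
-/

set_option autoImplicit false

namespace Helper35.HG

open Helper35.PI Helper35.PI2 Helper32.CL Helper35.MS Helper35.HSF Helper35.HC
open scoped ContDiff Manifold Topology ENNReal BigOperators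
open MeasureTheory Set Filter

/-- the functions and constants of the region -/
structure Prf where
  (E K : ℝ)
  (J J1 J2 P P1 P2 e e1 e2 : ℝ → ℝ)

/-- `ψ` is `C²` near `x` with derivatives `ψ'`, `ψ''` -/
structure C2J (ψ ψ' ψ'' : ℝ → ℝ) (x : ℝ) : Prop where
  c : ContDiffAt ℝ 2 ψ x
  d1 : ∀ᶠ y in 𝓝 x, HasDerivAt ψ (ψ' y) y
  d2 : HasDerivAt ψ' (ψ'' x) x

/-- the properties of the functions used in the proof -/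
structure GPr (n k : ℕ) (p : Prf) : Prop where
  n16 : 16 ≤ n
  E0 : 0 < p.E
  K0 : 0 < p.K
  K4 : p.K ≤ 1 / 4
  J02 : p.J 0 ≤ 1 / 2
  cJ : ∀ x, 0 ≤ x → C2J p.J p.J1 p.J2 x
  cP : ∀ x, 0 ≤ x → C2J p.P p.P1 p.P2 x
  ce : ∀ x, 0 ≤ x → C2J p.e p.e1 p.e2 x
  e0 : ∀ x, 0 ≤ x → 0 ≤ p.e x
  e10 : ∀ x, 0 ≤ x → p.e1 x ≤ 0
  e20 : ∀ x, 0 ≤ x → 0 ≤ p.e2 x
  P0 : ∀ x, 0 ≤ x → 0 ≤ p.P x
  P10 : ∀ x, 0 ≤ x → 0 ≤ p.P1 x
  P20 : ∀ x, 0 ≤ x → p.P2 x ≤ 0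
  V0 : ∀ X x, 0 ≤ X → X ≤ x → 0 < p.J X + p.P x
  top : ∀ X x, 0 ≤ X → X ≤ x → p.J X + p.P x ≤ p.J 0 + p.K * x
  oP : ∀ η, 0 < η → ∃ X₀, ∀ x, X₀ ≤ x → p.P x ≤ η * x
  zz : ∀ X, 0 ≤ X → p.J1 X + 2 * X * p.J2 X ≤ 2 * (((n : ℝ) - 1) / (n + 2)) * p.E
  gr : ∀ x T g : ℝ, 0 ≤ x → 0 ≤ T → g = ((n : ℝ) - 1) / (n + 2) →
    (1 + p.E) * T ≤ p.J x + p.P x + (k + 1) * (p.J 0 + p.P x) →
    p.P1 x / (2 * g) + -p.e1 x * (T / (2 * g) + 4 * Real.sqrt (x * T / (2 * g))) ≤ p.e x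
  ini : ∀ X x, 0 ≤ X → X ≤ x → x ≤ 1 / 3 →
    (1 + p.E) / 3 - p.E * x + (k + 2) * p.e x * (1 / 3 - x) ≤ p.J X + p.P x
  rea : ∀ X x a b T S : ℝ, 0 ≤ X → X ≤ x → 0 ≤ a → (1 + p.E) * a ≤ p.J X + p.P x →
    0 ≤ b → (1 + p.E) * b ≤ p.J x + p.P x → 0 ≤ T →
    (1 + p.E) * T ≤ p.J x + p.P x + (k + 1) * (p.J 0 + p.P x) →
    0 ≤ S → S ≤ p.J (x - X) + p.P x → X * S ≤ x * (p.J 0 + p.P x) →
    (a + X + 1) * (p.J X + p.P x - p.J1 X * X) - 2 * (p.J X + p.P x)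
      - p.P1 x * x * (1 + x + b)
      + p.e x * ((p.J 0 + p.K * x) / (1 + p.E) * T
        + 4 * (k + 1) / n * ((p.J 0 + p.P x) / (1 + p.E))
          * (2 * (p.J x + p.P x) + k * (p.J 0 + p.P x)) + x * b)
      + p.e1 x * (x * (1 + x)) * T
      + 4 / n * (p.J X + p.P x - p.E * a) * (k * (p.J 0 + p.P x) + S)
    ≤ -(1 / 100) * (p.J X + p.P x)

section Alg

variable {n N : ℕ}

/-- `⟨A_ij,ν⟩` -/
noncomputable def kn (A : Fin n → Fin n → EE N) (ν : EE N) (i j : Fin n) : ℝ :=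
  inner ℝ (A i j) ν
/-- `Bc` -/
noncomputable def mv (B : Fin n → Fin n → ℝ) (c : Fin n → ℝ) (i : Fin n) : ℝ :=
  ∑ j, B i j * c j
/-- `Σ X_ij Y_ij` -/
noncomputable def fip (X Y : Fin n → Fin n → ℝ) : ℝ := ∑ i, ∑ j, X i j * Y i j
/-- linear combination of matrices -/
def lin {m : ℕ} (a : Fin m → ℝ) (H : Fin m → Fin n → Fin n → ℝ) (i j : Fin n) : ℝ :=
  ∑ α, a α * H α i j

/-- `-2K(BP,BQ) + 2K(P,P)⟨BP,BQ⟩ + K(P,Q)(|BP|² + |BQ|²)` -/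
noncomputable def QB (K B : Fin n → Fin n → ℝ) (P Q : Fin n → ℝ) : ℝ :=
  -2 * bil K (mv B P) (mv B Q) + 2 * bil K P P * (∑ i, mv B P i * mv B Q i)
    + bil K P Q * (∑ i, mv B P i ^ 2 + ∑ i, mv B Q i ^ 2)

/-- `S_ij = Σ_l ⟨A_il,A_jl⟩` -/
noncomputable def SA (A : Fin n → Fin n → EE N) (i j : Fin n) : ℝ :=
  ∑ l, inner ℝ (A i l) (A j l)

/-- reaction term of `½⟨A(P,Q),ν⟩²` -/
noncomputable def RN1 (A : Fin n → Fin n → EE N) (P Q : Fin n → ℝ) (ν : EE N) : ℝ :=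
  bil (kn A ν) P Q * (-2 * (∑ a, ∑ b, inner ℝ (Av A P a) (Av A Q b) * kn A ν a b)
      + 2 * (∑ a, ∑ b, inner ℝ (bilV A P Q) (A a b) * kn A ν a b)
      + 2 * Sbl A P Q * bil (kn A ν) P P + bil (kn A ν) P Q * (Sbl A P P + Sbl A Q Q))
    - bil (kn A ν) P Q ^ 2 * fip (kn A ν) (kn A ν)
/-- reaction term of `½Σ⟨A_ij,ν⟩²` -/
noncomputable def RNa (A : Fin n → Fin n → EE N) (ν : EE N) : ℝ :=
  (∑ i, ∑ j, kn A ν i j * (-2 * (∑ a, ∑ b, inner ℝ (A a i) (A b j) * kn A ν a b)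
      + 2 * (∑ a, ∑ b, inner ℝ (A i j) (A a b) * kn A ν a b)))
    + 2 * (∑ i, ∑ k, ∑ j, SA A i k * (kn A ν i j * kn A ν j k))
    - fip (kn A ν) (kn A ν) ^ 2
/-- reaction term of `½⟨H,ν⟩²` -/
noncomputable def RN3 (A : Fin n → Fin n → EE N) (ν : EE N) : ℝ :=
  2 * inner ℝ (Hv A) ν * (∑ a, ∑ b, inner ℝ (Hv A) (A a b) * kn A ν a b)
    - inner ℝ (Hv A) ν ^ 2 * fip (kn A ν) (kn A ν)
/-- reaction term of half of the squared norm of the traceless part of `⟨A_ij,ν⟩` -/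
noncomputable def RN2 (A : Fin n → Fin n → EE N) (ν : EE N) : ℝ := RNa A ν - RN3 A ν / n

/-- `Σ_m ⟨T(P,Q,e_m),ν⟩²` -/
noncomputable def tpq (T : Fin n → Fin n → Fin n → EE N) (P Q : Fin n → ℝ) (ν : EE N) : ℝ :=
  ∑ m, (∑ i, ∑ j, P i * Q j * inner ℝ (T i j m) ν) ^ 2
/-- `Σ ⟨T_ijk,ν⟩²` -/
noncomputable def tqn (T : Fin n → Fin n → Fin n → EE N) (ν : EE N) : ℝ :=
  ∑ i, ∑ j, ∑ k, (inner ℝ (T i j k) ν : ℝ) ^ 2
/-- `Σ ⟨∇_k H,ν⟩²` -/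
noncomputable def eqn (T : Fin n → Fin n → Fin n → EE N) (ν : EE N) : ℝ :=
  ∑ k, (inner ℝ (et T k) ν : ℝ) ^ 2

/-- the second fundamental form of a submanifold of the sphere of radius `1/√r` at the position `x₀` -/
structure ASp (n : ℕ) {N : ℕ} (A : Fin n → Fin n → EE N) (r : ℝ) (L : EE n →ₗᵢ[ℝ] EE N)
    (x₀ : EE N) : Prop where
  sy : SymV A
  r0 : 0 < r
  nx : ‖x₀‖ ^ 2 = 1 / r
  Lx : ∀ v, (inner ℝ (L v) x₀ : ℝ) = 0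
  AL : ∀ i j v, (inner ℝ (A i j) (L v) : ℝ) = 0
  Ax : ∀ i j, (inner ℝ (A i j) x₀ : ℝ) = -(if i = j then 1 else 0)

/-- unit normal in the sphere -/
structure UN {n N : ℕ} (L : EE n →ₗᵢ[ℝ] EE N) (x₀ ν : EE N) : Prop where
  n1 : ‖ν‖ = 1
  nL : ∀ v, (inner ℝ ν (L v) : ℝ) = 0
  nx : (inner ℝ ν x₀ : ℝ) = 0

/-- `A_ij = Σ_α H^α_ij e_α - r δ_ij x₀`, `e` orthonormal -/
structure NFm {n N m : ℕ} (A : Fin n → Fin n → EE N) (H : Fin m → Fin n → Fin n → ℝ) (r : ℝ)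
    (e : Fin m → EE N) (x₀ : EE N) : Prop where
  eq : A = fun i j => (∑ α, H α i j • e α) - (if i = j then r else 0) • x₀
  on : Orthonormal ℝ e
  ex : ∀ α, (inner ℝ (e α) x₀ : ℝ) = 0
  r0 : 0 < r
  nx : ‖x₀‖ ^ 2 = 1 / r
  sy : ∀ α, SymS (H α)

/-- the region (with `≤`) at a point -/
def RgA (n : ℕ) {N : ℕ} (p : Prf) (l : ℝ) (A : Fin n → Fin n → EE N) (r : ℝ)
    (L : EE n →ₗᵢ[ℝ] EE N) (x₀ : EE N) : Prop :=
  ∀ ν, UN L x₀ ν → ∀ c d : Fin n → ℝ, OP c d →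
    (bil (kn A ν) c d ^ 2 + p.E / n * ip0 (kn A ν) (kn A ν)) / r
      + l * (p.e (YY A / (n ^ 2 * r) - 1) * (thA2 A / (n * r)))
    ≤ l * (p.J (inner ℝ (Hv A) ν ^ 2 / (n ^ 2 * r)) + p.P (YY A / (n ^ 2 * r) - 1))

/-- the pinching for finite time: everywhere `θ ≤ C|H|²`, and `PinA` where `|H|² ≥ κ₀` -/
structure PinB (n : ℕ) {N : ℕ} (κ₀ δ C : ℝ) (A : Fin n → Fin n → EE N) : Prop where
  th : thA2 A ≤ C * YY A
  pp : κ₀ ≤ YY A → PinA n κ₀ δ A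

end Alg

section Flow

variable {n N : ℕ} {M : Type} [TopologicalSpace M] [ChartedSpace (EE n) M]

/-- flow in the shrinking sphere -/
structure SFN (n : ℕ) {N : ℕ} {M : Type} [TopologicalSpace M] [ChartedSpace (EE n) M]
    (J : Set ℝ) (F : M → ℝ → EE N) : Prop where
  mcf : IsMCFJ (n := n) J F
  r0 : ∀ t ∈ J, 0 < rr n t
  sph : ∀ q, ∀ t ∈ J, ‖F q t‖ ^ 2 = rr n t

/-- `C` is an orthonormal tangent frame (in coordinates), `ν` a unit normal in the sphere -/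
structure NFr (n : ℕ) {N : ℕ} {M : Type} [TopologicalSpace M] [ChartedSpace (EE n) M]
    (F : M → ℝ → EE N) (q : M) (t : ℝ) (C : Fin n → Fin n → ℝ) (ν : EE N) : Prop where
  on : ∀ i j, gb F q t (C i) (C j) = if i = j then 1 else 0
  n1 : ‖ν‖ = 1
  nF : (inner ℝ ν (F q t) : ℝ) = 0
  nT : ∀ c : Fin n → ℝ, (inner ℝ ν (tv F q t c) : ℝ) = 0

/-- `A` in the frame `C` -/
noncomputable def AC (F : M → ℝ → EE N) (q : M) (t : ℝ) (C : Fin n → Fin n → ℝ)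
    (i j : Fin n) : EE N := Ab F q t (C i) (C j)

/-- the values `(⟨A(P,Q),ν⟩², |a^ν|², ⟨H,ν⟩²)` -/
def PNN (n : ℕ) {N : ℕ} {M : Type} [TopologicalSpace M] [ChartedSpace (EE n) M]
    (F : M → ℝ → EE N) (q : M) (t : ℝ) : Set (ℝ × ℝ × ℝ) :=
  {z | ∃ (C : Fin n → Fin n → ℝ) (ν : EE N), NFr n F q t C ν ∧ ∃ P Q : Fin n → ℝ, OP P Q ∧
    z = (bil (kn (AC F q t C) ν) P Q ^ 2, ip0 (kn (AC F q t C) ν) (kn (AC F q t C) ν),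
      (inner ℝ (Hv (AC F q t C)) ν : ℝ) ^ 2)}

/-- left side minus right side of the region inequality -/
noncomputable def RgF (n : ℕ) {N : ℕ} {M : Type} [TopologicalSpace M] [ChartedSpace (EE n) M]
    (p : Prf) (l : ℝ) (F : M → ℝ → EE N) (q : M) (t : ℝ) (z : ℝ × ℝ × ℝ) : ℝ :=
  rr n t * (z.1 + p.E / n * z.2.1)
    + l * (p.e (xN n F q t) * (rr n t * thN n F q t / n))
    - l * (p.J (rr n t * z.2.2 / n ^ 2) + p.P (xN n F q t))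

/-- the region -/
def RgP (n : ℕ) {N : ℕ} {M : Type} [TopologicalSpace M] [ChartedSpace (EE n) M]
    (p : Prf) (l : ℝ) (F : M → ℝ → EE N) (t : ℝ) : Prop :=
  ∀ q, ∀ z ∈ PNN n F q t, RgF n p l F q t z < 0

/-- the situation in `ℝ^N` for finite time; compare `PDat` -/
structure PDaB (n : ℕ) {N : ℕ} {M : Type} [TopologicalSpace M] [ChartedSpace (EE n) M] (T : ℝ)
    (F : M → ℝ → EE N) (ts κ₀ δ C : ℝ) : Prop where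
  fl : IsMCFJ (n := n) (Ioo 0 T) F
  T1 : T ≤ 1
  ts0 : ts ∈ Ioo 0 T
  δ0 : 0 < δ
  δ1 : δ < 1
  κ1 : 1 ≤ κ₀
  C1 : 1 ≤ C
  Y1 : ∀ t ∈ Ioo 0 T, ∀ q, 1 ≤ ‖HH (n := n) F q t‖ ^ 2
  P : ∀ t ∈ Ico ts T, ∀ q, ∀ (L : EE n →ₗᵢ[ℝ] EE N) (u : EE n × ℝ → EE N) (θ : EE n × ℝ → M),
    GCh n F q t L u θ → PinB n κ₀ δ C (jgg u (0, t))
  unb : ∀ C' t₀ : ℝ, t₀ < T → ∃ t ∈ Ioo 0 T, t₀ < t ∧ ∃ q, C' < ‖HH (n := n) F q t‖ ^ 2

end Flow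

end Helper35.HG
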