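import Mathlib
import Pool.Agent.Helper35.HG.Defs

/-!
Project HG (MP_925021_gt), module statements, part A: algebra of the second fundamental form, every codimension.

Every module proves `theorem hX : StX` from the listed hypotheses (any statements of PI, PI2, CL, MS, HSF, HC may be
used as well, e.g. `Helper35.HC.StSPR, StSPL, StPXE, StSQG`).  COMPLETE proofs in the docstrings; all formulas were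
checked numerically.  `q = k + 2` is the codimension in the sphere, `N = n + q + 1`.
-/

set_option autoImplicit false

namespace Helper35.HG

open Helper35.PI Helper35.PI2 Helper32.CL Helper35.MS Helper35.HSF Helper35.HC
open scoped ContDiff Manifold Topology ENNReal BigOperators
open MeasureTheory Set Filter

/-- SPX (hSPR : StSPR). One matrix in the region.

Proof. There is an `OP` (`n ≥ 2`), so `G = F - (E/n) ip0 X X ≥ 0`; `s = √G`. For an `OP` `c, d` the pair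
`u = (c+d)/√2, v = (c-d)/√2` is an `OP` and `bil X u v = ½(bil X c c - bil X d d)` (`X` symmetric), so
`bil X c c - bil X d d ≤ 2s`. SPR: `ip0 X X ≤ n s² = nF - E ip0 X X`, `cq X Y ≤ 4s² ip0 Y Y`, `cq Y X = cq X Y`. -/
def StSPX : Prop := ∀ n : ℕ, 2 ≤ n → ∀ (X : Fin n → Fin n → ℝ) (E F : ℝ), SymS X → 0 ≤ E →
    (∀ c d, OP c d → bil X c d ^ 2 + E / n * ip0 X X ≤ F) →
    0 ≤ ip0 X X ∧ 0 ≤ F ∧ (1 + E) * ip0 X X ≤ n * F ∧ ∀ Y : Fin n → Fin n → ℝ, SymS Y →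
      cq X Y ≤ 4 * (F - E / n * ip0 X X) * ip0 Y Y ∧ cq Y X = cq X Y ∧ 0 ≤ cq X Y

/-- CTA (hPXE : StPXE)(hSPR : StSPR). Commutator and off-diagonal terms for one normal direction orthogonal to `ν`.

Proof. `κ = bil K P Q`. If `κ = 0`: `bil K c d = 0` for all `OP`s, so `K = k₀·1` (`bil K u v = ½(K(c,c)-K(d,d))` as in SPX),
`QB K B P Q = -2k₀⟨BP,BQ⟩ + 2k₀⟨BP,BQ⟩ + 0 = 0`, `cq K B = 0`. Let `κ > 0`; PXE for `(K, 0)` (`MXP K 0 P Q κ`): with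
`p = (P+Q)/√2`, `q = (P-Q)/√2`, `Kp = (k₀+κ)p`, `Kq = (k₀-κ)q` and `(k₀-κ)|w|² ≤ K(w,w) ≤ (k₀+κ)|w|²`. Expanding,
`QB = [(k₀+κ)|Bp|² - K(Bp,Bp)] + [K(Bq,Bq) - (k₀-κ)|Bq|²]`. For `v = Bp`, `v' = v - ⟨v,p⟩p`: the first bracket is
`(k₀+κ)|v'|² - K(v',v') ≤ 2κ|v'|²`, `r_p := |v'|² = |Bp|² - B(p,p)²`; if `v' ≠ 0`, `e = v'/|v'| ⟂ p`, `B(p,e) = |v'|`,
`(p,e)` an `OP`: `r_p ≤ F - (E/n)ip0 B B` (also if `v' = 0`). The same for `q`. SPR with `X = K`, `s = κ`: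
`cq K B ≤ 4κ² ip0 B B`. Sum: `κ·2κ·2(F - (E/n)ip0 B B) + (E/n)4κ² ip0 B B = 4κ²F`. -/
def StCTA : Prop := ∀ n : ℕ, 2 ≤ n → ∀ (K B : Fin n → Fin n → ℝ) (P Q : Fin n → ℝ) (E F : ℝ),
    SymS K → SymS B → OP P Q → 0 ≤ E → 0 ≤ bil K P Q →
    (∀ c d, OP c d → bil K c d ^ 2 ≤ bil K P Q ^ 2) →
    (∀ c d, OP c d → bil B c d ^ 2 + E / n * ip0 B B ≤ F) →
    bil K P Q * QB K B P Q + E / n * cq K B ≤ 4 * bil K P Q ^ 2 * F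

/-- CTB (hPXE : StPXE). Replacing `B` by `aK + gB`.

Proof. `κ = bil K P Q`. `κ = 0`: `K = k₀·1` and both sides of all equations vanish (see CTA). `κ > 0`: in the formula for
`QB` in CTA the form `(k₀+κ)⟨v,v'⟩ - K(v,v')` has `p` in its kernel, and `(aK+gB)p = a(k₀+κ)p + gBp`; the same for `q`.
`[K, aK+gB] = g[K,B]`. -/
def StCTB : Prop := ∀ n : ℕ, 2 ≤ n → ∀ (K B : Fin n → Fin n → ℝ) (P Q : Fin n → ℝ),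
    SymS K → SymS B → OP P Q → 0 ≤ bil K P Q →
    (∀ c d, OP c d → bil K c d ^ 2 ≤ bil K P Q ^ 2) → ∀ a g : ℝ,
    QB K (lc a g K B) P Q = g ^ 2 * QB K B P Q ∧ cq K (lc a g K B) = g ^ 2 * cq K B

/-- FRL. Linear combinations in a frame.

Proof. `⟨A_ij,Σa_αe_α⟩ = Σa_αH^α_ij` (orthonormality, `e_α ⟂ x₀`), trace. The norm of `Σa_αe_α` is `1`. -/
def StFRL : Prop := ∀ n N m : ℕ, 1 ≤ n → ∀ (A : Fin n → Fin n → EE N)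
    (H : Fin m → Fin n → Fin n → ℝ) (r : ℝ) (L : EE n →ₗᵢ[ℝ] EE N) (e : Fin m → EE N)
    (x₀ : EE N), NFm A H r e x₀ → (∀ α, UN L x₀ (e α)) → ∀ a : Fin m → ℝ,
    kn A (∑ α, a α • e α) = lin a H ∧
    (inner ℝ (Hv A) (∑ α, a α • e α) : ℝ) = n * ∑ α, a α * mt (H α) ∧
    SymS (lin a H) ∧ mt (lin a H) = ∑ α, a α * mt (H α) ∧
    (∑ α, a α ^ 2 = 1 → UN L x₀ (∑ α, a α • e α))

/-- FRM. Frames of the normal space.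

Proof. `V = (range L ⊕ ℝx₀)^⊥`, `dim V = N - n - 1 = k+2` (`x₀ ≠ 0`, `x₀ ⟂ range L`); `B_ij = A_ij + rδ_ijx₀ ∈ V`
(`⟨A_ij,x₀⟩ = -δ_ij = -rδ_ij‖x₀‖²`), and `H' = Hv A + n r x₀ ∈ V`, `⟨Hv A,v⟩ = ⟨H',v⟩` for `v ∈ V`. For every orthonormal
family `e_0..e_(k+1)` in `V` (then a basis of `V`) and `H^α_ij = ⟨A_ij,e_α⟩`: `NFm`. (1) `e_0 = ν`; let
`w = H' - ⟨H',ν⟩ν ∈ V ∩ ν^⊥`; `e_1 = w/‖w‖` if `w ≠ 0`, else any unit vector of `V ∩ ν^⊥` (of dimension `k+1 ≥ 1`); complete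
to an orthonormal basis of `V`: `H' ∈ span(e_0,e_1)`. (2) `e_0 = H'/‖H'‖` if `H' ≠ 0`, else any; complete. -/
def StFRM : Prop := ∀ n N k : ℕ, N = n + k + 3 → 1 ≤ n → ∀ (A : Fin n → Fin n → EE N) (r : ℝ)
    (L : EE n →ₗᵢ[ℝ] EE N) (x₀ : EE N), ASp n A r L x₀ →
    (∀ ν, UN L x₀ ν → ∃ e : Fin (k + 2) → EE N, NFm A (fun α => kn A (e α)) r e x₀ ∧
      (∀ α, UN L x₀ (e α)) ∧ e 0 = ν ∧
      ∀ j : Fin k, (inner ℝ (Hv A) (e j.succ.succ) : ℝ) = 0) ∧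
    ∃ e : Fin (k + 2) → EE N, NFm A (fun α => kn A (e α)) r e x₀ ∧ (∀ α, UN L x₀ (e α)) ∧
      (∀ j : Fin (k + 1), (inner ℝ (Hv A) (e j.succ) : ℝ) = 0) ∧
      ∀ ν, UN L x₀ ν → ∃ a : Fin (k + 2) → ℝ, ∑ α, a α ^ 2 = 1 ∧ ν = ∑ α, a α • e α

/-- SQF (hSQG : StSQG). The invariants in a frame. Compare `StSQB` (HC).

Proof. `Hv A = n(Σm_αe_α - r x₀)`, `m_α = mt (H α)`; `m = Hv A/n`, `|m|² = Σm_α² + r`, `a_ij = Σ_α (H^α)°_ij e_α` (SQG), `v =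
Σ⟨a_ij,m⟩² = ip0 M M`, `M = Σm_αH^α`. `Sq a`: first sum `Σ_αβ ip0(H^α,H^β)²`; second minus third sum (with the factor `2`):
`2Σ_αβ[tr(a^αa^αa^βa^β) - tr(a^αa^βa^αa^β)] = Σ_αβ cq(a^α,a^β)`, and `cq` does not change if traceless parts are taken. -/
def StSQF : Prop := ∀ n N m : ℕ, 1 ≤ n → ∀ (A : Fin n → Fin n → EE N)
    (H : Fin m → Fin n → Fin n → ℝ) (r : ℝ) (e : Fin m → EE N) (x₀ : EE N), NFm A H r e x₀ →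
    ∀ (M : Fin n → Fin n → ℝ) (mm : ℝ), M = lin (fun α => mt (H α)) H →
    mm = ∑ α, mt (H α) ^ 2 →
    (∀ α, kn A (e α) = H α) ∧ (∀ α, (inner ℝ (Hv A) (e α) : ℝ) = n * mt (H α)) ∧
    YY A = n ^ 2 * (mm + r) ∧ thA2 A = ∑ α, ip0 (H α) (H α) ∧
    ZZ A = n ^ 2 * (ip0 M M + n * (mm + r) ^ 2) ∧
    Sq A - ZZ A / n = (∑ α, ∑ β, (ip0 (H α) (H β) ^ 2 + cq (H α) (H β))) + n * ip0 M M

/-- RNF (hPXE : StPXE). The reaction terms in a frame with `e_0 = ν`; `K = H^0`, `H_j = H^(j+1)`.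

Proof. `⟨A_ij,A_kl⟩ = Σ_αH^α_ijH^α_kl + rδ_ijδ_kl`, `kn A (e 0) = K`. RN3: `⟨Hv A,A_ab⟩ = Σ_α tr H^α H^α_ab + n r δ_ab`, so
`2hΣ⟨Hv A,A_ab⟩K_ab = 2h(h|K|² + Σ_j tr H_j⟨K,H_j⟩ + n r h)`, minus `h²|K|²`. RNa: for every `α` the terms are
`-2tr(K H K H) + 2⟨K,H⟩² + 2tr(K²H²) = cq K H + 2⟨K,H⟩²` (`cq = 2tr(K²H²) - 2tr(KHKH)`), the `r` terms
`-2r|K|² + 2r h² + 2r|K|²`; with `α = 0`: `2|K|⁴`; minus `|K|⁴`. So `RNa = |K|⁴ + Σ_j(cq K H_j + 2⟨K,H_j⟩²) + 2r h²`,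
`RN2 = RNa - RN3/n`. RN1: `κ = bil K P Q`; `bilV A P Q = Σ_αH^α(P,Q)e_α`, the `r` terms: `-2rκ + 0 + 0 + 2rκ = 0` in the
bracket; the terms of `H_j` in the bracket: `2H_j(P,Q)⟨K,H_j⟩ + QB K H_j P Q`; the terms of `K`: `2κ|K|² + QB K K P Q` and
`QB K K P Q = 0`: `κ = 0`: `K = k₀·1` (see CTA); `κ > 0`: PXE for `(K,0)`: `KP = k₀P+κQ`, `KQ = k₀Q+κP`,
`⟨KP,K(KQ)⟩ = κ(3k₀²+κ²)`, `⟨KP,KQ⟩ = 2k₀κ`, `|KP|² = |KQ|² = k₀²+κ²`: `-2κ(3k₀²+κ²) + 4k₀²κ + 2κ(k₀²+κ²) = 0`. -/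
def StRNF : Prop := ∀ n N m : ℕ, 2 ≤ n → ∀ (A : Fin n → Fin n → EE N)
    (H : Fin (m + 1) → Fin n → Fin n → ℝ) (r : ℝ) (e : Fin (m + 1) → EE N) (x₀ : EE N),
    NFm A H r e x₀ →
    fip (H 0) (H 0) = ip0 (H 0) (H 0) + n * mt (H 0) ^ 2 ∧
    RN3 A (e 0) = (n * mt (H 0)) ^ 2 * fip (H 0) (H 0)
      + 2 * (n * mt (H 0)) * (∑ j : Fin m, n * mt (H j.succ) * fip (H 0) (H j.succ))
      + 2 * n * r * (n * mt (H 0)) ^ 2 ∧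
    RN2 A (e 0) = fip (H 0) (H 0) * ip0 (H 0) (H 0)
      + 2 * (∑ j : Fin m, fip (H 0) (H j.succ) * ip0 (H 0) (H j.succ))
      + ∑ j : Fin m, cq (H 0) (H j.succ) ∧
    ∀ P Q : Fin n → ℝ, OP P Q → 0 ≤ bil (H 0) P Q →
      (∀ c d, OP c d → bil (H 0) c d ^ 2 ≤ bil (H 0) P Q ^ 2) →
      RN1 A P Q (e 0) = bil (H 0) P Q ^ 2 * fip (H 0) (H 0)
        + 2 * bil (H 0) P Q * (∑ j : Fin m, bil (H j.succ) P Q * fip (H 0) (H j.succ))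
        + bil (H 0) P Q * ∑ j : Fin m, QB (H 0) (H j.succ) P Q

/-- GBD. Gram matrix of the traceless parts.

Proof. `ip0` is a positive semidefinite symmetric bilinear form. Fix `α`, `g_β = ip0 (H α) (H β)`, `s = Σ_βg_β²`; if `s = 0`
nothing to show. `ip0 (H α) (lin g H) = s`; Cauchy-Schwarz: `s² ≤ ip0 (H α)(H α)·ip0 (lin g H)(lin g H) ≤
ip0 (H α)(H α)·Lam·s` (`a = g/√s`). So `s ≤ Lam·ip0 (H α)(H α)`; sum over `α`. -/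
def StGBD : Prop := ∀ (n m : ℕ) (H : Fin m → Fin n → Fin n → ℝ) (Lam : ℝ),
    (∀ a : Fin m → ℝ, ∑ α, a α ^ 2 = 1 → ip0 (lin a H) (lin a H) ≤ Lam) →
    ∑ α, ∑ β, ip0 (H α) (H β) ^ 2 ≤ Lam * ∑ α, ip0 (H α) (H α)

/-- SQC (hFRM : StFRM)(hFRL : StFRL)(hSQF : StSQF)(hSPX : StSPX)(hGBD : StGBD). Bounds from the region.

Proof. Write `V_X = J X + P x`. RgA for a unit normal `ν` and `X = ⟨Hv A,ν⟩²/(n²r)`: the `e`-term is `≥ 0` once `T ≥ 0`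
(`T = thA2 A/(nr) ≥ 0`: SQF in a frame), so `bil² + (E/n)ip0 ≤ r l V_X`; SPX: `(1+E)ip0 ≤ n r l V_X`. Use the frame (2) of
FRM, `H_α = kn A (e_α)`, `m_α = mt H_α`: `m_j = 0` for `j ≥ 1`, `m_0² = x r` (SQF: `YY = n²(m_0²+r)`), so `x ≥ 0`,
`⟨Hv A,ν⟩²/(n²r) = a_0²m_0²/r ≤ x` for `ν = Σa_αe_α`, `T = Σ_α ip0(H_α,H_α)/(nr)`, `(1+E)T ≤ l(V_x + (k+1)V_0)`.
`b := ip0(H_0,H_0)/(nr)`: `(1+E)b ≤ l V_x ≤ V_x`; `M = m_0H_0`, `ip0 M M = x r·n r b`. `ZZ/n² - rYY/n = ip0 M M +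
n(m_0²+r)m_0² = nr²(xb + x(1+x))`. `Sq - ZZ/n = Σip0² + Σcq + n·nr²xb`. `Σ ip0² ≤ Lam·n r T`, `Lam = n r l max_a V ≤
n r (J 0 + Kx)/(1+E)` (GBD, FRL, `top`). `Σcq`: `cq(H_α,H_α) = 0`. For `j ≥ 1` SPX gives
`cq(H_j,Y) ≤ 4 r l V_0 ip0 Y Y`. So `cq(H_0,H_j) = cq(H_j,H_0) ≤ 4rlV_0·n r lV_x/(1+E)` and
`cq(H_i,H_j) ≤ 4rlV_0·nrlV_0/(1+E)`; there are `2(k+1)` terms of the first and `(k+1)k` of the second kind: the sum is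
`≤ n²r²·(4(k+1)/n)(V_0/(1+E))(2V_x + kV_0)` (`l ≤ 1`, `V > 0`). -/
def StSQC : Prop := ∀ n N k : ℕ, N = n + k + 3 → ∀ p : Prf, GPr n k p →
    ∀ (A : Fin n → Fin n → EE N) (r : ℝ) (L : EE n →ₗᵢ[ℝ] EE N) (x₀ : EE N), ASp n A r L x₀ →
    ∀ l : ℝ, 0 < l → l ≤ 1 → RgA n p l A r L x₀ → ∀ x T : ℝ, x = YY A / (n ^ 2 * r) - 1 →
    T = thA2 A / (n * r) →
    0 ≤ x ∧ 0 ≤ T ∧ (1 + p.E) * T ≤ l * (p.J x + p.P x + (k + 1) * (p.J 0 + p.P x)) ∧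
    (∀ ν, UN L x₀ ν → (inner ℝ (Hv A) ν : ℝ) ^ 2 / (n ^ 2 * r) ≤ x ∧
      0 ≤ ip0 (kn A ν) (kn A ν) ∧ (1 + p.E) * (ip0 (kn A ν) (kn A ν) / (n * r))
        ≤ l * (p.J ((inner ℝ (Hv A) ν : ℝ) ^ 2 / (n ^ 2 * r)) + p.P x)) ∧
    ∃ b : ℝ, 0 ≤ b ∧ (1 + p.E) * b ≤ l * (p.J x + p.P x) ∧ b ≤ T ∧
      ZZ A / n ^ 2 - r * YY A / n = n * r ^ 2 * (x * b + x * (1 + x)) ∧
      Sq A - ZZ A / n ≤ n ^ 2 * r ^ 2 * ((p.J 0 + p.K * x) / (1 + p.E) * T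
        + 4 * (k + 1) / n * ((p.J 0 + p.P x) / (1 + p.E))
          * (2 * (p.J x + p.P x) + k * (p.J 0 + p.P x)) + x * b)

/-- FOC (hFRL : StFRL)(hSQF : StSQF). First order condition in the normal direction.

Proof. Let `c² + s² = 1`, `ν(s) = c e_0 + s e_j` (`c = √(1-s²)`, `s` near `0`), a unit normal; FRL: `kn A ν = cK + sH_j`,
`⟨Hv A,ν⟩ = n(c m_0 + s m_j)`. RgA for `(P,Q)` and `ν(s)` and the equality at `s = 0`: the function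
`φ(s) = ((cκ + s w)² + (E/n)(c² ip0 K K + 2cs ip0 K H_j + s² ip0 H_j H_j))/r - l J((c m_0 + s m_j)²/r)` has a maximum at
`s = 0` (the `e` and `P` terms do not depend on `ν`), `κ = bil K P Q`, `w = bil H_j P Q`; it is differentiable at `0`
(`C2J`, `X ≥ 0`): `0 = φ'(0) = (2κw + 2(E/n)ip0 K H_j)/r - l J1(m_0²/r)·2m_0m_j/r`. -/
def StFOC : Prop := ∀ n N k : ℕ, ∀ p : Prf, GPr n k p →
    ∀ (A : Fin n → Fin n → EE N) (r : ℝ) (L : EE n →ₗᵢ[ℝ] EE N) (x₀ : EE N), ASp n A r L x₀ →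
    ∀ l : ℝ, 0 < l → l ≤ 1 → RgA n p l A r L x₀ → ∀ (m : ℕ) (H : Fin (m + 1) → Fin n → Fin n → ℝ)
    (e : Fin (m + 1) → EE N), NFm A H r e x₀ → (∀ α, UN L x₀ (e α)) →
    ∀ P Q : Fin n → ℝ, OP P Q →
    (bil (H 0) P Q ^ 2 + p.E / n * ip0 (H 0) (H 0)) / r
      + l * (p.e (YY A / (n ^ 2 * r) - 1) * (thA2 A / (n * r)))
      = l * (p.J (mt (H 0) ^ 2 / r) + p.P (YY A / (n ^ 2 * r) - 1)) →
    ∀ j : Fin m, bil (H 0) P Q * bil (H j.succ) P Q + p.E / n * ip0 (H 0) (H j.succ)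
      = l * p.J1 (mt (H 0) ^ 2 / r) * (mt (H 0) * mt (H j.succ))

/-- CTS (hCTA : StCTA)(hCTB : StCTB)(hFRM : StFRM)(hFRL : StFRL)(hSQF : StSQF)(hSPX : StSPX). The sum of the commutator terms.

Proof. Frame (1) of FRM: `e_0 = ν`, `m_j = 0` for the directions `e_(j+2)`, `K = H_0`, `B = H_1`, `m_0² + m_1² = x r`, `m_0² = X r`.
For a unit normal `ν'` with `X' = ⟨Hv A,ν'⟩²/(n²r)`: `bil² + (E/n)ip0 ≤ r l V_(X')` (as in SQC). CTA with `F = r l V_0` for the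
`k` directions `e_(j+2)` and with `F = r l(J(x-X) + P x)` for `e_1`. If `X > 0`: `g = √(x/X)`,
`w' = (-m_1e_0 + m_0e_1)/√(xr)` is a unit normal with `⟨Hv A,w'⟩ = 0`, `kn A w' = (-m_1K + m_0B)/√(xr) =: W`, so
`B = (m_1/m_0)K + (√(xr)/m_0)W`; CTB (`g² = xr/m_0² = x/X`) and CTA for `W` (`F = rlV_0`): the terms of `B` are
`≤ (x/X)4κ²rlV_0`. `S = J(x-X) + P x` if `X = 0` (then `X S = 0`), else `S = min (J(x-X) + P x) (x V_0/X)`. -/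
def StCTS : Prop := ∀ n N k : ℕ, N = n + k + 3 → ∀ p : Prf, GPr n k p →
    ∀ (A : Fin n → Fin n → EE N) (r : ℝ) (L : EE n →ₗᵢ[ℝ] EE N) (x₀ : EE N), ASp n A r L x₀ →
    ∀ l : ℝ, 0 < l → l ≤ 1 → RgA n p l A r L x₀ → ∀ x : ℝ, x = YY A / (n ^ 2 * r) - 1 →
    ∀ (P Q : Fin n → ℝ) (ν : EE N), UN L x₀ ν → OP P Q → 0 ≤ bil (kn A ν) P Q →
    (∀ c d, OP c d → bil (kn A ν) c d ^ 2 ≤ bil (kn A ν) P Q ^ 2) →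
    ∀ X : ℝ, X = (inner ℝ (Hv A) ν : ℝ) ^ 2 / (n ^ 2 * r) →
    ∃ (e : Fin (k + 2) → EE N) (S : ℝ), NFm A (fun α => kn A (e α)) r e x₀ ∧
      (∀ α, UN L x₀ (e α)) ∧ e 0 = ν ∧ 0 ≤ S ∧ S ≤ p.J (x - X) + p.P x ∧
      X * S ≤ x * (p.J 0 + p.P x) ∧
      bil (kn A ν) P Q * (∑ j : Fin (k + 1), QB (kn A ν) (kn A (e j.succ)) P Q)
        + p.E / n * (∑ j : Fin (k + 1), cq (kn A ν) (kn A (e j.succ)))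
      ≤ 4 * bil (kn A ν) P Q ^ 2 * (r * (l * (k * (p.J 0 + p.P x) + S)))

/-- REA (hCTS : StCTS)(hRNF : StRNF)(hFOC : StFOC)(hSQC : StSQC)(hSQF : StSQF)(hSPX : StSPX). The reaction inequality.

Proof. Both sides do not change if `Q, ν` are replaced by `-Q, ν` (`RN1, RN2, RN3` are even in `Q` and in `ν`): let
`κ = bil K P Q ≥ 0`, `K = kn A ν`. `(P,Q)` is maximal for `K` (RgA for `ν` and the equality), CTS: `e, S`, `H_α = kn A (e_α)`,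
`m_α = mt H_α`, `h = n m_0`. Let `α = ip0 K K`, `a = α/(nr)`, `X = m_0²/r`, `V = J X + P x`, `W = κ² + (E/n)α`, so
`W = r l(V - e T)`, `(1+E)a ≤ lV ≤ V` (SQC). RNF: the terms with `⟨K,H_j⟩` on the left side are
`2Σ_j⟨K,H_j⟩[κ bil H_j P Q + (E/n)ip0 K H_j - l J1(X) m_0m_j] = 0` (FOC). The rest, with `|K|² = n r(a + X)`:
`W·nr(a+X) - n r W + CT + l e((Sq - ZZ/n)/n - rθ) + l e1 T(ZZ/n² - rYY/n) - l J1(X)(m_0²|K|² + 2nr m_0² - nr m_0²)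
- l P1(ZZ/n² - rYY/n)`, `CT` = left side of CTS (with `E/n cq`), `θ = nrT`; SQC for the `Sq` and `ZZ` terms (`b`). Divide by
`nr²`: it is at most `l·{(a+X-1)(V - eT) + e(Z - T) + e1 T(xb + x(1+x)) - J1(X)X(a+X+1) - P1(xb + x(1+x))} +
(4/n)(κ²/r)l(kV_0+S)`, where `Z` is the bracket of SQC, `e = e x ≥ 0`, `e1 ≤ 0`. The `eT` terms: `-(a+X)eT ≤ 0`;
`e1 T x b ≤ 0`. `κ²/r ≤ V - Ea` (`κ² = W - (E/n)α`). `(a+X-1)V - J1X(a+X+1) = (a+X+1)(V - J1X) - 2V`. So it is `≤ l·(left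
side of GPr.rea) ≤ -(l/100)V`. -/
def StREA : Prop := ∀ n N k : ℕ, N = n + k + 3 → ∀ p : Prf, GPr n k p →
    ∀ (A : Fin n → Fin n → EE N) (r : ℝ) (L : EE n →ₗᵢ[ℝ] EE N) (x₀ : EE N), ASp n A r L x₀ →
    ∀ l : ℝ, 0 < l → l ≤ 1 → RgA n p l A r L x₀ → ∀ x T : ℝ, x = YY A / (n ^ 2 * r) - 1 →
    T = thA2 A / (n * r) → ∀ (P Q : Fin n → ℝ) (ν : EE N), UN L x₀ ν → OP P Q →
    ∀ X h : ℝ, h = inner ℝ (Hv A) ν → X = h ^ 2 / (n ^ 2 * r) →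
    (bil (kn A ν) P Q ^ 2 + p.E / n * ip0 (kn A ν) (kn A ν)) / r + l * (p.e x * T)
      = l * (p.J X + p.P x) →
    RN1 A P Q ν + p.E / n * RN2 A ν
      - n * r * (bil (kn A ν) P Q ^ 2 + p.E / n * ip0 (kn A ν) (kn A ν))
      + l * p.e x * ((Sq A - ZZ A / n) / n - r * thA2 A)
      + l * p.e1 x * T * (ZZ A / n ^ 2 - r * YY A / n)
      - l * p.J1 X * (RN3 A ν / n ^ 2 - r * h ^ 2 / n)
      - l * p.P1 x * (ZZ A / n ^ 2 - r * YY A / n)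
    ≤ -(n / 100) * r ^ 2 * (l * (p.J X + p.P x))

/-- GRA (hT3 : StT3). The gradient terms.

Proof. `g = (n-1)/(n+2)`. (i) T3 for the scalar tensor `⟨T_ijk,ν⟩` (as a tensor with values in `EE 1`, or `⟨T_ijk,ν⟩•ν`):
`tqn - eqn/n ≥ (2(n-1)/(n(n+2)))eqn`, so the terms with `eqn` are `≤ (eqn/n²)(-2gE + l(J1 X + 2XJ2 X)) ≤ 0` (`zz`, `l ≤ 1`,
`E > 0`), and `-tpq ≤ 0`. (ii) Let `G = eq2 T/n²`, `g' = (tq T - eq2 T/n)/n`; T3: `g' ≥ 2gG`. The terms with `e2` and `P2` are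
`≤ 0`. `gX_k - gY_k/n = 2Σ_ij⟨a_ij,T_ijk⟩`, `a_ij = A_ij - δ_ijHv/n`, and `T` may be replaced by `T - δ_ij et T/n`: the sum of
squares over `k` is `≤ 4 thA2 A (tq - eq2/n) = 4 n r T n g'`. `gY_k = 2⟨Hv A + n r x₀, et T k⟩` (`et T k ⟂ x₀`),
`‖Hv A + n r x₀‖² = YY - n²r = n²r x`: `Σ gY_k² ≤ 4n²r x·n²G`. So `|Σ gY_k(gX_k - gY_k/n)|/(rn³) ≤ 4√(x G T g') ≤
4√(xT/(2g)) g'`. The rest is `≤ l g'(-e + P1/(2g) + (-e1)(T/(2g) + 4√(xT/(2g)))) ≤ 0` (`gr`). -/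
def StGRA : Prop := ∀ n N k : ℕ, ∀ p : Prf, GPr n k p →
    ∀ (A : Fin n → Fin n → EE N) (r : ℝ) (L : EE n →ₗᵢ[ℝ] EE N) (x₀ : EE N), ASp n A r L x₀ →
    ∀ T : Fin n → Fin n → Fin n → EE N, Sym3V T → (∀ i j k', (inner ℝ (T i j k') x₀ : ℝ) = 0) →
    ∀ (P Q : Fin n → ℝ) (ν : EE N), ‖ν‖ = 1 → ∀ l x θ X h : ℝ, 0 < l → l ≤ 1 →
    x = YY A / (n ^ 2 * r) - 1 → θ = thA2 A / (n * r) → 0 ≤ x → 0 ≤ θ →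
    (1 + p.E) * θ ≤ p.J x + p.P x + (k + 1) * (p.J 0 + p.P x) →
    h = inner ℝ (Hv A) ν → X = h ^ 2 / (n ^ 2 * r) →
    -tpq T P Q ν - p.E / n * (tqn T ν - eqn T ν / n)
      - l * p.e x * ((tq T - eq2 T / n) / n)
      - l * p.e1 x * θ * (eq2 T / n ^ 2)
      - l * p.e2 x * θ * ((∑ k', gY A T k' ^ 2) / (2 * r * n ^ 4))
      - l * p.e1 x * ((∑ k', gY A T k' * (gX A T k' - gY A T k' / n)) / (r * n ^ 3))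
      + l * p.J1 X * (eqn T ν / n ^ 2) + l * p.J2 X * (2 * X * eqn T ν / n ^ 2)
      + l * p.P1 x * (eq2 T / n ^ 2)
      + l * p.P2 x * ((∑ k', gY A T k' ^ 2) / (2 * r * n ^ 4)) ≤ 0

/-- TPN (hREA : StREA)(hGRA : StGRA)(hSQC : StSQC). The touching point.

Proof. SQC: `x ≥ 0`, `θ ≥ 0` and the bound for `(1+E)θ` (`l ≤ 1`, `V > 0`). `hX = -2tq T + 2Sq A`, `hY = -2eq2 T + 2ZZ A`.
The left side is `(2/r)·(left side of REA + left side of GRA)`: compare term by term (`(r/2)Σ(jg x)² =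
Σ gY²/(2rn⁴)`, `(r/2)Σ(2h⟨et T k,ν⟩/(rn²))² = 2X eqn/n²`), so it is
`≤ (2/r)(-(n/100)r²lV) = -(n/50) r l V`. -/
def StTPN : Prop := ∀ n N k : ℕ, N = n + k + 3 → ∀ p : Prf, GPr n k p →
    ∀ (A : Fin n → Fin n → EE N) (r : ℝ) (L : EE n →ₗᵢ[ℝ] EE N) (x₀ : EE N), ASp n A r L x₀ →
    ∀ T : Fin n → Fin n → Fin n → EE N, Sym3V T → (∀ i j k', (inner ℝ (T i j k') x₀ : ℝ) = 0) →
    ∀ l : ℝ, 0 < l → l ≤ 1 → RgA n p l A r L x₀ → ∀ x θ : ℝ, x = YY A / (n ^ 2 * r) - 1 →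
    θ = thA2 A / (n * r) → ∀ (P Q : Fin n → ℝ) (ν : EE N), UN L x₀ ν → OP P Q →
    ∀ X h : ℝ, h = inner ℝ (Hv A) ν → X = h ^ 2 / (n ^ 2 * r) →
    (bil (kn A ν) P Q ^ 2 + p.E / n * ip0 (kn A ν) (kn A ν)) / r + l * (p.e x * θ)
      = l * (p.J X + p.P x) →
    ∀ hx sx cx hXX sXX : ℝ, hx = 1 / r * (hY A T / n ^ 2) - 2 * n * (YY A / n ^ 2) →
    sx = ∑ k', (1 / r * (gY A T k' / n ^ 2)) ^ 2 →
    cx = ∑ k', 1 / r * (gY A T k' / n ^ 2) * (1 / r * ((gX A T k' - gY A T k' / n) / n)) →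
    hXX = 1 / r * ((-2 * eqn T ν + 2 * RN3 A ν) / n ^ 2) - 2 * n * (h ^ 2 / n ^ 2) →
    sXX = ∑ k', (1 / r * (2 * h * inner ℝ (et T k') ν / n ^ 2)) ^ 2 →
    0 ≤ x ∧ 0 ≤ θ ∧ 0 ≤ X ∧ X ≤ x ∧
    1 / r * ((-2 * tpq T P Q ν + 2 * RN1 A P Q ν)
          + p.E / n * (-2 * (tqn T ν - eqn T ν / n) + 2 * RN2 A ν))
        - 2 * n * (bil (kn A ν) P Q ^ 2 + p.E / n * ip0 (kn A ν) (kn A ν))
        + l * (p.e x * (1 / r * ((hX A T - hY A T / n) / n) - 2 * thA2 A)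
          + θ * (p.e1 x * hx - p.e2 x * sx) - 2 * (p.e1 x * cx))
        - l * (p.J1 X * hXX - p.J2 X * sXX) - l * (p.P1 x * hx - p.P2 x * sx)
      ≤ -(n / 50) * r * (l * (p.J X + p.P x))

/-- INN (hFRM : StFRM)(hFRL : StFRL)(hSQF : StSQF). Initial values. Compare `Helper86/HC/M_INA.lean`.

Proof. Any frame of FRM; for unit `c`: `Σ_α H_α(c,c)² = ‖bilV A c c + r x₀‖² ≤ τr`. (i) `OP P Q`: `u_± = (P±Q)/√2`,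
`A(u_±,u_±) + r x₀ = s ± bilV A P Q`; parallelogram: `‖bilV A P Q‖² ≤ τr`, and `bil (kn A ν) P Q = ⟨bilV A P Q,ν⟩`. (ii) For a
unit normal `ν` use frame (1) of FRM (`e_0 = ν`, `K = kn A ν`) and an orthonormal eigenbasis `c_i` of `K`:
`Σ_iΣ_αH_α(c_i,c_i)² ≤ nτr`, `Σ_iK(c_i,c_i)² = |K|² = ip0 K K + n mt K²`, `Σ_iH_α(c_i,c_i)² ≥ n mt(H_α)²`
(`Σ_iH_α(c_i,c_i) = tr H_α`), and `Σmt(H_α)² = x r` (SQF): `ip0 K K ≤ n(τ-x)r`. As `ip0 ≥ 0`: `x ≤ τ`;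
`⟨Hv A,ν⟩² = n²mt K² ≤ n²r x`. `thA2 A = Σ_α ip0(H_α,H_α)` with `k+2` terms (apply (ii) to each `e_α`). -/
def StINN : Prop := ∀ n N k : ℕ, N = n + k + 3 → 2 ≤ n →
    ∀ (A : Fin n → Fin n → EE N) (r : ℝ) (L : EE n →ₗᵢ[ℝ] EE N) (x₀ : EE N), ASp n A r L x₀ →
    ∀ τ : ℝ, (∀ c : Fin n → ℝ, ∑ i, c i ^ 2 = 1 → ‖bilV A c c + r • x₀‖ ^ 2 ≤ τ * r) →
    ∀ x : ℝ, x = YY A / (n ^ 2 * r) - 1 →
    0 ≤ x ∧ x ≤ τ ∧ thA2 A ≤ (k + 2) * (n * ((τ - x) * r)) ∧ ∀ ν, UN L x₀ ν →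
      ip0 (kn A ν) (kn A ν) ≤ n * ((τ - x) * r) ∧
      (inner ℝ (Hv A) ν : ℝ) ^ 2 / (n ^ 2 * r) ≤ x ∧
      ∀ P Q, OP P Q → bil (kn A ν) P Q ^ 2 ≤ τ * r

/-- ZBD (hSQG : StSQG). A bound for `AAH - Sq`.

Proof. `A = a + δm` (SQG), `κ = ‖m‖² = YY/n²`, `v_ml = ⟨a_ml,m⟩`, `θ = XX a = thA2 A`. Expanding,
`AAH A = n(Σ_klm⟨a_kl,a_km⟩v_ml + 2Σv_ml² + κθ + nκ²)` and `Sq A = Sq a + 2nΣv² + n²κ²`, so
`AAH - Sq = nΣ⟨a_kl,a_km⟩v_ml + nκθ - Sq a`. `|Σ⟨a_kl,a_km⟩v_ml| ≤ θ√(Σv²) ≤ θ√(κθ) ≤ θ(κ+θ)`, `|Sq a| ≤ 5θ²`: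
`|AAH - Sq| ≤ θ(2nκ + (n+5)θ) ≤ (2 + 6n C)YY θ` (`n ≥ 1`). -/
def StZBD : Prop := ∀ n N : ℕ, 1 ≤ n → ∀ A : Fin n → Fin n → EE N, SymV A → ∀ C : ℝ, 1 ≤ C →
    thA2 A ≤ C * YY A →
    0 ≤ thA2 A ∧ |AAH A - Sq A| ≤ (2 + 6 * n * C) * (YY A * thA2 A) ∧
    Sq A - ZZ A / n ≤ 10 * C * (YY A * thA2 A) ∧ XX A ≤ 2 * C * YY A

/-- PB1 (hFRM : StFRM)(hSQF : StSQF)(hSPX : StSPX)(hSQC : StSQC). The form of `P2`.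

Proof. Frame (2) of FRM, `K = kn A e_0`, `B_j` the others, `m_j = 0` for `j ≥ 1`, `m_0² = x r`, `α' = ip0 K K`,
`b' = Σ_j ip0 B_j B_j`, `θ = α' + b'`, `κ = m_0² + r = YY/n²`, `v = ip0 M M = m_0²α'`, `ZZ/YY = v/κ + nκ` (SQF), `al2 A = θ - v/κ
= b' + α'r/κ ≥ b'`. Let `F = r l(J x + P x)`: `bil K c d² + (E/n)α' ≤ F` for all `OP`s, so by SPX `cq K B_j ≤ 4F ip0 B_j B_j`;
`cq B_i B_j ≤ 4 ip0 B_i B_i ip0 B_j B_j`, `ip0(X,Y)² ≤ ip0 X X ip0 Y Y`. So `Sq - ZZ/n ≤ α'² + 2α'b' + b'² + 8Fb' + 4b'² + nv`,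
and `Sq - ZZ/n - θZZ/YY ≤ α'² + 2α'b' + 5b'² + 8Fb' + nv - θ(v/κ) - nκθ`. Here `nv - nκθ = -nκ al2` and
`θ v/κ = (α'+b')(α' - α'r/κ)`: the sum is `α'b' + 5b'² + 8Fb' + α'(α'r/κ) + b'α'r/κ - nκ al2 =
α' al2 + b'(5b' + 8F + α'r/κ) - nκ al2 ≤ al2(α' + 8F + 5b' + α'r/κ - nκ)`. Finally `α' ≤ nF` (`SPX`),
`b' ≤ (k+1)n r l V_0`, `F ≤ r l(J 0 + Kx)` (`top`), `κ = r(1+x)`, and `r/κ ≤ 1`. -/
def StPB1 : Prop := ∀ n N k : ℕ, N = n + k + 3 → ∀ p : Prf, GPr n k p →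
    ∀ (A : Fin n → Fin n → EE N) (r : ℝ) (L : EE n →ₗᵢ[ℝ] EE N) (x₀ : EE N), ASp n A r L x₀ →
    ∀ l : ℝ, 0 < l → l ≤ 1 → RgA n p l A r L x₀ → ∀ x : ℝ, x = YY A / (n ^ 2 * r) - 1 →
    0 ≤ al2 A ∧ Sq A - ZZ A / n - thA2 A * (ZZ A / YY A)
      ≤ al2 A * (r * (l * ((n + 8) * (p.J 0 + p.K * x) + 5 * (k + 1) * n * (p.J 0 + p.P x)
          + n * (p.J 0 + p.K * x) / (1 + x)) - n * (1 + x)))

/-- PB2 (hFRM : StFRM)(hFRL : StFRL)(hSQF : StSQF)(hSQC : StSQC). Convexity in the direction of `H`, `ε = 1/n`.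

Proof. Frame (2) of FRM, `K = kn A e_0`, `m_0² = x r`; replace `e_0` by `-e_0` if necessary: `m_0 = √(xr) ≥ 0`. For a unit `w`:
`⟨bilV A w w,Hv A⟩ = n(m_0K(w,w) + r) = n(m_0K°(w,w) + κ)`, `κ = m_0² + r = YY/n²`. Let `t = -K°(w,w) > 0` (else nothing to show).
Complete `w` to an orthonormal basis `w = c_1, .., c_n`: `Σ_jK°(c_j,c_j) = 0`. With `s² = r l(J x + P x) - (E/n)ip0 K K ≥
bil K c d²` for all `OP`s: `K°(c_j,c_j) + t ≤ 2s` for `j ≥ 2` (as in SPX), so `t ≤ (n-1)(2s - t)`: `s ≥ nt/(2(n-1))`, `t² ≤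
(4(n-1)²/n²)r(J 0 + Kx) ≤ (4(n-1)²/n²) r(1/2 + x/4)`. `(m_0t)² ≤ ((n-1)/n)² r² x(2 + x) ≤ ((n-1)/n)²r²(1+x)²`, so
`m_0t ≤ (1-1/n)κ`. Homogeneity for general `w`. -/
def StPB2 : Prop := ∀ n N k : ℕ, N = n + k + 3 → ∀ p : Prf, GPr n k p →
    ∀ (A : Fin n → Fin n → EE N) (r : ℝ) (L : EE n →ₗᵢ[ℝ] EE N) (x₀ : EE N), ASp n A r L x₀ →
    ∀ l : ℝ, 0 < l → l ≤ 1 → RgA n p l A r L x₀ →
    ∀ w : Fin n → ℝ, (1 / (n : ℝ)) / n * YY A * (∑ i, w i ^ 2) ≤ inner ℝ (bilV A w w) (Hv A)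

/-- PIB (hPB1 : StPB1)(hPB2 : StPB2)(hPI3 : StPI3)(hSQC : StSQC)(hSQF : StSQF). From the region to `PinB` and `PinA`.

Proof. `x = YY/(n²r) - 1 ≥ 0`, `T = thA2/(nr)`, `V_0 = J 0 + P x`, `J x + P x ≤ J 0 + Kx ≤ 1/2 + x/4`. SQC:
`(1+E)T ≤ l((1/2 + x/4) + (k+1)V_0)`. oP: `P x ≤ η x` for `x ≥ X₀(η)`, and `P` is bounded on `[0,X₀]` (continuous), so
`P x ≤ C'(1+x)`, and `θ = nrT ≤ C r(1+x) = (C/n²)YY` for all `x` and `l ≤ 1`: `th`. p1: `θ ≤ (9/10)(2(n-1)/(n(n+2)))YY` iff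
`T ≤ (9/10)(2(n-1)/(n+2))(1+x)`, the right side is `≥ (3/2)(1+x)` for `n ≥ 16`; true if `x ≥ X₀` (small `η`: `T ≤ x/4 + 1/2 +
(k+1)(1/2+ηx)`), and for all `x` if `l ≤ l₀`. p2 (PB1): the bracket is `≤ -r(1+x)(n/4)`, i.e. `≤ -(1/(4n))YY`, if
`x ≥ X₀` (`(n+8)x/4 ≤ (3/8)n x` for `n ≥ 16`, the other positive terms are `≤ C + ηC x`), or `l ≤ l₀`. p3: PB2 and PI3
with `ε = 1/n` (`θ ≤ YY` by p1). `δ` = the minimum of `1/10`, `1/(4n)`, the `δ` of PI3 (`δ < 1`). If `r ≤ R` and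
`κ₀ = max 1 (n²R(1+X₀)) ≤ YY = n²r(1+x)` then `x ≥ X₀`. -/
def StPIB : Prop := ∀ n N k : ℕ, N = n + k + 3 → ∀ p : Prf, GPr n k p →
    ∃ δ l₀ C : ℝ, 0 < δ ∧ δ < 1 ∧ 0 < l₀ ∧ 1 ≤ C ∧ ∀ R : ℝ, 0 < R → ∃ κ₀ : ℝ, 1 ≤ κ₀ ∧
    ∀ (A : Fin n → Fin n → EE N) (r : ℝ) (L : EE n →ₗᵢ[ℝ] EE N) (x₀ : EE N), ASp n A r L x₀ →
    ∀ l : ℝ, 0 < l → l ≤ 1 → RgA n p l A r L x₀ →
    (r ≤ R → PinB n κ₀ δ C A) ∧ (l ≤ l₀ → ∀ κ₁ : ℝ, PinA n κ₁ δ A)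

end Helper35.HG
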