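import Mathlib
import Pool.Agent.Helper35.HG.StA

/-!
Project HG (MP_925021_gt), module statements, part B: jets of normals, the region is preserved by the flow, pinching in
`ℝ^N`.

Every module proves `theorem hX : StX` from the listed hypotheses (any statements of PI, PI2, CL, MS, HSF, HC may be
used as well; `hG..`, `hJ..` are the jet statements of PI).  COMPLETE proofs in the docstrings; the jets of NJ0, NJ1 were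
checked numerically.  `ρ² = rr n t`, `r = 1/ρ²`.
-/

set_option autoImplicit false

namespace Helper35.HG

open Helper35.PI Helper35.PI2 Helper32.CL Helper35.MS Helper35.HSF Helper35.HC
open scoped ContDiff Manifold Topology ENNReal BigOperators
open MeasureTheory Set Filter

/-- near the centre the graph lies in the shrinking sphere -/
def SphG {n N : ℕ} (x₀ : EE N) (L : EE n →ₗᵢ[ℝ] EE N) (u : EE n × ℝ → EE N) (t₀ : ℝ) : Prop :=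
  ∀ᶠ z in 𝓝 ((0 : EE n), t₀), 0 < rr n z.2 ∧
    (inner ℝ (grf x₀ L u z.2 z.1) (grf x₀ L u z.2 z.1) : ℝ) = rr n z.2 ∧
    ∀ i, (inner ℝ (grf x₀ L u z.2 z.1) (dv1 (grf x₀ L u z.2) z.1 i) : ℝ) = 0

/-- squared length of the projection of `ν` to the normal space in the sphere, in a graph -/
noncomputable def NfG {n N : ℕ} (x₀ : EE N) (L : EE n →ₗᵢ[ℝ] EE N) (u : EE n × ℝ → EE N)
    (ν : EE N) (z : EE n × ℝ) : ℝ :=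
  1 - (∑ a, ∑ b, GIf x₀ L u a b z * (inner ℝ ν (dv1 (grf x₀ L u z.2) z.1 a)
      * inner ℝ ν (dv1 (grf x₀ L u z.2) z.1 b)))
    - inner ℝ ν (grf x₀ L u z.2 z.1) ^ 2 / rr n z.2

/-- `⟨A_ij,ν^⊥⟩`, `ν^⊥` the projection of `ν` to the normal space in the sphere -/
noncomputable def kfG {n N : ℕ} (x₀ : EE N) (L : EE n →ₗᵢ[ℝ] EE N) (u : EE n × ℝ → EE N)
    (ν : EE N) (i j : Fin n) (z : EE n × ℝ) : ℝ :=
  inner ℝ (sff (grf x₀ L u z.2) z.1 i j) ν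
    - inner ℝ ν (grf x₀ L u z.2 z.1)
      * inner ℝ (sff (grf x₀ L u z.2) z.1 i j) (grf x₀ L u z.2 z.1) / rr n z.2

/-- SPN (hG1)(hG2)(hG7)(hG8)(hG9)(hG10)(hSM)(hGH). Jets of a graph in the shrinking sphere, any codimension.

Proof. As `Helper41/HC/M_SPJ.lean` (`StSPJ`), which does not use the dimension `n+3`. `SphG`: `GCh.eq`, `SFN.sph`, `J` is open
(`IsImmJ.op`), and the derivative in `z.1` of `⟨f,f⟩ = rr n z.2`. -/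
def StSPN : Prop := ∀ (n N : ℕ), 1 ≤ n → ∀ (M : Type) [TopologicalSpace M]
    [ChartedSpace (EE n) M] [IsManifold (𝓡 n) ∞ M] (J : Set ℝ) (F : M → ℝ → EE N), SFN n J F →
    ∀ (p₀ : M) (t₀ : ℝ), t₀ ∈ J → ∀ (L : EE n →ₗᵢ[ℝ] EE N) (u : EE n × ℝ → EE N)
      (θ : EE n × ℝ → M), GCh n F p₀ t₀ L u θ →
    ∀ (A : Fin n → Fin n → EE N) (T : Fin n → Fin n → Fin n → EE N),
    A = jgg u (0, t₀) → T = jggg u (0, t₀) →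
    ASp n A (1 / rr n t₀) L (F p₀ t₀) ∧ Sym3V T ∧
    (∀ i j k, (inner ℝ (T i j k) (F p₀ t₀) : ℝ) = 0) ∧ SphG (F p₀ t₀) L u t₀ ∧
    AA (n := n) F p₀ t₀ = XX A ∧ HH (n := n) F p₀ t₀ = Hv A ∧ ZF (n := n) F p₀ t₀ = ZZ A ∧
    thN n F p₀ t₀ = thA2 A ∧ xN n F p₀ t₀ = YY A / (n ^ 2 * (1 / rr n t₀)) - 1 ∧
    0 ≤ xN n F p₀ t₀ ∧ (n : ℝ) ^ 2 ≤ rr n t₀ * ‖HH (n := n) F p₀ t₀‖ ^ 2

/-- NJ0 (hG0)(hG1)(hG2)(hG3)(hG5)(hGH)(hSM)(hNR)(hJA)(hJB). Jets of the projected normal vector.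

Proof. Near the centre `f = grf`, `f_a = ∂_af = L e_a + u_a` (G2), `⟨ν,f_a⟩ = ⟨ν,u_a⟩`, `⟨ν,f⟩ = ⟨ν,u⟩` (`ν ⟂ L, x₀`), `⟨u_ij,L e_a⟩ = 0`.
At the centre: `u_a = 0`, `GI = 1`, `∂GI = 0`, `∂_k⟨ν,u_a⟩ = K_ak`, `K = kn A ν`; `⟨ν,u⟩` has value `0`, `jg = 0` and
`jh = 0` (`jh u = 0` at the centre: `jt u = Σ_a jgg u a a` by `pde`). So up to second order: `Nf = 1 - Σ_a⟨ν,u_a⟩² - 0`,
`jg Nf = 0`, `jh Nf = 2Σ_akK_ak²` (`jh(φ²) = 2φ jh φ - 2|jg φ|²`); the term with `⟨ν,f⟩²` has vanishing value, `jg`, `jh`.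
`kf_ij`: the second term is a product with the factor `⟨ν,f⟩`: it does not contribute. `sff_ij = u_ij - ΣGI_ab⟨u_ij,f_a⟩f_b`
(`nrm`), so `⟨sff_ij,ν⟩ = ⟨u_ij,ν⟩ - ΣGI_ab⟨u_ij,u_a⟩⟨u_b,ν⟩`; the last sum has value and `jg` zero and
`jh = -2Σ_akΣ⟨A_ij,A_ak⟩K_ak`; `jh⟨u_ij,ν⟩ = ⟨jh u_ij,ν⟩`, `jh u_ij = ∂_i∂_jΣ(GI_ab - δ_ab)u_ab = Σ∂_i∂_jGI_ab A_ab =
-Σ_ab(⟨A_ai,A_bj⟩ + ⟨A_aj,A_bi⟩)A_ab` (`u` smooth, derivatives commute near the centre; `∂_i∂_jG_ab = ⟨A_ai,A_bj⟩ +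
⟨A_aj,A_bi⟩`; compare `Helper34/HC/M_JHW.lean` and the proof of G6). -/
def StNJ0 : Prop := ∀ (n N : ℕ) (x₀ : EE N) (L : EE n →ₗᵢ[ℝ] EE N) (u : EE n × ℝ → EE N)
    (t₀ : ℝ), GraphSol x₀ L u t₀ → SphG x₀ L u t₀ → ∀ ν : EE N, UN L x₀ ν →
    ∀ (A : Fin n → Fin n → EE N) (T : Fin n → Fin n → Fin n → EE N),
    A = jgg u (0, t₀) → T = jggg u (0, t₀) →
    ContDiffAt ℝ 2 (NfG x₀ L u ν) (0, t₀) ∧ NfG x₀ L u ν (0, t₀) = 1 ∧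
    (∀ k, jg (NfG x₀ L u ν) (0, t₀) k = 0) ∧
    jh (NfG x₀ L u ν) (0, t₀) = 2 * fip (kn A ν) (kn A ν) ∧
    ∀ i j, ContDiffAt ℝ 2 (kfG x₀ L u ν i j) (0, t₀) ∧ kfG x₀ L u ν i j (0, t₀) = kn A ν i j ∧
      (∀ k, jg (kfG x₀ L u ν i j) (0, t₀) k = inner ℝ (T i j k) ν) ∧
      jh (kfG x₀ L u ν i j) (0, t₀)
        = -2 * (∑ a, ∑ b, inner ℝ (A a i) (A b j) * kn A ν a b)
          + 2 * (∑ a, ∑ b, inner ℝ (A i j) (A a b) * kn A ν a b)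

/-- NJ1 (hNJ0 : StNJ0)(hG0)(hG1)(hG2)(hG5)(hJA)(hJB)(hJD). Jets of the three functions. Compare
`Helper10/HC/M_GSJ.lean` (`StGSJ`).

Proof. `K = kn A ν`, `h = tr K`, `S = SA A`; at the centre `GI = 1`, `∂GI = 0`, `jh GI_ij = 2S_ij`, `jg g = 0`,
`jh g(c,d) = -2 Sbl A c d`. Put `t = ΣGI_ijk_ij`: value `h`, `jg t k = ⟨et T k,ν⟩`, `jh t = Σ_i jh k_ii + 2ΣS_ijK_ij =
2Σ⟨Hv A,A_ab⟩K_ab` (`Σ_i⟨A_ai,A_bi⟩ = S_ab`). `χ = t²/N`: `jg χ = 2h jg t`, `jh χ = 2h jh t - 2|jg t|² - h² jh N =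
-2eqn + 2RN3`. `ΣGIGIkk`: value `|K|²`, `jh = 2ΣK_ij jh k_ij - 2tqn + 2·2ΣS_ikK_ijK_jk`; divided by `N` subtract
`|K|²·2|K|²`: it is `-2tqn + 2RNa`. `α`: subtract `χ/n`. `β`: numerator `m²`, `m = k_PQ - (b/a)k_PP` (`a = g P P`, ..): value
`κ = bil K P Q`, `jg m k = Σ P_iQ_j⟨T_ijk,ν⟩`, `jh m = jh k_PQ + 2 Sbl A P Q·bil K P P` (`jh(b/a) = -2 Sbl A P Q`, `b = 0`,
`jg b = 0`); denominator `D N`, `D = ac - b²`: value `1`, `jg = 0`, `jh = -2(Sbl A P P + Sbl A Q Q) + 2|K|²`. So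
`jh β = 2κ jh m - 2tpq + κ²(2(Sbl A P P + Sbl A Q Q) - 2|K|²)`, `jh k_PQ = -2Σ⟨Av A P a,Av A Q b⟩K_ab +
2Σ⟨bilV A P Q,A_ab⟩K_ab`: this is `-2tpq + 2RN1`. -/
def StNJ1 : Prop := ∀ (n N : ℕ) (x₀ : EE N) (L : EE n →ₗᵢ[ℝ] EE N) (u : EE n × ℝ → EE N)
    (t₀ : ℝ), GraphSol x₀ L u t₀ → SphG x₀ L u t₀ → ∀ ν : EE N, UN L x₀ ν →
    ∀ (A : Fin n → Fin n → EE N) (T : Fin n → Fin n → Fin n → EE N),
    A = jgg u (0, t₀) → T = jggg u (0, t₀) →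
    ∀ χ α : EE n × ℝ → ℝ,
    χ = (fun z => (∑ i, ∑ j, GIf x₀ L u i j z * kfG x₀ L u ν i j z) ^ 2 / NfG x₀ L u ν z) →
    α = (fun z => (∑ i, ∑ j, ∑ k, ∑ l, GIf x₀ L u i k z * GIf x₀ L u j l z
      * (kfG x₀ L u ν i j z * kfG x₀ L u ν k l z)) / NfG x₀ L u ν z - χ z / n) →
    (ContDiffAt ℝ 2 χ (0, t₀) ∧ χ (0, t₀) = (inner ℝ (Hv A) ν : ℝ) ^ 2 ∧
      (∀ k, jg χ (0, t₀) k = 2 * inner ℝ (Hv A) ν * inner ℝ (et T k) ν) ∧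
      jh χ (0, t₀) = -2 * eqn T ν + 2 * RN3 A ν ∧
      ContDiffAt ℝ 2 α (0, t₀) ∧ α (0, t₀) = ip0 (kn A ν) (kn A ν) ∧
      jh α (0, t₀) = -2 * (tqn T ν - eqn T ν / n) + 2 * RN2 A ν) ∧
    ∀ P Q : Fin n → ℝ, OP P Q →
    ∀ (g : (Fin n → ℝ) → (Fin n → ℝ) → EE n × ℝ → ℝ) (kq : (Fin n → ℝ) → (Fin n → ℝ) →
      EE n × ℝ → ℝ) (β : EE n × ℝ → ℝ),
    g = (fun c d z => inner ℝ (∑ i, c i • dv1 (grf x₀ L u z.2) z.1 i)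
      (∑ i, d i • dv1 (grf x₀ L u z.2) z.1 i)) →
    kq = (fun c d z => ∑ i, ∑ j, c i * d j * kfG x₀ L u ν i j z) →
    β = (fun z => (kq P Q z - g P Q z / g P P z * kq P P z) ^ 2
      / ((g P P z * g Q Q z - g P Q z ^ 2) * NfG x₀ L u ν z)) →
    ContDiffAt ℝ 2 β (0, t₀) ∧ β (0, t₀) = bil (kn A ν) P Q ^ 2 ∧
    jh β (0, t₀) = -2 * tpq T P Q ν + 2 * RN1 A P Q ν

/-- PBN (hGCP : StGCP)(hNJ1 : StNJ1)(hSPN : StSPN)(hFR)(hNR)(hG1)(hG2). Barriers. Compare `Helper53/HC/M_PBR.lean`.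

Proof. `z₀ ∈ PNN`: frame `C`, normal `ν`, `P', Q'`. GCP (second part): `tv C_i = Σ_aO_iaL e_a` with `O` orthogonal (`L` isometric),
`AC F p₀ t₀ C i j = Σ O_iaO_jbA_ab`. `ν` is a unit normal: `UN L (F p₀ t₀) ν` (every `L v` is in `TS`, `GCh.rg`, a `tv c`).
`P = Σ_iP'_iO_i`, `Q = Σ_iQ'_iO_i`: `OP P Q`, `bil (kn A ν) P Q = bil (kn (AC ..) ν) P' Q'`, and `ip0`, `Hv` are invariant
under `O`. `β, α, χ` of NJ1. Membership: for `z` near the centre `NfG z > 0`, `LI` holds; FR: a matrix `Π` with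
`GI = ΠΠᵀ`, `ΠᵀGΠ = 1`. GCP (first part; linear in `U`, or apply it to columns): coordinates `C_a` at `θ z` with
`tv C_a = ΣΠ_iaf_i`, `Ab C_a C_b = ΣΠ_iaΠ_jb sff_ij` (for the pair `(a,b)` the coordinates are unique by injectivity of
`tv`, `IsImmJ.imm`). `ν(z) = (ν - ΣGI_ab⟨ν,f_a⟩f_b - (⟨ν,f⟩/rr)f)/√Nf` (`f = grf(z) = F (θ z) z.2 ⟂ f_a`: SphG) is a
unit vector orthogonal to `f` and all `f_a`, so `NFr n F (θ z) z.2 C ν(z)` and `⟨Ab C_a C_b,ν(z)⟩ = ΣΠ_iaΠ_jb kf_ij/√Nf`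
(`sff ⟂ f_a`, NR). FR: `Σ_ab⟨..⟩² = ΣGIGIkk/Nf`, the trace is `ΣGI_ijk_ij/√Nf`: `α z`, `χ z`. For `β`: the vectors
`U = P/√a`, `W = (Q - (b/a)P)/√(c - b²/a)` are orthonormal for `g(z)`; `P_z = Π^(-1)U`, `Q_z = Π^(-1)W` is an `OP` and
`bil .. P_z Q_z² = β z`. Second part: `C_i` with `tv C_i = L e_i` (GCP third part): `AC F p₀ t₀ C = A`. -/
def StPBN : Prop := ∀ (n N : ℕ), 1 ≤ n → ∀ (M : Type) [TopologicalSpace M]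
    [ChartedSpace (EE n) M] [IsManifold (𝓡 n) ∞ M] (J : Set ℝ) (F : M → ℝ → EE N), SFN n J F →
    ∀ (p₀ : M) (t₀ : ℝ), t₀ ∈ J → ∀ (L : EE n →ₗᵢ[ℝ] EE N) (u : EE n × ℝ → EE N)
      (θ : EE n × ℝ → M), GCh n F p₀ t₀ L u θ →
    ∀ (A : Fin n → Fin n → EE N) (T : Fin n → Fin n → Fin n → EE N),
    A = jgg u (0, t₀) → T = jggg u (0, t₀) →
    (∀ z₀ ∈ PNN n F p₀ t₀, ∃ (P Q : Fin n → ℝ) (ν : EE N) (β α χ : EE n × ℝ → ℝ), OP P Q ∧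
      UN L (F p₀ t₀) ν ∧ z₀ = (bil (kn A ν) P Q ^ 2, ip0 (kn A ν) (kn A ν),
        (inner ℝ (Hv A) ν : ℝ) ^ 2) ∧
      ContDiffAt ℝ 2 β (0, t₀) ∧ ContDiffAt ℝ 2 α (0, t₀) ∧ ContDiffAt ℝ 2 χ (0, t₀) ∧
      (β (0, t₀), α (0, t₀), χ (0, t₀)) = z₀ ∧
      (∀ᶠ z in 𝓝 ((0 : EE n), t₀), (β z, α z, χ z) ∈ PNN n F (θ z) z.2) ∧
      jh β (0, t₀) = -2 * tpq T P Q ν + 2 * RN1 A P Q ν ∧
      jh α (0, t₀) = -2 * (tqn T ν - eqn T ν / n) + 2 * RN2 A ν ∧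
      jh χ (0, t₀) = -2 * eqn T ν + 2 * RN3 A ν ∧
      ∀ k, jg χ (0, t₀) k = 2 * inner ℝ (Hv A) ν * inner ℝ (et T k) ν) ∧
    ∀ (P Q : Fin n → ℝ) (ν : EE N), OP P Q → UN L (F p₀ t₀) ν →
      (bil (kn A ν) P Q ^ 2, ip0 (kn A ν) (kn A ν), (inner ℝ (Hv A) ν : ℝ) ^ 2)
        ∈ PNN n F p₀ t₀

/-- CHR (hJA). Chain rule for jets. Compare `gx_jet` in `Helper61/HC/M_TPR.lean`.

Proof. Near `z`: `fderiv (ψ∘φ) = ψ'(φ) • fderiv φ` (`d1` holds near `φ z`, `φ` is continuous), so `jg (ψ∘φ) k = ψ'(φ) jg φ k`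
near `z`, `jt (ψ∘φ) = ψ'(φ) jt φ`, and `jgg (ψ∘φ) k k = ψ''(φ)(jg φ k)² + ψ'(φ) jgg φ k k` at `z`. -/
def StCHR : Prop := ∀ (n : ℕ) (z : EE n × ℝ) (ψ ψ' ψ'' : ℝ → ℝ) (φ : EE n × ℝ → ℝ),
    ContDiffAt ℝ 2 φ z → C2J ψ ψ' ψ'' (φ z) →
    ContDiffAt ℝ 2 (fun z => ψ (φ z)) z ∧
    (∀ k, jg (fun z => ψ (φ z)) z k = ψ' (φ z) * jg φ z k) ∧
    jh (fun z => ψ (φ z)) z = ψ' (φ z) * jh φ z - ψ'' (φ z) * ∑ k, jg φ z k ^ 2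

/-- NTR (hPBN : StPBN)(hSPN : StSPN)(hTPN : StTPN)(hCHR : StCHR)(hGCH : StGCH)(hG7)(hG8)(hMP)(hJA)(hJB)(hC1). No touching.
Compare `Helper61/HC/M_TPR.lean`.

Proof. `L` (C1), chart `u, θ` (GCH), `A, T`, `r = 1/rr n t₀`, `l = lam t₀`. Suppose `RgF ≤ 0` near `(x₀,t₀)` for times `≤ t₀`. At the
point itself, with the second part of PBN (and SPN for `xN`, `thN`): `RgA n p l A r L (F x₀ t₀)`. PBN for `z₀`: `P, Q, ν, β, α, χ`.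
`Φ z = rr n z.2 (β z + (E/n)α z) + lam z.2 (e(x) rr n z.2 θ̂/n - J(rr n z.2 χ z/n²) - P(x))`, where near the centre
`x = xN (θ z) z.2 = rr n z.2 Yf z/n² - 1`, `θ̂ = thN (θ z) z.2 = Xf z - Yf z/n` (`GCh.hH`); it is `RgF .. (θ z) z.2 (β z, α z, χ z)`,
`C²` (CHR; `x ≥ 0` and `X = rr χ/n² ≥ 0` at the centre), `Φ(0,t₀) = 0` and `Φ ≤ 0` for `z` near, `z.2 ≤ t₀` (`GCh.ct`, membership).
MP: `0 ≤ jh Φ`. Product rule (JB), CHR: `jh(rr β) = rr jh β - 2nβ` etc., `jh Xf = hX`, `jh Yf = hY`, `jg Xf = gX`, `jg Yf = gY`;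
with `T = θ = thA2 A/(nr)` the value of `e`-part factor: `jh(e(x)·rr θ̂/n) = e(x)(rr(hX - hY/n)/n - 2θ̂) + (rr θ̂/n)(e1 hx - e2 sx)
- 2 e1 cx`. So `jh Φ` is the left side of TPN plus `lam'(e(x)θ - J X - P x)`. As `0 ≤ J X + P x - e(x)θ ≤ J X + P x =: V`
(it is `(κ² + (E/n)α)/(r l) ≥ 0`) and `V > 0`: `jh Φ ≤ -(n/50)r l V + max(0,-lam')V < 0`. Contradiction. -/
def StNTR : Prop := ∀ (n N k : ℕ), N = n + k + 3 → ∀ p : Prf, GPr n k p →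
    ∀ (M : Type) [TopologicalSpace M] [ChartedSpace (EE n) M]
    [IsManifold (𝓡 n) ∞ M] (J : Set ℝ) (F : M → ℝ → EE N), SFN n J F →
    ∀ (x₀ : M) (t₀ : ℝ), t₀ ∈ J → ∀ (lam : ℝ → ℝ) (lam' : ℝ), ContDiffAt ℝ 2 lam t₀ →
    HasDerivAt lam lam' t₀ → 0 < lam t₀ → lam t₀ ≤ 1 → -(n / 50) * (lam t₀ / rr n t₀) < lam' →
    ∀ z₀ ∈ PNN n F x₀ t₀, RgF n p (lam t₀) F x₀ t₀ z₀ = 0 →
    ¬ (∀ᶠ q : M × ℝ in 𝓝 (x₀, t₀), q.2 ≤ t₀ → ∀ z ∈ PNN n F q.1 q.2,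
      RgF n p (lam q.2) F q.1 q.2 z ≤ 0)

/-- CPN (hI2J)(hI3J)(hI4J)(hSM)(hFR)(hNR). The values form a compact set and are continuous in time. Compare
`Helper2/HC/M_CPP.lean` (`StCPP`).

Proof. (1) A sequence `(q_j,t_j,z_j)`, `z_j ∈ PNN` with `C_j, ν_j, P_j, Q_j`: pass to `q_j → q`, `t_j → t`, `ν_j → ν`, `P_j → P`,
`Q_j → Q` (compact: `‖ν‖ = 1`, `OP`). In the chart at `q` the tangent vectors `tv C_j i` have coordinates which are bounded (the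
Gram matrix converges to a positive definite one, compare CPP), so they converge for a subsequence; the limit gives a
frame `C` at `(q,t)` (orthonormality, `⟨ν,tv c⟩ = 0`, `⟨ν,F⟩ = 0` pass to the limit) and `z_j → z ∈ PNN`. (2) `q` fixed:
Gram-Schmidt of the constant coordinates `C i` for `gb F q s` gives continuous orthonormal `C(s)`; `ν(s)` = the
normalised projection of `ν` to the orthogonal complement of `TS F q s ⊕ ℝF q s` (`F ⟂ TS`: derivative of `‖F‖² = rr`;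
`‖F‖² = rr > 0`), continuous in `s`; `w s` = the values with the same `P, Q`. -/
def StCPN : Prop := ∀ (n N : ℕ) (M : Type) [TopologicalSpace M] [T2Space M] [CompactSpace M]
    [ChartedSpace (EE n) M] [IsManifold (𝓡 n) ∞ M] (J : Set ℝ) (F : M → ℝ → EE N),
    SFN n J F →
    (∀ t₁ t₂ : ℝ, Icc t₁ t₂ ⊆ J → IsCompact {p : (M × ℝ) × (ℝ × ℝ × ℝ) |
      p.1.2 ∈ Icc t₁ t₂ ∧ p.2 ∈ PNN n F p.1.1 p.1.2}) ∧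
    ∀ q, ∀ t₀ ∈ J, ∀ z ∈ PNN n F q t₀, ∃ w : ℝ → ℝ × ℝ × ℝ, ContinuousAt w t₀ ∧ w t₀ = z ∧
      ∀ᶠ s in 𝓝 t₀, w s ∈ PNN n F q s

/-- PRN (hNTR : StNTR)(hCPN : StCPN)(hSMF : StSMF)(hSPN : StSPN)(hGCH)(hC1). The region is preserved. Compare
`Helper47/HC/M_PRG.lean`.

Proof. `λ(t) = l₁(rr n t/rr n t₁)^(1/200)`, `λ' = -(n/100)λ/rr > -(n/50)λ/rr`, `0 < λ ≤ l₁ < 1`. `xN ≥ 0` (SPN), `rr z.2.2/n² ≥ 0` on
`PNN`; `RgF` is continuous in `(q,t,z)` there (`J, P, e` are continuous on `[0,∞)`, C2J; SMF). If the claim fails, the compact set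
(CPN) of all `(q,t,z)`, `t ∈ [t₁,t₂]`, `z ∈ PNN n F q t`, `RgF n p (λ t) F q t z ≥ 0` has a minimal time `t₀ > t₁`; for `t < t₀`
`RgF < 0`, and by the second part of CPN `RgF ≤ 0` at `t₀`. So `RgF = 0` at a point of time `t₀`: contradiction to NTR. -/
def StPRN : Prop := ∀ (n N k : ℕ), N = n + k + 3 → ∀ p : Prf, GPr n k p →
    ∀ (M : Type) [TopologicalSpace M] [T2Space M] [CompactSpace M] [ChartedSpace (EE n) M]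
    [IsManifold (𝓡 n) ∞ M] (J : Set ℝ) (F : M → ℝ → EE N), SFN n J F →
    ∀ t₁ t₂ : ℝ, t₁ ≤ t₂ → Icc t₁ t₂ ⊆ J → ∀ l₁ : ℝ, 0 < l₁ → l₁ < 1 → RgP n p l₁ F t₁ →
    ∀ t ∈ Icc t₁ t₂, RgP n p (l₁ * (rr n t / rr n t₁) ^ (1 / 200 : ℝ)) F t

/-- RPN (hPRN : StPRN)(hPIB : StPIB)(hPBN : StPBN)(hSPN : StSPN)(hZBD : StZBD)(hGCH)(hC1). Pinching in `ℝ^N`. Compare
`Helper2/HC/M_RPD.lean`.

Proof. PRN on `[t₁,t]`: `RgP` with `λ(t) = l₁(rr n t/rr n t₁)^(1/200) ≤ l₁ < 1` for all `t ∈ [t₁,T)`. For any chart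
`GCh n F q t L u θ`, `A = jgg u (0,t)`: SPN: `ASp n A r L (F q t)`, `r = 1/rr n t`, and PBN (second part): `RgA n p (λ t) A r L (F q t)`.
PIB: `δ, l₀, C`. Case `2nT = 1`: `rr n t → 0`, `λ(t) → 0` as `t → T`: `ts` with `λ ≤ l₀` on `[ts,T)`: `PinA n 0 δ A`; `unb`:
`‖HH‖² ≥ n²/rr n t → ∞` (SPN, `M` nonempty). Case `2nT < 1`: `r ≤ R = 1/rr n T`: `PinB n κ₀ δ C A`, `ts = t₁`; `unb`: `AA = XX A ≤
2C‖HH‖²` on `[t₁,T)` (ZBD in a chart). `Y1`: `‖HH‖² ≥ n²/rr ≥ 1` (`0 < rr ≤ 1`). `T ≤ 1`. -/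
def StRPN : Prop := ∀ (n N k : ℕ), N = n + k + 3 → ∀ p : Prf, GPr n k p →
    ∀ (M : Type) [TopologicalSpace M] [T2Space M] [CompactSpace M] [Nonempty M]
    [ChartedSpace (EE n) M] [IsManifold (𝓡 n) ∞ M] (T : ℝ) (F : M → ℝ → EE N),
    SFN n (Ioo 0 T) F → 2 * n * T ≤ 1 → ∀ t₁ l₁ : ℝ, t₁ ∈ Ioo 0 T → 0 < l₁ → l₁ < 1 →
    RgP n p l₁ F t₁ →
    (2 * n * T = 1 → ∃ ts κ₀ δ : ℝ, PDat n T F ts κ₀ δ) ∧
    (2 * n * T < 1 →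
      (∀ C t₀ : ℝ, t₀ < T → ∃ t ∈ Ioo 0 T, t₀ < t ∧ ∃ q, C < AA (n := n) F q t) →
      ∃ ts κ₀ δ C : ℝ, PDaB n T F ts κ₀ δ C)

/-- INB (hINN : StINN)(hPBN : StPBN)(hPBR : StPBR)(hSPN : StSPN)(hGCH)(hC1). The region at the initial time. Compare
`Helper88/HC/M_INT.lean`.

Proof. Let `z ∈ PNN n F q t`; chart `L, u, θ` (C1, GCH), `A`, `r = 1/rr n t`. PBN: `z = (bil (kn A ν) P Q², ip0 .., ⟨Hv A,ν⟩²)`. INN: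
for unit `c`, PBR (third part): `bilV A c c + r F = An F q t c' + (1/rr)F`, `gn c' = 1`, its squared norm is `≤ τ r`. So with `x = xN`
(SPN), `X = rr z.2.2/n²`: `0 ≤ X ≤ x ≤ τ < 1/3`, `rr(z.1 + (E/n)z.2.1) ≤ τ + E(τ-x)`, `rr thN/n ≤ (k+2)(τ-x)`, `l = 1/3 + 2τ < 1`:
`RgF ≤ τ + E(τ-x) + l e(x)(k+2)(τ-x) - lV`, and `ini`: `lV ≥ l(1+E)/3 - lEx + l(k+2)e(x)(1/3-x)`. The difference
`lV - (..) ≥ (1+E)(l/3 - τ) + Ex(1-l) + l(k+2)e(x)(1/3-τ) > 0`, as `l/3 - τ = (1/3)(1/3-τ)`. -/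
def StINB : Prop := ∀ (n N k : ℕ), N = n + k + 3 → ∀ p : Prf, GPr n k p →
    ∀ (M : Type) [TopologicalSpace M] [ChartedSpace (EE n) M]
    [IsManifold (𝓡 n) ∞ M] (J : Set ℝ) (F : M → ℝ → EE N), SFN n J F →
    ∀ (t τ : ℝ), t ∈ J → τ < 1 / 3 →
    (∀ q, ∀ c : Fin n → ℝ, gn F q t c = 1 →
      rr n t * ‖An F q t c + (1 / rr n t) • F q t‖ ^ 2 ≤ τ) →
    RgP n p (1 / 3 + 2 * τ) F t

end Helper35.HG
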