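import Mathlib
import Pool.Agent.Helper35.HG.StB

/-!
Project HG (MP_925021_gt), module statements, part C: late times, when the pinching `PinA` is known only where
`|H|² ≥ κ₀` (`PDaB`).  Conclusion `StPDT`: the situation `PDat` of project HC holds for late times.

Every module proves `theorem hX : StX` from the listed hypotheses (any statements of PI, PI2, CL, MS, HSF, HC may be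
used as well; all are proved, terms `Helper35.HC.kX`, `Helper35.HSF.kX`, `Helper35.MS.jX`, `tX`).  COMPLETE proofs in the
docstrings.  Every module has a model in project HC with an existing Lean file: copy it and change the constants.
`Y = ‖HH‖²`, `θ = thN`, `e = eH = |∇^⊥H|²`, `c' = 2(n-1)/(n(n+2))`.
-/

set_option autoImplicit false

namespace Helper35.HG

open Helper35.PI Helper35.PI2 Helper32.CL Helper35.MS Helper35.HSF Helper35.HC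
open scoped ContDiff Manifold Topology ENNReal BigOperators
open MeasureTheory Set Filter

/-- `PDaB` and the estimates of part C -/
structure PD2B (n : ℕ) {N : ℕ} {M : Type} [TopologicalSpace M] [ChartedSpace (EE n) M] (T : ℝ)
    (F : M → ℝ → EE N) (ts κ₀ δ C₀ t₂ C σ Λ₀ : ℝ) : Prop where
  d : PDaB n T F ts κ₀ δ C₀
  t2 : t₂ ∈ Ioo ts T
  C1 : 1 ≤ C
  σ0 : 0 < σ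
  σ1 : σ < 1
  L1 : 1 ≤ Λ₀
  th : ∀ t₀ ∈ Ico t₂ T, ∀ Λ : ℝ, Λ₀ ≤ Λ →
    (∀ t ∈ Icc ts t₀, ∀ q, ‖HH (n := n) F q t‖ ^ 2 ≤ Λ) → ∀ q, thN n F q t₀ ≤ C * Λ ^ (1 - σ)
  eh : ∀ t₀ ∈ Ico t₂ T, ∀ Λ : ℝ, Λ₀ ≤ Λ →
    (∀ t ∈ Icc ts t₀, ∀ q, ‖HH (n := n) F q t‖ ^ 2 ≤ Λ) → ∀ q, eH n F q t₀ ≤ C * Λ ^ (2 - σ)

/-- PKB (hJPK : StJPK)(hSQG : StSQG)(hT3 : StT3). The package under the pinching `PinB`. Model: `StPKD` (HC StC,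
`Helper94/HC/M_PKD.lean`).

Proof. JPK at `(q,t)`; `PDaB.P` for its chart: `PinB n κ₀ δ C A`. As PKD: `G = tq T - eq2 T/n`, `R = Sq A - ZZ A/n`,
`Z = AAH A - Sq A`, `a = al2 A`, `w = ZZ A/YY A`; `YY A = ‖HH‖² ≥ 1`, `XX A = thA2 A + YY A/n ≤ (C+1)YY ≤ 2C YY` (`th`). SQG:
`0 ≤ thA2`, `YY/n ≤ w ≤ XX ≤ 2C YY`, `0 ≤ a = XX - w ≤ thA2`, `R ≤ 5XX thA2 ≤ 10C YY thA2`; `eq2 ≤ (n(n+2)/(2(n-1)))G`,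
`tq ≤ 4G` as in PKD; `htN eH ≤ 16n·2C YY·4G`. `Z`: with `m = Hv A/n`, `a_ij = A_ij - δ_ijm` (SQG; `Σa_ii = 0`), `κ = ‖m‖² = YY/n²`,
`v = Σ⟨a_ij,m⟩²`, `s_lm = Σ_k⟨a_kl,a_km⟩`: `Σ_k⟨A_kl,A_km⟩ = s_lm + 2⟨a_lm,m⟩ + δ_lmκ`, `zz A m l = n(⟨a_ml,m⟩ + δ_mlκ)`, so
`AAH A = n(Σs_lm⟨a_ml,m⟩ + κθ + 2v + nκ²)`, `Sq A = Sq a + 2nv + n²κ²` (SQG), `Z = nΣs_lm⟨a_ml,m⟩ + nκθ - Sq a`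
(`θ = thA2 A = Σ‖a‖²`). Cauchy-Schwarz: `Σs_lm² ≤ θ²`, `|Σs_lm⟨a_ml,m⟩| ≤ θ√v ≤ θ√(κθ)`, `n√(κθ) = √(YYθ) ≤ √C YY ≤ C YY`;
`|Sq a| ≤ 5θ² ≤ 5C YYθ`: `Z ≥ -6C YYθ`. Last line: `PinB.pp` (`p1`, `p3`, `p2`), `κ₀ ≤ YY A`. -/
def StPKB : Prop := ∀ n : ℕ, 2 ≤ n → ∀ (N : ℕ) (M : Type) [TopologicalSpace M]
    [ChartedSpace (EE n) M] [IsManifold (𝓡 n) ∞ M] (T : ℝ) (F : M → ℝ → EE N)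
    (ts κ₀ δ C : ℝ), PDaB n T F ts κ₀ δ C → ∀ t ∈ Ico ts T, ∀ q, ∀ Y θ e : ℝ,
    Y = ‖HH (n := n) F q t‖ ^ 2 →
    θ = thN n F q t → e = eH n F q t → ∃ G R Z a w : ℝ, 0 ≤ G ∧ 0 ≤ a ∧ a ≤ θ ∧ 0 ≤ θ ∧
      θ ≤ C * Y ∧ 0 ≤ e ∧
      e ≤ n * (n + 2) / (2 * ((n : ℝ) - 1)) * G ∧ Y / n ≤ w ∧ w ≤ 2 * C * Y ∧
      R ≤ 10 * C * Y * θ ∧ w ≤ θ + Y / n ∧ AA (n := n) F q t = θ + Y / n ∧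
      htN n F (thN n F) q t = -2 * G + 2 * R ∧
      htN n F (fun q t => ‖HH (n := n) F q t‖ ^ 2) q t = -2 * e + 2 * w * Y ∧
      htN n F (eH n F) q t ≤ 128 * n * C * (Y * G) ∧
      dvg (n := n) F (Sd n F t) q t = 1 / 2 * lapN n F (thN n F) q t
        + (1 - 1 / (n : ℝ)) * e - G - Z ∧
      ‖Sd n F t q‖ ^ 2 ≤ θ * e ∧
      ‖gdM n F t (fun q => thN n F q t) q‖ ^ 2 ≤ 4 * θ * G ∧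
      ‖gdM n F t (fun q => ‖HH (n := n) F q t‖ ^ 2) q‖ ^ 2 ≤ 4 * Y * e ∧
      -(6 * C * Y * θ) ≤ Z ∧
      (κ₀ ≤ Y → θ ≤ (1 - δ) * (2 * ((n : ℝ) - 1) / (n * (n + 2))) * Y ∧
        δ * Y * θ - 1 / δ * Y * a ≤ Z ∧ R - θ * w ≤ -(δ * Y * a))

/-- EAB (hEA2 : StEA2). The algebraic inequality behind the `L^p` estimate for `W = Y + Λ` in place of `Y`; it follows
from EA2 (HC StD) as a black box.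

Proof. `p, μ` from EA2 (for `n, δ`); its `K` is not used. Let `E'` be the expression of EA2 with `Y := W`, and `R', Z', al', w'`
in place of `R, Z, al, w` (`a, d, s, θ, e, G, m` unchanged). Then `‖d‖² ≤ 4Ye ≤ 4We`, `θ ≤ (1-δ)c'W`, and
`E - E' = 2pθ(R-R') + 2mθ²(wY/W - w') + Λθ² - μθ(Z-Z')`. (1) If `κ ≤ Y`: `w' = w + Λ/n`, `R' = R + θΛ/n`, `al' = al·Y/W`,
`Z' = Z + δΛθ`. Hypotheses of EA2: `W/n ≤ w' ≤ 2W`, `R' ≤ 10Yθ + θΛ/n ≤ 10Wθ`, `0 ≤ al' ≤ θ`, `δWθ - (1/δ)W al' = δΛθ + δYθ -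
(1/δ)Y al ≤ Z'`, and `R' - θw' = R - θw ≤ -δY al = -δW al'`: `E' ≤ 0`. `wY/W - w' = -wΛ/W - Λ/n`, `-m ≤ p`, `w/W ≤ 2`:
`E - E' ≤ θ²Λ(2p(2+1/n) + 1 + μδ)`. (2) If `Y < κ`: `w' = W/n`, `R' = θw'`, `al' = 0`, `Z' = δWθ`: all hypotheses hold,
`R' - θw' = 0`, `E' ≤ 0`. `2pθR ≤ 20pCκθ²`, `-2pθR' ≤ 0`, `2mθ²wY/W ≤ 0` (`m ≤ 0`, `w ≥ 0`), `-2mθ²w' ≤ 2pθ²W/n`,
`-μθZ ≤ 6μCκθ²`, `μθZ' = μδWθ²`, `W ≤ κ + Λ`. `K` = the sum of all these constants. -/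
def StEAB : Prop := ∀ (n : ℕ) (δ : ℝ), 2 ≤ n → 0 < δ → δ < 1 → ∃ (p : ℕ) (μ : ℝ), n < p ∧
    3 ≤ p ∧ 0 < μ ∧ ∀ C κ Λ : ℝ, 1 ≤ C → 0 ≤ κ → 0 ≤ Λ → ∃ K : ℝ, 0 ≤ K ∧
    ∀ (V : Type) [NormedAddCommGroup V] [InnerProductSpace ℝ V]
      (a d s : V) (θ Y W e G R Z al w m : ℝ), 0 ≤ θ → 0 < Y → W = Y + Λ → 0 ≤ e → 0 ≤ G →
      0 ≤ al → al ≤ θ → θ ≤ (1 - δ) * (2 * ((n : ℝ) - 1) / (n * (n + 2))) * W →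
      e ≤ n * (n + 2) / (2 * ((n : ℝ) - 1)) * G → ‖s‖ ^ 2 ≤ θ * e → ‖a‖ ^ 2 ≤ 4 * θ * G →
      ‖d‖ ^ 2 ≤ 4 * Y * e → Y / n ≤ w → w ≤ 2 * C * Y → R ≤ 10 * C * Y * θ →
      -(6 * C * Y * θ) ≤ Z →
      (κ ≤ Y → w ≤ 2 * Y ∧ R ≤ 10 * Y * θ ∧ δ * Y * θ - 1 / δ * Y * al ≤ Z ∧
        R - θ * w ≤ -(δ * Y * al)) → m = n - p → ∀ E : ℝ,
      E = p * θ * (-2 * G + 2 * R) - p * (p - 1) * ‖a‖ ^ 2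
        + θ ^ 2 * (m / W) * (-2 * e + 2 * w * Y) - m * (m - 1) * θ ^ 2 * ‖d‖ ^ 2 / W ^ 2
        - 2 * p * m * θ * inner ℝ a d / W - Y * θ ^ 2
        + μ * θ * ((1 - 1 / (n : ℝ)) * e - G - Z)
        + μ * inner ℝ (((p : ℝ) - 1) • a + (m * θ / W) • d) (s - (1 / 2 : ℝ) • a) →
      E ≤ K * θ ^ 2

/-- LPB (hEAB : StEAB)(hPKB : StPKB)(hJPK : StJPK)(hEPW : StEPW)(hHTR : StHTR)(hTDJ : StTDJ)(hFVJ : StFVJ)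
(hPRJ : StPRJ)(hMUJ)(hSMR : StSMR)(hSMF)(hI4J). The integral `∫ θ^p (Y+Λ)^(n-p)` is bounded. Model: `StLPH` (HC StD,
`Helper5/HC/M_LPH.lean`); everywhere `Y^m` is replaced by `W^m`, `W = Y + Λ`.

Proof. `c' = 2(n-1)/(n(n+2))`, `Λ = Cκ₀/((1-δ)c')`. PKB: `θ ≤ (1-δ)c'W` everywhere (`Y ≥ κ₀`: PKB; `Y < κ₀`: `θ ≤ CY ≤ Cκ₀`). For
`κ₀ ≤ Y`: `θ ≤ c'Y`, `c' + 1/n ≤ 2`, so `w ≤ θ + Y/n ≤ 2Y` and `R ≤ θw ≤ 2Yθ`. EAB with `C, κ = κ₀, Λ`: `p, μ, K`; `m = n - p`;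
`Φ = θ^p W^m`, `w₀ = θ^(p-1) W^m`, `X = Sd - ½∇θ` (`C¹`, `⟨HH,X⟩ = 0`), `V = ∇Φ - μw₀X`. `∇W = ∇Y = d`, `htN W = htN Y` (a constant
is added; HTR or directly). For `t ∈ [ts,T)`, `a = ∇θ`, `s = Sd`:
`htN Φ = W^m(pθ^(p-1)htN θ - p(p-1)θ^(p-2)|a|²) + θ^p(mW^(m-1)htN Y - m(m-1)W^(m-2)|d|²) - 2pmθ^(p-1)W^(m-1)⟨a,d⟩`,
`dvg(w₀X) = w₀ dvg X + ⟨∇w₀,X⟩`, `dvg X = (1-1/n)e - G - Z`, `∇w₀ = (p-1)θ^(p-2)W^m a + mθ^(p-1)W^(m-1)d`, so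
`htN Φ - YΦ + μ dvg(w₀X) = θ^(p-2)W^m·E ≤ KΦ` (EAB). So `∂_tΦ - YΦ ≤ dvg V + KΦ`; the derivative of `I(t) = ∫Φ dμ_t` is
`≤ KI` on `[ts,T)` (TDJ, FVJ, `∫(dvg V + ⟨HH,V⟩) = 0`): `I(t) ≤ I(ts)exp(K(t-ts))`, `T ≤ 1`. -/
def StLPB : Prop := ∀ (n : ℕ), 2 ≤ n → ∀ (N : ℕ) (M : Type) [TopologicalSpace M] [T2Space M]
    [CompactSpace M] [MeasurableSpace M] [BorelSpace M] [ChartedSpace (EE n) M]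
    [IsManifold (𝓡 n) ∞ M] (T : ℝ) (F : M → ℝ → EE N) (ts κ₀ δ C₀ : ℝ) (c : ℕ → M)
    (χ : ℕ → M → ℝ), PU n c χ → PDaB n T F ts κ₀ δ C₀ →
    ∃ p : ℕ, n < p ∧ 3 ≤ p ∧ ∃ Λ C : ℝ, 0 ≤ Λ ∧ ∀ t ∈ Ico ts T,
      ∫ q, thN n F q t ^ p * (‖HH (n := n) F q t‖ ^ 2 + Λ) ^ ((n : ℝ) - p) ∂muM n F c χ t ≤ C

/-- THB (hLPB : StLPB)(hMVN : StMVN)(hPKB : StPKB)(hHTR : StHTR)(hMUJ)(hV5)(hSMF). Decay of `θ` relative to the maximum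
of `Y`. Model: `StTHL` (HC StD, `Helper78/HC/M_THL.lean`).

Proof. `M` with its Borel sets and a partition of unity (V5). `p, Λ', C₁` from LPB, `C₁ ≥ 1`. `u = θ^p`:
`htN u = pθ^(p-1)htN θ - p(p-1)θ^(p-2)|∇θ|² ≤ 2pθ^(p-1)R ≤ 20pC₀Yθ^p` (HTR with `ψ(x) = x^p`, PKB). `t₂ = (ts+T)/2`,
`Λ₀ = max (max 1 Λ') (1/(t₂-ts))`. Let `t₀ ∈ [t₂,T)`, `Λ ≥ Λ₀`, `Y ≤ Λ` on `[ts,t₀]`, `t₁ = t₀ - 1/Λ ≥ ts`. MVN on `[t₁,t₀]`,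
`κ = 20pC₀Λ`, `κ(t₀-t₁) = 20pC₀`: `θ(q,t₀)^p ≤ Cn e^(20pC₀) Λ^(n/2) ∫θ^p dμ_{t₁}` (the exponential is `≤ 1`, as in THL), and
`θ^p = (θ^pW^(n-p))W^(p-n) ≤ (θ^pW^(n-p))(2Λ)^(p-n)`, `W = Y + Λ' ≤ 2Λ`. So `θ^p ≤ C₂Λ^(p-n/2)`, `θ ≤ C₃Λ^(1-σ)`,
`σ = n/(2p) < 1/2`. -/
def StTHB : Prop := ∀ (n : ℕ), 2 ≤ n → ∀ (N : ℕ) (M : Type) [TopologicalSpace M] [T2Space M]
    [CompactSpace M] [Nonempty M] [ChartedSpace (EE n) M]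
    [IsManifold (𝓡 n) ∞ M] (T : ℝ) (F : M → ℝ → EE N) (ts κ₀ δ C₀ : ℝ),
    PDaB n T F ts κ₀ δ C₀ →
    ∃ t₂ C σ Λ₀ : ℝ, t₂ ∈ Ioo ts T ∧ 1 ≤ C ∧ 0 < σ ∧ σ < 1 ∧ 1 ≤ Λ₀ ∧
    ∀ t₀ ∈ Ico t₂ T, ∀ Λ : ℝ, Λ₀ ≤ Λ →
    (∀ t ∈ Icc ts t₀, ∀ q, ‖HH (n := n) F q t‖ ^ 2 ≤ Λ) → ∀ q, thN n F q t₀ ≤ C * Λ ^ (1 - σ)

/-- GRC (hTHB : StTHB)(hPKB : StPKB)(hFZP : StFZP)(hHTR : StHTR)(hHSM : StHSM)(hSMF). Decay of `|∇^⊥H|²`. Model: `StGRB`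
(HC StD, `Helper22/HC/M_GRB.lean`).

Proof. `t₂', C, σ, Λ₀'` from THB; `t₂ = (t₂'+T)/2`, `Λ₀ = max Λ₀' (1/(t₂-t₂'))`. Let `t₀ ∈ [t₂,T)`, `Λ ≥ Λ₀`, `Y ≤ Λ` on
`[ts,t₀]`, `t₁ = t₀ - 1/Λ ≥ t₂'`. THB at every `t ∈ [t₁,t₀]`: `θ(·,t) ≤ b := CΛ^(1-σ)`. `K₁ = 65nC₀`, `B = 20C₀K₁Λb`. FZP on
`[t₁,t₀]` for `u = (t-t₁)e + K₁θ - K₁b - η - (B+η)(t-t₁)`, `η > 0`: `u(·,t₁) < 0`; everywhere on `[t₁,t₀]`, PKB: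
`htN u ≤ e + (t-t₁)·128nC₀YG + K₁(-2G + 2R) - B - η ≤ 2nG + 128nC₀G - 130nC₀G + 20C₀K₁Λb - B - η < 0`
(`e ≤ 2nG`, `(t-t₁)Y ≤ 1`, `G ≥ 0`, `C₀ ≥ 1`, `2R ≤ 20C₀Yθ ≤ 20C₀Λb`). So at `t₀`: `e/Λ ≤ K₁b + η + (B+η)/Λ`, and `η → 0`:
`e ≤ Λ(K₁b + 20C₀K₁b) ≤ 21C₀K₁CΛ^(2-σ)`. -/
def StGRC : Prop := ∀ (n : ℕ), 2 ≤ n → ∀ (N : ℕ) (M : Type) [TopologicalSpace M] [T2Space M]
    [CompactSpace M] [Nonempty M] [ChartedSpace (EE n) M]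
    [IsManifold (𝓡 n) ∞ M] (T : ℝ) (F : M → ℝ → EE N) (ts κ₀ δ C₀ : ℝ),
    PDaB n T F ts κ₀ δ C₀ → ∃ t₂ C σ Λ₀ : ℝ, PD2B n T F ts κ₀ δ C₀ t₂ C σ Λ₀

/-- MNB (hPKB : StPKB)(hFZP : StFZP)(hHTR : StHTR)(hSMF)(hI4J). Minimum principle for `Z̃ = ZT`. Model: `StMNP`
(HC StF, `Helper34/HC/M_MNP.lean`); the proof is the same (PKB for PKD).

Proof. `K₂ = n(n+2)/(2(n-1))`. PKB: `htN Z̃ = -2e + 2wY - K₂(-2G + 2R) ≥ 2(wY - K₂R)` (`e ≤ K₂G`). Where `Y ≥ κ₀`: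
`R ≤ θw - δYa ≤ θw`, so `wY - K₂R ≥ wZ̃ ≥ (Y/n)Z̃`, and if `Z̃ > 0` this is `≥ Z̃²/n` (`Y ≥ Z̃` as `θ ≥ 0`). The rest (barrier
`y(t)` with `y ≥ (1-η)z₀ > κ₀`, where `u = y - Z̃ = 0`: `Y ≥ Z̃ = y > κ₀`) word for word as MNP. -/
def StMNB : Prop := ∀ (n : ℕ), 2 ≤ n → ∀ (N : ℕ) (M : Type) [TopologicalSpace M] [T2Space M]
    [CompactSpace M] [Nonempty M] [ChartedSpace (EE n) M] [IsManifold (𝓡 n) ∞ M]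
    (T : ℝ) (F : M → ℝ → EE N) (ts κ₀ δ C₀ : ℝ), PDaB n T F ts κ₀ δ C₀ →
    ∀ t₀ ∈ Ico ts T, ∀ z₀ : ℝ, 0 < z₀ → κ₀ < z₀ → (∀ q, z₀ ≤ ZT n F q t₀) →
    2 / n * (z₀ * (T - t₀)) ≤ 1 ∧ ∀ t ∈ Ico t₀ T, ∀ q, z₀ ≤ ZT n F q t

/-- RCB (hSPF : StSPF)(hPKB : StPKB). Record times. Model: `StRCM` (HC StF, `Helper3/HC/M_RCM.lean`); the proof is the
same (PD2B for PD2, PKB for PKD: only `0 ≤ θ`, `0 ≤ e`, `HH ≠ 0` are used).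

Proof. Let `l = √Λ/n`, `‖HH q₀‖ = √Λ = n l`, `‖HH q‖ ≤ n l`. PD2B with `Λ`: `θ ≤ CΛ^(1-σ)`, `e ≤ CΛ^(2-σ)`.
`ε = √C n² Λ^(-σ/2)`: `ε²l² = Cn²Λ^(1-σ) ≥ θ`, `ε²l⁴ = CΛ^(2-σ) ≥ e`. So `SLd n (Ioo 0 T) F t₀ l ε q₀` (`HH ≠ 0` by
`PDaB.Y1`). `δ' = √(36(N+1)ε) ≤ 1/20` for `Λ ≥ Λ₁`. SPF: `‖HH‖ ≥ (1-δ')√Λ`, `Y ≥ (1-2δ')Λ`.
`K₂θ ≤ K₂CΛ^(1-σ) ≤ K₂CΛ^(1-σ/4)`. `σ' = σ/4`, `C' = 12√(N+1) C^(1/4) n + K₂C`. -/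
def StRCB : Prop := ∀ (n : ℕ), 2 ≤ n → ∀ (N : ℕ) (M : Type) [TopologicalSpace M] [T2Space M]
    [CompactSpace M] [ConnectedSpace M] [ChartedSpace (EE n) M] [IsManifold (𝓡 n) ∞ M]
    (T : ℝ) (F : M → ℝ → EE N) (ts κ₀ δ C₀ t₂ C σ Λ₀ : ℝ),
    PD2B n T F ts κ₀ δ C₀ t₂ C σ Λ₀ →
    ∃ C' σ' Λ₁ : ℝ, 0 < C' ∧ 0 < σ' ∧ σ' ≤ σ ∧ Λ₀ ≤ Λ₁ ∧
    (∀ Λ : ℝ, Λ₁ ≤ Λ → C' * Λ ^ (-σ') ≤ 1 / 2) ∧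
    ∀ t₀ ∈ Ico t₂ T, ∀ (q₀ : M) (Λ : ℝ), Λ = ‖HH (n := n) F q₀ t₀‖ ^ 2 → Λ₁ ≤ Λ →
      (∀ t ∈ Icc ts t₀, ∀ q, ‖HH (n := n) F q t‖ ^ 2 ≤ Λ) →
      ∀ q, (1 - C' * Λ ^ (-σ')) * Λ ≤ ZT n F q t₀

/-- PDT (hGRC : StGRC)(hRCB : StRCB)(hMNB : StMNB)(hPKB : StPKB)(hSMF)(hI4J). Late times: `PDat`. Model: the first half of
`StCMP` (HC StF, `Helper62/HC/M_CMP.lean`).

Proof. GRC, RCB: `C', σ', Λ₁`; enlarge `Λ₁` such that `Λ₁ > 2κ₀ + 2`. Let `B` be the maximum of `Y` on `M × [ts,t₂]` (compact).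
`unb`: `Y(q,t') > max B Λ₁` for some `t' ∈ (t₂,T)`. `(q*,t*)`: a maximum point of `Y` on `M × [ts,t']`, so `t* > t₂`,
`Λ = Y(q*,t*) ≥ Λ₁`, `Y ≤ Λ` on `[ts,t*]`. RCB at `t*`: `Z̃(·,t*) ≥ z₀ = (1 - C'Λ^(-σ'))Λ ≥ Λ/2 > κ₀ > 0`. MNB from `t*`:
`Z̃(·,t) ≥ z₀` for `t ∈ [t*,T)`, so `Y ≥ Z̃ > κ₀` there (`θ ≥ 0`, PKB). `ts' = t*`: the field `P` of `PDat` is `PinB.pp` (`YY (jgg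
u (0,t)) = ‖HH‖²` in a chart: `GCh.hH` and G8, as in the proof of PKB/JPK), the others are those of `PDaB`. -/
def StPDT : Prop := ∀ (n : ℕ), 2 ≤ n → ∀ (N : ℕ) (M : Type) [TopologicalSpace M] [T2Space M]
    [CompactSpace M] [ConnectedSpace M] [ChartedSpace (EE n) M] [IsManifold (𝓡 n) ∞ M]
    (T : ℝ) (F : M → ℝ → EE N) (ts κ₀ δ C₀ : ℝ), PDaB n T F ts κ₀ δ C₀ →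
    ∃ ts', ts ≤ ts' ∧ PDat n T F ts' κ₀ δ

end Helper35.HG
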