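import Mathlib
import Pool.Agent.Helper35.HG.StC

/-!
Project HG (MP_925021_gt), module statements, part D: from flows in the unit sphere `S^(n+q)` to flows in
`ℝ^N`, `N = n + q + 1 = n + k + 3`; initial time; conclusion.

Every module proves `theorem hX : StX` from the listed hypotheses (any statements of PI, PI2, CL, MS, HSF, HC may be
used as well; all are proved).  Every module has a model in project HC with an existing Lean file: copy it and change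
`EE (n + 3)` to `EE N` and the constants.  COMPLETE proofs in the docstrings.  `rr n τ = 1 - 2nτ = e^(-2nt)`,
`τ = sgN n t`, `t = tmN n τ`, `FEN n F q τ = √(rr n τ) F(q,t)` (`Helper35/HSF/StH.lean`).
-/

set_option autoImplicit false

namespace Helper35.HG

open Helper35.PI Helper35.PI2 Helper32.CL Helper35.MS Helper35.HSF Helper35.HC
open scoped ContDiff Manifold Topology ENNReal BigOperators
open MeasureTheory Set Filter

/-- CN4 (hSCL : StSCL)(hHSN : StHSN)(hCTN : StCTN). The rescaled flow. Model: `StCN3` (HC StG, `Helper41/HC/M_CN3.lean`), `n + 3`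
replaced by `N`.

Proof. As CN3: `sgN n (tmN n τ) = τ`; `FEN n F` is smooth on `M × (0,TE)`, immersion (SCL), and
`∂_τ(r F(q,tmN τ)) = HH (FEN n F)` (`r = √(rr n τ)`; HSN and CTN for the frozen family). In a chart
`loc (FEN n F) q τ = r • loc F q t`, so `dv1`, `dv2`, `sff` are multiplied by `r`, `gram` by `r²`, `mcv` by `1/r`, `nsq` by
`1/r²`; `tv = r tv`, `An = r An`. `‖FEN‖² = r²`. -/
def StCN4 : Prop := ∀ (n N : ℕ), 1 ≤ n → ∀ (M : Type) [TopologicalSpace M]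
    [ChartedSpace (EE n) M] [IsManifold (𝓡 n) ∞ M] (F : M → ℝ → EE N) (TE : ℝ),
    0 < TE → 2 * n * TE ≤ 1 → SMCF n (ISN n TE) F →
    SFN n (Ioo 0 TE) (FEN n F) ∧
    ∀ τ ∈ Ico 0 TE, tmN n τ ∈ ISN n TE ∧ sgN n (tmN n τ) = τ ∧ 0 < rr n τ ∧ ∀ q,
      AA (n := n) (FEN n F) q τ = AA (n := n) F q (tmN n τ) / rr n τ ∧
      ‖HH (n := n) (FEN n F) q τ‖ ^ 2 = ‖HH (n := n) F q (tmN n τ)‖ ^ 2 / rr n τ ∧
      thN n (FEN n F) q τ = thN n F q (tmN n τ) / rr n τ ∧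
      ∀ c : Fin n → ℝ, gn (FEN n F) q τ c = rr n τ * gn F q (tmN n τ) c ∧
        An (FEN n F) q τ c = Real.sqrt (rr n τ) • An F q (tmN n τ) c

/-- RI4 (hCN4 : StCN4)(hP3H : StP3H)(hINB : StINB). The region at a small time. Model: `StRIN` (HC StG,
`Helper99/HC/M_RIN.lean`).

Proof. `ISN n TE` is an interval `[0,b)` or `[0,∞)` (`UniqueDiffOn`). P3H: `τ₀, δ`. `tmN` is continuous, `tmN 0 = 0`: take
`t₁ ∈ (0,TE)` with `tmN n t₁ < δ` (`0 ≤ tmN n t₁`). For `gn (FEN) q t₁ c = 1`, `r = √(rr n t₁)`, `c' = rc` has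
`gn F q t c' = r²gn F q t c = 1` (`gn`, `An` are quadratic), `An (FEN) c + (1/r²)FEN = r An F c + (1/r)F =
(1/r)(An F c' + F)`, so `r²‖..‖² ≤ τ₀`. INB: `RgP n p (1/3+2τ₀)`, `1/3 + 2τ₀ < 1`. -/
def StRI4 : Prop := ∀ (n N k : ℕ), N = n + k + 3 → ∀ p : Prf, GPr n k p →
    ∀ (M : Type) [TopologicalSpace M] [T2Space M]
    [CompactSpace M] [ChartedSpace (EE n) M] [IsManifold (𝓡 n) ∞ M] (F : M → ℝ → EE N)
    (TE : ℝ), 0 < TE → 2 * n * TE ≤ 1 → SMCF n (ISN n TE) F → Pinch3 n F 0 →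
    ∃ l₁ t₁ : ℝ, t₁ ∈ Ioo 0 TE ∧ 0 < l₁ ∧ l₁ < 1 ∧ RgP n p l₁ (FEN n F) t₁

/-- FT4 (hCN4 : StCN4)(hRI4 : StRI4)(hRPN : StRPN)(hPDT : StPDT)(hRNT : StRNT)(hHSN : StHSN)(hCTN : StCTN). Finite time, in the
sphere. Model: `StFT3` (HC StG, `Helper29/HC/M_FT3.lean`). The only changes: `EE (n+3)` becomes `EE N`, CN4 for CN3, and the
beginning: `TE = sgN n T`, `2nTE = 1 - e^(-2nT) < 1`, `ISN n TE = [0,T)`; RI4: `l₁, t₁`; RPN, second alternative (the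
unboundedness of `AA (FEN)` as in FT3; `2 ≤ n` by `GPr.n16`): `PDaB n TE (FEN n F) ts κ₀ δ C`; PDT: `PDat n TE (FEN n F) ts' κ₀ δ`;
then RNT and the rest word for word as in FT3. -/
def StFT4 : Prop := ∀ (n N k : ℕ), N = n + k + 3 → ∀ p : Prf, GPr n k p →
    ∀ (M : Type) [TopologicalSpace M] [T2Space M]
    [CompactSpace M] [ConnectedSpace M] [ChartedSpace (EE n) M] [IsManifold (𝓡 n) ∞ M]
    (F : M → ℝ → EE N) (T : ℝ), 0 < T → SMCF n (Ico 0 T) F → Pinch3 n F 0 →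
    (∀ C : ℝ, ∃ t ∈ Ico 0 T, ∃ q, C < hS2 (n := n) F q t) →
    Nonempty (M ≃ₘ⟮𝓡 n, 𝓡 n⟯ (Metric.sphere (0 : EE (n + 1)) 1)) ∧
    ∃ (x : EE N) (G : M → EE N) (L : EE (n + 1) →ₗᵢ[ℝ] EE N) (C α ts : ℝ),
      ‖x‖ = 1 ∧ Continuous G ∧ range G = L '' Metric.sphere (0 : EE (n + 1)) 1 ∧ 0 < α ∧
      ts ∈ Ico 0 T ∧
      ∀ t ∈ Ico ts T, Function.Injective (fun q => F q t) ∧ ∀ q,
        ‖(1 / Real.sqrt (2 * n * (T - t))) • (F q t - x) - G q‖ ≤ C * (T - t) ^ α ∧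
        (T - t) * (hS2 (n := n) F q t - ‖HS (n := n) F q t‖ ^ 2 / n) ≤ C * (T - t) ^ α ∧
        |2 / n * ((T - t) * ‖HS (n := n) F q t‖ ^ 2) - 1| ≤ C * (T - t) ^ α

/-- IT4 (hCN4 : StCN4)(hRI4 : StRI4)(hRPN : StRPN)(hRNT : StRNT)(hHSN : StHSN)(hCTN : StCTN). Infinite time, in the sphere.
Model: `StIT3` (HC StG, `Helper91/HC/M_IT3.lean`). The only changes: `EE (n+3)` becomes `EE N`, CN4 for CN3, and RI4, RPN (first
alternative, `2nTE = 1`, `TE = 1/(2n)`) for RIN, RPD. -/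
def StIT4 : Prop := ∀ (n N k : ℕ), N = n + k + 3 → ∀ p : Prf, GPr n k p →
    ∀ (M : Type) [TopologicalSpace M] [T2Space M]
    [CompactSpace M] [ConnectedSpace M] [ChartedSpace (EE n) M] [IsManifold (𝓡 n) ∞ M]
    (F : M → ℝ → EE N), SMCF n (Ici 0) F → Pinch3 n F 0 →
    Nonempty (M ≃ₘ⟮𝓡 n, 𝓡 n⟯ (Metric.sphere (0 : EE (n + 1)) 1)) ∧
    ∃ (G : M → EE N) (L : EE (n + 1) →ₗᵢ[ℝ] EE N) (C α ts : ℝ), Continuous G ∧
      range G = L '' Metric.sphere (0 : EE (n + 1)) 1 ∧ 0 < α ∧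
      (∀ t : ℝ, ts ≤ t → Function.Injective (fun q => F q t)) ∧ ∀ t : ℝ, 0 ≤ t → ∀ q,
      ‖F q t - G q‖ ≤ C * Real.exp (-α * t) ∧ hS2 (n := n) F q t ≤ C * Real.exp (-α * t)

end Helper35.HG
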