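import Mathlib

/-!
Project HG (MP_925021_gt): polynomial inequalities for the constants (Bernstein expansions; generated).
Names: `m8, m0` (variable `t = h = 1/(1+13X/4)`), `i8, i0, j8, j0, k8, k0` (`t = h`), `a.., b.., r..` (`t = u/g` or `u`).
-/

set_option autoImplicit false

namespace Helper35.HG.Poly

theorem a0 (t g : ℝ) (h1 : 0 ≤ t) (h2 : t ≤ 1) (h3 : 0 ≤ g) (h4 : g ≤ 1/6) :
    -14053/6250*g + 13709/2500*g^2 + 96499/12500*g^3 + 276/125*g^4 - 11576/1875*t +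
    16166/9375*t*g + 7711/6250*t*g^2 + 2669/2500*t*g^3 + 96499/12500*t*g^4 + 276/125*t*g^5 -
    5788/625*t^2*g + 8083/3125*t^2*g^2 + 16323/3125*t^2*g^3 - 828/125*t^2*g^4 -
    29788/1875*t^3*g^2 - 111917/9375*t^3*g^3 + 5441/3125*t^3*g^4 - 276/125*t^3*g^5 -
    32/5*t^4*g^3 - 32/5*t^4*g^4 ≤ 0 := by
  have pos : ∀ A B C D : ℝ, 0 ≤ A → 0 ≤ B → 0 ≤ C → 0 ≤ D → 0 ≤
      (9106344/3125)*B^4*C*D^4 + (32723946/3125)*B^4*C^2*D^3 + (42665283/3125)*B^4*C^3*D^2 +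
      (23542704/3125)*B^4*C^4*D + (4495023/3125)*B^4*C^5 + (30004992/625)*A*B^3*D^5 +
      (779566464/3125)*A*B^3*C*D^4 + (1602377748/3125)*A*B^3*C^2*D^3 +
      (1626389991/3125)*A*B^3*C^3*D^2 + (1626954891/6250)*A*B^3*C^4*D +
      (319833597/6250)*A*B^3*C^5 + (90014976/625)*A^2*B^2*D^5 +
      (2321567568/3125)*A^2*B^2*C*D^4 + (190362744/125)*A^2*B^2*C^2*D^3 +
      (4842390303/3125)*A^2*B^2*C^3*D^2 + (977164893/1250)*A^2*B^2*C^4*D +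
      (976154283/6250)*A^2*B^2*C^5 + (90014976/625)*A^3*B*D^5 + (468172224/625)*A^3*B*C*D^4 +
      (970524684/625)*A^3*B*C^2*D^3 + (5009785809/3125)*A^3*B*C^3*D^2 +
      (5148774693/6250)*A^3*B*C^4*D + (210569967/1250)*A^3*B*C^5 + (30004992/625)*A^4*D^5 +
      (789753672/3125)*A^4*C*D^4 + (1663208622/3125)*A^4*C^2*D^3 +
      (1751840214/3125)*A^4*C^3*D^2 + (1845939711/6250)*A^4*C^4*D + (389219103/6250)*A^4*C^5 := by
    intro A B C D hA hB hC hD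
    positivity
  have e := pos (t - 0) (1 - t) (g - 0) (1/6 - g) (by linarith) (by linarith) (by linarith) (by linarith)
  have k : -14053/6250*g + 13709/2500*g^2 + 96499/12500*g^3 + 276/125*g^4 - 11576/1875*t +
    16166/9375*t*g + 7711/6250*t*g^2 + 2669/2500*t*g^3 + 96499/12500*t*g^4 + 276/125*t*g^5 -
    5788/625*t^2*g + 8083/3125*t^2*g^2 + 16323/3125*t^2*g^3 - 828/125*t^2*g^4 -
    29788/1875*t^3*g^2 - 111917/9375*t^3*g^3 + 5441/3125*t^3*g^4 - 276/125*t^3*g^5 -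
    32/5*t^4*g^3 - 32/5*t^4*g^4 =
      -((9106344/3125)*(1 - t)^4*(g - 0)*(1/6 - g)^4 + (32723946/3125)*(1 - t)^4*(g - 0)^2*(1/6
      - g)^3 + (42665283/3125)*(1 - t)^4*(g - 0)^3*(1/6 - g)^2 + (23542704/3125)*(1 - t)^4*(g
      - 0)^4*(1/6 - g) + (4495023/3125)*(1 - t)^4*(g - 0)^5 + (30004992/625)*(t - 0)*(1 -
      t)^3*(1/6 - g)^5 + (779566464/3125)*(t - 0)*(1 - t)^3*(g - 0)*(1/6 - g)^4 +
      (1602377748/3125)*(t - 0)*(1 - t)^3*(g - 0)^2*(1/6 - g)^3 + (1626389991/3125)*(t - 0)*(1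
      - t)^3*(g - 0)^3*(1/6 - g)^2 + (1626954891/6250)*(t - 0)*(1 - t)^3*(g - 0)^4*(1/6 - g) +
      (319833597/6250)*(t - 0)*(1 - t)^3*(g - 0)^5 + (90014976/625)*(t - 0)^2*(1 - t)^2*(1/6 -
      g)^5 + (2321567568/3125)*(t - 0)^2*(1 - t)^2*(g - 0)*(1/6 - g)^4 + (190362744/125)*(t -
      0)^2*(1 - t)^2*(g - 0)^2*(1/6 - g)^3 + (4842390303/3125)*(t - 0)^2*(1 - t)^2*(g -
      0)^3*(1/6 - g)^2 + (977164893/1250)*(t - 0)^2*(1 - t)^2*(g - 0)^4*(1/6 - g) +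
      (976154283/6250)*(t - 0)^2*(1 - t)^2*(g - 0)^5 + (90014976/625)*(t - 0)^3*(1 - t)*(1/6 -
      g)^5 + (468172224/625)*(t - 0)^3*(1 - t)*(g - 0)*(1/6 - g)^4 + (970524684/625)*(t -
      0)^3*(1 - t)*(g - 0)^2*(1/6 - g)^3 + (5009785809/3125)*(t - 0)^3*(1 - t)*(g - 0)^3*(1/6
      - g)^2 + (5148774693/6250)*(t - 0)^3*(1 - t)*(g - 0)^4*(1/6 - g) + (210569967/1250)*(t -
      0)^3*(1 - t)*(g - 0)^5 + (30004992/625)*(t - 0)^4*(1/6 - g)^5 + (789753672/3125)*(t -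
      0)^4*(g - 0)*(1/6 - g)^4 + (1663208622/3125)*(t - 0)^4*(g - 0)^2*(1/6 - g)^3 +
      (1751840214/3125)*(t - 0)^4*(g - 0)^3*(1/6 - g)^2 + (1845939711/6250)*(t - 0)^4*(g -
      0)^4*(1/6 - g) + (389219103/6250)*(t - 0)^4*(g - 0)^5) := by
    ring
  rw [k]
  linarith

theorem a10 (t g : ℝ) (h1 : 0 ≤ t) (h2 : t ≤ 1) (h3 : 0 ≤ g) (h4 : g ≤ 1/6) :
    -14053/6250*g + 13709/2500*g^2 + 96499/12500*g^3 + 276/125*g^4 - 106696/28125*t +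
    24874/5625*t*g + 276397/78750*t*g^2 + 476627/157500*t*g^3 + 96499/12500*t*g^4 +
    276/125*t*g^5 - 2549504/590625*t^2 + 7732612/590625*t^2*g + 1170713/39375*t^2*g^2 +
    566831/65625*t^2*g^3 - 9676/2625*t^2*g^4 - 5099008/590625*t^3*g + 5802044/590625*t^3*g^2 +
    296161/13125*t^3*g^3 + 566831/196875*t^3*g^4 - 9676/7875*t^3*g^5 - 637376/118125*t^4*g^2 -
    294032/118125*t^4*g^3 + 114448/39375*t^4*g^4 - 637376/590625*t^5*g^3 -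
    1078976/590625*t^5*g^4 - 5888/7875*t^5*g^5 ≤ 0 := by
  have pos : ∀ A B C D : ℝ, 0 ≤ A → 0 ≤ B → 0 ≤ C → 0 ≤ D → 0 ≤
      (9106344/3125)*B^5*C*D^4 + (32723946/3125)*B^5*C^2*D^3 + (42665283/3125)*B^5*C^3*D^2 +
      (23542704/3125)*B^5*C^4*D + (4495023/3125)*B^5*C^5 + (92185344/3125)*A*B^4*D^5 +
      (97709832/625)*A*B^4*C*D^4 + (1416053706/4375)*A*B^4*C^2*D^3 +
      (1428386926/4375)*A*B^4*C^3*D^2 + (6986981741/43750)*A*B^4*C^4*D +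
      (187779931/6250)*A*B^4*C^5 + (3315446784/21875)*A^2*B^3*D^5 +
      (16342052784/21875)*A^2*B^3*C*D^4 + (31747822356/21875)*A^2*B^3*C^2*D^3 +
      (30268489322/21875)*A^2*B^3*C^3*D^2 + (14078021634/21875)*A^2*B^3*C^4*D +
      (361507924/3125)*A^2*B^3*C^5 + (6074555904/21875)*A^3*B^2*D^5 +
      (29389290096/21875)*A^3*B^2*C*D^4 + (55985125292/21875)*A^3*B^2*C^2*D^3 +
      (52251925584/21875)*A^3*B^2*C^3*D^2 + (14234971339/13125)*A^3*B^2*C^4*D +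
      (5326913347/28125)*A^3*B^2*C^5 + (4783961088/21875)*A^4*B*D^5 +
      (660373608/625)*A^4*B*C*D^4 + (43928014566/21875)*A^4*B*C^2*D^3 +
      (122553846451/65625)*A^4*B*C^3*D^2 + (11067499474/13125)*A^4*B*C^4*D +
      (4105684589/28125)*A^4*B*C^5 + (275910912/4375)*A^5*D^5 + (6709739256/21875)*A^5*C*D^4 +
      (12839510722/21875)*A^5*C^2*D^3 + (12025418074/21875)*A^5*C^3*D^2 +
      (14071241207/56250)*A^5*C^4*D + (491684011/11250)*A^5*C^5 := by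
    intro A B C D hA hB hC hD
    positivity
  have e := pos (t - 0) (1 - t) (g - 0) (1/6 - g) (by linarith) (by linarith) (by linarith) (by linarith)
  have k : -14053/6250*g + 13709/2500*g^2 + 96499/12500*g^3 + 276/125*g^4 - 106696/28125*t +
    24874/5625*t*g + 276397/78750*t*g^2 + 476627/157500*t*g^3 + 96499/12500*t*g^4 +
    276/125*t*g^5 - 2549504/590625*t^2 + 7732612/590625*t^2*g + 1170713/39375*t^2*g^2 +
    566831/65625*t^2*g^3 - 9676/2625*t^2*g^4 - 5099008/590625*t^3*g + 5802044/590625*t^3*g^2 +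
    296161/13125*t^3*g^3 + 566831/196875*t^3*g^4 - 9676/7875*t^3*g^5 - 637376/118125*t^4*g^2 -
    294032/118125*t^4*g^3 + 114448/39375*t^4*g^4 - 637376/590625*t^5*g^3 -
    1078976/590625*t^5*g^4 - 5888/7875*t^5*g^5 =
      -((9106344/3125)*(1 - t)^5*(g - 0)*(1/6 - g)^4 + (32723946/3125)*(1 - t)^5*(g - 0)^2*(1/6
      - g)^3 + (42665283/3125)*(1 - t)^5*(g - 0)^3*(1/6 - g)^2 + (23542704/3125)*(1 - t)^5*(g
      - 0)^4*(1/6 - g) + (4495023/3125)*(1 - t)^5*(g - 0)^5 + (92185344/3125)*(t - 0)*(1 -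
      t)^4*(1/6 - g)^5 + (97709832/625)*(t - 0)*(1 - t)^4*(g - 0)*(1/6 - g)^4 +
      (1416053706/4375)*(t - 0)*(1 - t)^4*(g - 0)^2*(1/6 - g)^3 + (1428386926/4375)*(t - 0)*(1
      - t)^4*(g - 0)^3*(1/6 - g)^2 + (6986981741/43750)*(t - 0)*(1 - t)^4*(g - 0)^4*(1/6 - g)
      + (187779931/6250)*(t - 0)*(1 - t)^4*(g - 0)^5 + (3315446784/21875)*(t - 0)^2*(1 -
      t)^3*(1/6 - g)^5 + (16342052784/21875)*(t - 0)^2*(1 - t)^3*(g - 0)*(1/6 - g)^4 +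
      (31747822356/21875)*(t - 0)^2*(1 - t)^3*(g - 0)^2*(1/6 - g)^3 + (30268489322/21875)*(t -
      0)^2*(1 - t)^3*(g - 0)^3*(1/6 - g)^2 + (14078021634/21875)*(t - 0)^2*(1 - t)^3*(g -
      0)^4*(1/6 - g) + (361507924/3125)*(t - 0)^2*(1 - t)^3*(g - 0)^5 + (6074555904/21875)*(t
      - 0)^3*(1 - t)^2*(1/6 - g)^5 + (29389290096/21875)*(t - 0)^3*(1 - t)^2*(g - 0)*(1/6 -
      g)^4 + (55985125292/21875)*(t - 0)^3*(1 - t)^2*(g - 0)^2*(1/6 - g)^3 +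
      (52251925584/21875)*(t - 0)^3*(1 - t)^2*(g - 0)^3*(1/6 - g)^2 + (14234971339/13125)*(t -
      0)^3*(1 - t)^2*(g - 0)^4*(1/6 - g) + (5326913347/28125)*(t - 0)^3*(1 - t)^2*(g - 0)^5 +
      (4783961088/21875)*(t - 0)^4*(1 - t)*(1/6 - g)^5 + (660373608/625)*(t - 0)^4*(1 - t)*(g
      - 0)*(1/6 - g)^4 + (43928014566/21875)*(t - 0)^4*(1 - t)*(g - 0)^2*(1/6 - g)^3 +
      (122553846451/65625)*(t - 0)^4*(1 - t)*(g - 0)^3*(1/6 - g)^2 + (11067499474/13125)*(t -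
      0)^4*(1 - t)*(g - 0)^4*(1/6 - g) + (4105684589/28125)*(t - 0)^4*(1 - t)*(g - 0)^5 +
      (275910912/4375)*(t - 0)^5*(1/6 - g)^5 + (6709739256/21875)*(t - 0)^5*(g - 0)*(1/6 -
      g)^4 + (12839510722/21875)*(t - 0)^5*(g - 0)^2*(1/6 - g)^3 + (12025418074/21875)*(t -
      0)^5*(g - 0)^3*(1/6 - g)^2 + (14071241207/56250)*(t - 0)^5*(g - 0)^4*(1/6 - g) +
      (491684011/11250)*(t - 0)^5*(g - 0)^5) := by
    ring
  rw [k]
  linarith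

theorem b0 (t g : ℝ) (h1 : 0 ≤ t) (h2 : t ≤ 1) (h3 : 1/6 ≤ g) (h4 : g ≤ 2/5) :
    13817/12500 - 32433/5000*g - 180599/25000*g^2 - 5788/3125*g^3 - 22613/3125*t +
    18513/2500*t*g + 35247/5000*t*g^2 - 180599/25000*t*g^3 - 5788/3125*t*g^4 -
    67839/6250*t^2*g + 59061/6250*t^2*g^2 + 2538/125*t^2*g^3 - 102613/6250*t^3*g^2 -
    60313/6250*t^3*g^3 + 846/125*t^3*g^4 - 32/5*t^4*g^3 - 32/5*t^4*g^4 ≤ 0 := by
  have pos : ∀ A B C D : ℝ, 0 ≤ A → 0 ≤ B → 0 ≤ C → 0 ≤ D → 0 ≤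
      (1498341/24010)*B^4*D^4 + (11547924/12005)*B^4*C*D^3 + (1597291641/600250)*B^4*C^2*D^2 +
      (4042483659/1500625)*B^4*C^3*D + (1399098744/1500625)*B^4*C^4 +
      (106611199/48020)*A*B^3*D^4 + (2643979833/240100)*A*B^3*C*D^3 +
      (97271451/4802)*A*B^3*C^2*D^2 + (24648481926/1500625)*A*B^3*C^3*D +
      (37236034368/7503125)*A*B^3*C^4 + (325384761/48020)*A^2*B^2*D^4 +
      (7130446587/240100)*A^2*B^2*C*D^3 + (5858805087/120050)*A^2*B^2*C^2*D^2 +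
      (53551439604/1500625)*A^2*B^2*C^3*D + (73608657984/7503125)*A^2*B^2*C^4 +
      (70189989/9604)*A^3*B*D^4 + (1505919483/48020)*A^3*B*C*D^3 +
      (30196219257/600250)*A^3*B*C^2*D^2 + (53652619458/1500625)*A^3*B*C^3*D +
      (71265256704/7503125)*A^3*B*C^4 + (2647749/980)*A^4*D^4 + (57871269/4900)*A^4*C*D^3 +
      (118829322/6125)*A^4*C^2*D^2 + (62134047/4375)*A^4*C^3*D + (598952232/153125)*A^4*C^4 := by
    intro A B C D hA hB hC hD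
    positivity
  have e := pos (t - 0) (1 - t) (g - 1/6) (2/5 - g) (by linarith) (by linarith) (by linarith) (by linarith)
  have k : 13817/12500 - 32433/5000*g - 180599/25000*g^2 - 5788/3125*g^3 - 22613/3125*t +
    18513/2500*t*g + 35247/5000*t*g^2 - 180599/25000*t*g^3 - 5788/3125*t*g^4 -
    67839/6250*t^2*g + 59061/6250*t^2*g^2 + 2538/125*t^2*g^3 - 102613/6250*t^3*g^2 -
    60313/6250*t^3*g^3 + 846/125*t^3*g^4 - 32/5*t^4*g^3 - 32/5*t^4*g^4 =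
      -((1498341/24010)*(1 - t)^4*(2/5 - g)^4 + (11547924/12005)*(1 - t)^4*(g - 1/6)*(2/5 - g)^3
      + (1597291641/600250)*(1 - t)^4*(g - 1/6)^2*(2/5 - g)^2 + (4042483659/1500625)*(1 -
      t)^4*(g - 1/6)^3*(2/5 - g) + (1399098744/1500625)*(1 - t)^4*(g - 1/6)^4 +
      (106611199/48020)*(t - 0)*(1 - t)^3*(2/5 - g)^4 + (2643979833/240100)*(t - 0)*(1 -
      t)^3*(g - 1/6)*(2/5 - g)^3 + (97271451/4802)*(t - 0)*(1 - t)^3*(g - 1/6)^2*(2/5 - g)^2 +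
      (24648481926/1500625)*(t - 0)*(1 - t)^3*(g - 1/6)^3*(2/5 - g) + (37236034368/7503125)*(t
      - 0)*(1 - t)^3*(g - 1/6)^4 + (325384761/48020)*(t - 0)^2*(1 - t)^2*(2/5 - g)^4 +
      (7130446587/240100)*(t - 0)^2*(1 - t)^2*(g - 1/6)*(2/5 - g)^3 + (5858805087/120050)*(t -
      0)^2*(1 - t)^2*(g - 1/6)^2*(2/5 - g)^2 + (53551439604/1500625)*(t - 0)^2*(1 - t)^2*(g -
      1/6)^3*(2/5 - g) + (73608657984/7503125)*(t - 0)^2*(1 - t)^2*(g - 1/6)^4 +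
      (70189989/9604)*(t - 0)^3*(1 - t)*(2/5 - g)^4 + (1505919483/48020)*(t - 0)^3*(1 - t)*(g
      - 1/6)*(2/5 - g)^3 + (30196219257/600250)*(t - 0)^3*(1 - t)*(g - 1/6)^2*(2/5 - g)^2 +
      (53652619458/1500625)*(t - 0)^3*(1 - t)*(g - 1/6)^3*(2/5 - g) + (71265256704/7503125)*(t
      - 0)^3*(1 - t)*(g - 1/6)^4 + (2647749/980)*(t - 0)^4*(2/5 - g)^4 + (57871269/4900)*(t -
      0)^4*(g - 1/6)*(2/5 - g)^3 + (118829322/6125)*(t - 0)^4*(g - 1/6)^2*(2/5 - g)^2 +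
      (62134047/4375)*(t - 0)^4*(g - 1/6)^3*(2/5 - g) + (598952232/153125)*(t - 0)^4*(g -
      1/6)^4) := by
    ring
  rw [k]
  linarith

end Helper35.HG.Poly
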