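import Mathlib

/-!
Project HG (MP_925021_gt): polynomial inequalities for the constants (Bernstein expansions; generated).
Names: `m8, m0` (variable `t = h = 1/(1+13X/4)`), `i8, i0, j8, j0, k8, k0` (`t = h`), `a.., b.., r..` (`t = u/g` or `u`).
-/

set_option autoImplicit false

namespace Helper35.HG.Poly

theorem r0_0 (t g : ℝ) (h1 : 0 ≤ t) (h2 : t ≤ 1/2) (h3 : 2/5 ≤ g) (h4 : g ≤ 4) :
    13817/6250 - 101839/25000*g - 138707/25000*g^2 - 4638/3125*g^3 - 1084253/150000*t +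
    233471/30000*t*g + 218161/25000*t*g^2 - 138707/25000*t*g^3 - 4638/3125*t*g^4 -
    568879/50000*t^2*g + 391121/50000*t^2*g^2 + 96/5*t^2*g^3 - 158899/9375*t^3*g^2 -
    98899/9375*t^3*g^3 + 32/5*t^3*g^4 - 32/5*t^4*g^3 - 32/5*t^4*g^4 ≤ 0 := by
  have pos : ∀ A B C D : ℝ, 0 ≤ A → 0 ≤ B → 0 ≤ C → 0 ≤ D → 0 ≤
      (627211/16402500)*B^4*D^4 + (54397111/16402500)*B^4*C*D^3 + (4104611/218700)*B^4*C^2*D^2
      + (22528177/656100)*B^4*C^3*D + (618257/32805)*B^4*C^4 +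
      (592835719/1968300000)*A*B^3*D^4 + (2332207627/196830000)*A*B^3*C*D^3 +
      (228112717/3280500)*A*B^3*C^2*D^2 + (1170916093/7873200)*A*B^3*C^3*D +
      (323137297/3149280)*A*B^3*C^4 + (59332363/82012500)*A^2*B^2*D^4 +
      (2033152981/131220000)*A^2*B^2*C*D^3 + (749838067/8748000)*A^2*B^2*C^2*D^2 +
      (1044016291/5248800)*A^2*B^2*C^3*D + (171720743/1049760)*A^2*B^2*C^4 +
      (1446050987/1968300000)*A^3*B*D^4 + (943711207/98415000)*A^3*B*C*D^3 +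
      (576466709/13122000)*A^3*B*C^2*D^2 + (388714753/3936600)*A^3*B*C^3*D +
      (54474187/629856)*A^3*B*C^4 + (30353593/109350000)*A^4*D^4 + (1599097/583200)*A^4*C*D^3
      + (30249737/2916000)*A^4*C^2*D^2 + (37258453/1749600)*A^4*C^3*D + (244417/12960)*A^4*C^4 := by
    intro A B C D hA hB hC hD
    positivity
  have e := pos (t - 0) (1/2 - t) (g - 2/5) (4 - g) (by linarith) (by linarith) (by linarith) (by linarith)
  have k : 13817/6250 - 101839/25000*g - 138707/25000*g^2 - 4638/3125*g^3 - 1084253/150000*t +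
    233471/30000*t*g + 218161/25000*t*g^2 - 138707/25000*t*g^3 - 4638/3125*t*g^4 -
    568879/50000*t^2*g + 391121/50000*t^2*g^2 + 96/5*t^2*g^3 - 158899/9375*t^3*g^2 -
    98899/9375*t^3*g^3 + 32/5*t^3*g^4 - 32/5*t^4*g^3 - 32/5*t^4*g^4 =
      -((627211/16402500)*(1/2 - t)^4*(4 - g)^4 + (54397111/16402500)*(1/2 - t)^4*(g - 2/5)*(4 -
      g)^3 + (4104611/218700)*(1/2 - t)^4*(g - 2/5)^2*(4 - g)^2 + (22528177/656100)*(1/2 -
      t)^4*(g - 2/5)^3*(4 - g) + (618257/32805)*(1/2 - t)^4*(g - 2/5)^4 +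
      (592835719/1968300000)*(t - 0)*(1/2 - t)^3*(4 - g)^4 + (2332207627/196830000)*(t -
      0)*(1/2 - t)^3*(g - 2/5)*(4 - g)^3 + (228112717/3280500)*(t - 0)*(1/2 - t)^3*(g -
      2/5)^2*(4 - g)^2 + (1170916093/7873200)*(t - 0)*(1/2 - t)^3*(g - 2/5)^3*(4 - g) +
      (323137297/3149280)*(t - 0)*(1/2 - t)^3*(g - 2/5)^4 + (59332363/82012500)*(t - 0)^2*(1/2
      - t)^2*(4 - g)^4 + (2033152981/131220000)*(t - 0)^2*(1/2 - t)^2*(g - 2/5)*(4 - g)^3 +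
      (749838067/8748000)*(t - 0)^2*(1/2 - t)^2*(g - 2/5)^2*(4 - g)^2 +
      (1044016291/5248800)*(t - 0)^2*(1/2 - t)^2*(g - 2/5)^3*(4 - g) + (171720743/1049760)*(t
      - 0)^2*(1/2 - t)^2*(g - 2/5)^4 + (1446050987/1968300000)*(t - 0)^3*(1/2 - t)*(4 - g)^4 +
      (943711207/98415000)*(t - 0)^3*(1/2 - t)*(g - 2/5)*(4 - g)^3 + (576466709/13122000)*(t -
      0)^3*(1/2 - t)*(g - 2/5)^2*(4 - g)^2 + (388714753/3936600)*(t - 0)^3*(1/2 - t)*(g -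
      2/5)^3*(4 - g) + (54474187/629856)*(t - 0)^3*(1/2 - t)*(g - 2/5)^4 +
      (30353593/109350000)*(t - 0)^4*(4 - g)^4 + (1599097/583200)*(t - 0)^4*(g - 2/5)*(4 -
      g)^3 + (30249737/2916000)*(t - 0)^4*(g - 2/5)^2*(4 - g)^2 + (37258453/1749600)*(t -
      0)^4*(g - 2/5)^3*(4 - g) + (244417/12960)*(t - 0)^4*(g - 2/5)^4) := by
    ring
  rw [k]
  linarith

theorem r0_1 (t g : ℝ) (h1 : 1/2 ≤ t) (h2 : t ≤ 1) (h3 : 2/5 ≤ g) (h4 : g ≤ 4) :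
    13817/6250 - 101839/25000*g - 138707/25000*g^2 - 4638/3125*g^3 - 1084253/150000*t +
    233471/30000*t*g + 218161/25000*t*g^2 - 138707/25000*t*g^3 - 4638/3125*t*g^4 -
    568879/50000*t^2*g + 391121/50000*t^2*g^2 + 96/5*t^2*g^3 - 158899/9375*t^3*g^2 -
    98899/9375*t^3*g^3 + 32/5*t^3*g^4 - 32/5*t^4*g^3 - 32/5*t^4*g^4 ≤ 0 := by
  have pos : ∀ A B C D : ℝ, 0 ≤ A → 0 ≤ B → 0 ≤ C → 0 ≤ D → 0 ≤
      (30353593/109350000)*B^4*D^4 + (1599097/583200)*B^4*C*D^3 +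
      (30249737/2916000)*B^4*C^2*D^2 + (37258453/1749600)*B^4*C^3*D + (244417/12960)*B^4*C^4 +
      (584973281/393660000)*A*B^3*D^4 + (1215069743/98415000)*A*B^3*C*D^3 +
      (512523823/13122000)*A*B^3*C^2*D^2 + (281937401/3936600)*A*B^3*C^3*D +
      (202775713/3149280)*A*B^3*C^4 + (976737161/328050000)*A^2*B^2*D^4 +
      (24948697/1049760)*A^2*B^2*C*D^3 + (124390459/1749600)*A^2*B^2*C^2*D^2 +
      (616906883/5248800)*A^2*B^2*C^3*D + (102125521/1049760)*A^2*B^2*C^4 +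
      (5234128853/1968300000)*A^3*B*D^4 + (4487888891/196830000)*A^3*B*C*D^3 +
      (512469577/6561000)*A^3*B*C^2*D^2 + (1129244813/7873200)*A^3*B*C^3*D +
      (369646991/3149280)*A^3*B*C^4 + (97718201/109350000)*A^4*D^4 +
      (15953819/1822500)*A^4*C*D^3 + (27036151/729000)*A^4*C^2*D^2 +
      (18216007/218700)*A^4*C^3*D + (907603/11664)*A^4*C^4 := by
    intro A B C D hA hB hC hD
    positivity
  have e := pos (t - 1/2) (1 - t) (g - 2/5) (4 - g) (by linarith) (by linarith) (by linarith) (by linarith)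
  have k : 13817/6250 - 101839/25000*g - 138707/25000*g^2 - 4638/3125*g^3 - 1084253/150000*t +
    233471/30000*t*g + 218161/25000*t*g^2 - 138707/25000*t*g^3 - 4638/3125*t*g^4 -
    568879/50000*t^2*g + 391121/50000*t^2*g^2 + 96/5*t^2*g^3 - 158899/9375*t^3*g^2 -
    98899/9375*t^3*g^3 + 32/5*t^3*g^4 - 32/5*t^4*g^3 - 32/5*t^4*g^4 =
      -((30353593/109350000)*(1 - t)^4*(4 - g)^4 + (1599097/583200)*(1 - t)^4*(g - 2/5)*(4 -
      g)^3 + (30249737/2916000)*(1 - t)^4*(g - 2/5)^2*(4 - g)^2 + (37258453/1749600)*(1 -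
      t)^4*(g - 2/5)^3*(4 - g) + (244417/12960)*(1 - t)^4*(g - 2/5)^4 +
      (584973281/393660000)*(t - 1/2)*(1 - t)^3*(4 - g)^4 + (1215069743/98415000)*(t - 1/2)*(1
      - t)^3*(g - 2/5)*(4 - g)^3 + (512523823/13122000)*(t - 1/2)*(1 - t)^3*(g - 2/5)^2*(4 -
      g)^2 + (281937401/3936600)*(t - 1/2)*(1 - t)^3*(g - 2/5)^3*(4 - g) +
      (202775713/3149280)*(t - 1/2)*(1 - t)^3*(g - 2/5)^4 + (976737161/328050000)*(t -
      1/2)^2*(1 - t)^2*(4 - g)^4 + (24948697/1049760)*(t - 1/2)^2*(1 - t)^2*(g - 2/5)*(4 -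
      g)^3 + (124390459/1749600)*(t - 1/2)^2*(1 - t)^2*(g - 2/5)^2*(4 - g)^2 +
      (616906883/5248800)*(t - 1/2)^2*(1 - t)^2*(g - 2/5)^3*(4 - g) + (102125521/1049760)*(t -
      1/2)^2*(1 - t)^2*(g - 2/5)^4 + (5234128853/1968300000)*(t - 1/2)^3*(1 - t)*(4 - g)^4 +
      (4487888891/196830000)*(t - 1/2)^3*(1 - t)*(g - 2/5)*(4 - g)^3 + (512469577/6561000)*(t
      - 1/2)^3*(1 - t)*(g - 2/5)^2*(4 - g)^2 + (1129244813/7873200)*(t - 1/2)^3*(1 - t)*(g -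
      2/5)^3*(4 - g) + (369646991/3149280)*(t - 1/2)^3*(1 - t)*(g - 2/5)^4 +
      (97718201/109350000)*(t - 1/2)^4*(4 - g)^4 + (15953819/1822500)*(t - 1/2)^4*(g - 2/5)*(4
      - g)^3 + (27036151/729000)*(t - 1/2)^4*(g - 2/5)^2*(4 - g)^2 + (18216007/218700)*(t -
      1/2)^4*(g - 2/5)^3*(4 - g) + (907603/11664)*(t - 1/2)^4*(g - 2/5)^4) := by
    ring
  rw [k]
  linarith

theorem rt0_0 (t g : ℝ) (h1 : 0 ≤ t) (h2 : t ≤ 1/2) (h3 : 4 ≤ g) :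
    13817/6250 - 101839/25000*g - 138707/25000*g^2 - 4638/3125*g^3 - 1084253/150000*t +
    233471/30000*t*g + 218161/25000*t*g^2 - 138707/25000*t*g^3 - 4638/3125*t*g^4 -
    568879/50000*t^2*g + 391121/50000*t^2*g^2 + 96/5*t^2*g^3 - 158899/9375*t^3*g^2 -
    98899/9375*t^3*g^3 + 32/5*t^3*g^4 - 32/5*t^4*g^3 - 32/5*t^4*g^4 ≤ 0 := by
  have pos : ∀ A B C : ℝ, 0 ≤ A → 0 ≤ B → 0 ≤ C → 0 ≤
      (9892112/3125)*B^4 + (323137297/18750)*A*B^3 + (171720743/6250)*A^2*B^2 +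
      (54474187/3750)*A^3*B + (19797777/6250)*A^4 + (5984974/3125)*B^4*C +
      (228939653/18750)*A*B^3*C + (265599841/12500)*A^2*B^2*C + (108126658/9375)*A^3*B*C +
      (94726727/37500)*A^4*C + (233582/625)*B^4*C^2 + (9679947/3125)*A*B^3*C^2 +
      (76218403/12500)*A^2*B^2*C^2 + (64788751/18750)*A^3*B*C^2 + (28986737/37500)*A^4*C^2 +
      (74208/3125)*B^4*C^3 + (1029203/3125)*A*B^3*C^3 + (2402361/3125)*A^2*B^2*C^3 +
      (4319633/9375)*A^3*B*C^3 + (199507/1875)*A^4*C^3 + (37104/3125)*A*B^3*C^4 +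
      (111312/3125)*A^2*B^2*C^4 + (71312/3125)*A^3*B*C^4 + (17104/3125)*A^4*C^4 := by
    intro A B C hA hB hC
    positivity
  have e := pos (t - 0) (1/2 - t) (g - 4) (by linarith) (by linarith) (by linarith)
  have k : 13817/6250 - 101839/25000*g - 138707/25000*g^2 - 4638/3125*g^3 - 1084253/150000*t +
    233471/30000*t*g + 218161/25000*t*g^2 - 138707/25000*t*g^3 - 4638/3125*t*g^4 -
    568879/50000*t^2*g + 391121/50000*t^2*g^2 + 96/5*t^2*g^3 - 158899/9375*t^3*g^2 -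
    98899/9375*t^3*g^3 + 32/5*t^3*g^4 - 32/5*t^4*g^3 - 32/5*t^4*g^4 =
      -((9892112/3125)*(1/2 - t)^4 + (323137297/18750)*(t - 0)*(1/2 - t)^3 + (171720743/6250)*(t
      - 0)^2*(1/2 - t)^2 + (54474187/3750)*(t - 0)^3*(1/2 - t) + (19797777/6250)*(t - 0)^4 +
      (5984974/3125)*(1/2 - t)^4*(g - 4) + (228939653/18750)*(t - 0)*(1/2 - t)^3*(g - 4) +
      (265599841/12500)*(t - 0)^2*(1/2 - t)^2*(g - 4) + (108126658/9375)*(t - 0)^3*(1/2 -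
      t)*(g - 4) + (94726727/37500)*(t - 0)^4*(g - 4) + (233582/625)*(1/2 - t)^4*(g - 4)^2 +
      (9679947/3125)*(t - 0)*(1/2 - t)^3*(g - 4)^2 + (76218403/12500)*(t - 0)^2*(1/2 - t)^2*(g
      - 4)^2 + (64788751/18750)*(t - 0)^3*(1/2 - t)*(g - 4)^2 + (28986737/37500)*(t - 0)^4*(g
      - 4)^2 + (74208/3125)*(1/2 - t)^4*(g - 4)^3 + (1029203/3125)*(t - 0)*(1/2 - t)^3*(g -
      4)^3 + (2402361/3125)*(t - 0)^2*(1/2 - t)^2*(g - 4)^3 + (4319633/9375)*(t - 0)^3*(1/2 -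
      t)*(g - 4)^3 + (199507/1875)*(t - 0)^4*(g - 4)^3 + (37104/3125)*(t - 0)*(1/2 - t)^3*(g -
      4)^4 + (111312/3125)*(t - 0)^2*(1/2 - t)^2*(g - 4)^4 + (71312/3125)*(t - 0)^3*(1/2 -
      t)*(g - 4)^4 + (17104/3125)*(t - 0)^4*(g - 4)^4) := by
    ring
  rw [k]
  linarith

theorem rt0_1 (t g : ℝ) (h1 : 1/2 ≤ t) (h2 : t ≤ 3/4) (h3 : 4 ≤ g) :
    13817/6250 - 101839/25000*g - 138707/25000*g^2 - 4638/3125*g^3 - 1084253/150000*t +
    233471/30000*t*g + 218161/25000*t*g^2 - 138707/25000*t*g^3 - 4638/3125*t*g^4 -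
    568879/50000*t^2*g + 391121/50000*t^2*g^2 + 96/5*t^2*g^3 - 158899/9375*t^3*g^2 -
    98899/9375*t^3*g^3 + 32/5*t^3*g^4 - 32/5*t^4*g^3 - 32/5*t^4*g^4 ≤ 0 := by
  have pos : ∀ A B C : ℝ, 0 ≤ A → 0 ≤ B → 0 ≤ C → 0 ≤
      (158382216/3125)*B^4 + (1761396148/9375)*A*B^3 + (847375792/3125)*A^2*B^2 +
      (365660116/1875)*A^3*B + (197207568/3125)*A^4 + (378906908/9375)*B^4*C +
      (1408428184/9375)*A*B^3*C + (673161031/3125)*A^2*B^2*C + (1437862642/9375)*A^3*B*C +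
      (6215211/125)*A^4*C + (115946948/9375)*B^4*C^2 + (436526684/9375)*A*B^3*C^2 +
      (209247163/3125)*A^2*B^2*C^2 + (147957822/3125)*A^3*B*C^2 + (47730571/3125)*A^4*C^2 +
      (3192112/1875)*B^4*C^3 + (61206296/9375)*A*B^3*C^3 + (29596368/3125)*A^2*B^2*C^3 +
      (20839052/3125)*A^3*B*C^3 + (6664596/3125)*A^4*C^3 + (273664/3125)*B^4*C^4 +
      (1071488/3125)*A*B^3*C^4 + (314496/625)*A^2*B^2*C^4 + (1105152/3125)*A^3*B*C^4 +
      (350496/3125)*A^4*C^4 := by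
    intro A B C hA hB hC
    positivity
  have e := pos (t - 1/2) (3/4 - t) (g - 4) (by linarith) (by linarith) (by linarith)
  have k : 13817/6250 - 101839/25000*g - 138707/25000*g^2 - 4638/3125*g^3 - 1084253/150000*t +
    233471/30000*t*g + 218161/25000*t*g^2 - 138707/25000*t*g^3 - 4638/3125*t*g^4 -
    568879/50000*t^2*g + 391121/50000*t^2*g^2 + 96/5*t^2*g^3 - 158899/9375*t^3*g^2 -
    98899/9375*t^3*g^3 + 32/5*t^3*g^4 - 32/5*t^4*g^3 - 32/5*t^4*g^4 =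
      -((158382216/3125)*(3/4 - t)^4 + (1761396148/9375)*(t - 1/2)*(3/4 - t)^3 +
      (847375792/3125)*(t - 1/2)^2*(3/4 - t)^2 + (365660116/1875)*(t - 1/2)^3*(3/4 - t) +
      (197207568/3125)*(t - 1/2)^4 + (378906908/9375)*(3/4 - t)^4*(g - 4) +
      (1408428184/9375)*(t - 1/2)*(3/4 - t)^3*(g - 4) + (673161031/3125)*(t - 1/2)^2*(3/4 -
      t)^2*(g - 4) + (1437862642/9375)*(t - 1/2)^3*(3/4 - t)*(g - 4) + (6215211/125)*(t -
      1/2)^4*(g - 4) + (115946948/9375)*(3/4 - t)^4*(g - 4)^2 + (436526684/9375)*(t -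
      1/2)*(3/4 - t)^3*(g - 4)^2 + (209247163/3125)*(t - 1/2)^2*(3/4 - t)^2*(g - 4)^2 +
      (147957822/3125)*(t - 1/2)^3*(3/4 - t)*(g - 4)^2 + (47730571/3125)*(t - 1/2)^4*(g - 4)^2
      + (3192112/1875)*(3/4 - t)^4*(g - 4)^3 + (61206296/9375)*(t - 1/2)*(3/4 - t)^3*(g - 4)^3
      + (29596368/3125)*(t - 1/2)^2*(3/4 - t)^2*(g - 4)^3 + (20839052/3125)*(t - 1/2)^3*(3/4 -
      t)*(g - 4)^3 + (6664596/3125)*(t - 1/2)^4*(g - 4)^3 + (273664/3125)*(3/4 - t)^4*(g -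
      4)^4 + (1071488/3125)*(t - 1/2)*(3/4 - t)^3*(g - 4)^4 + (314496/625)*(t - 1/2)^2*(3/4 -
      t)^2*(g - 4)^4 + (1105152/3125)*(t - 1/2)^3*(3/4 - t)*(g - 4)^4 + (350496/3125)*(t -
      1/2)^4*(g - 4)^4) := by
    ring
  rw [k]
  linarith

theorem rt0_2 (t g : ℝ) (h1 : 3/4 ≤ t) (h2 : t ≤ 1) (h3 : 4 ≤ g) :
    13817/6250 - 101839/25000*g - 138707/25000*g^2 - 4638/3125*g^3 - 1084253/150000*t +
    233471/30000*t*g + 218161/25000*t*g^2 - 138707/25000*t*g^3 - 4638/3125*t*g^4 -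
    568879/50000*t^2*g + 391121/50000*t^2*g^2 + 96/5*t^2*g^3 - 158899/9375*t^3*g^2 -
    98899/9375*t^3*g^3 + 32/5*t^3*g^4 - 32/5*t^4*g^3 - 32/5*t^4*g^4 ≤ 0 := by
  have pos : ∀ A B C : ℝ, 0 ≤ A → 0 ≤ B → 0 ≤ C → 0 ≤
      (197207568/3125)*B^4 + (2904681052/9375)*A*B^3 + (1923756264/3125)*A^2*B^2 +
      (5399432924/9375)*A^3*B + (130694832/625)*A^4 + (6215211/125)*B^4*C +
      (2291263958/9375)*A*B^3*C + (1526562347/3125)*A^2*B^2*C + (4331658884/9375)*A^3*B*C +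
      (1595334976/9375)*A^4*C + (47730571/3125)*B^4*C^2 + (233886746/3125)*A*B^3*C^2 +
      (93406787/625)*A^2*B^2*C^2 + (1330092496/9375)*A^3*B*C^2 + (493939216/9375)*A^4*C^2 +
      (6664596/3125)*B^4*C^3 + (32477716/3125)*A*B^3*C^3 + (12902472/625)*A^2*B^2*C^3 +
      (183545464/9375)*A^3*B*C^3 + (68467744/9375)*A^4*C^3 + (350496/3125)*B^4*C^4 +
      (1698816/3125)*A*B^3*C^4 + (3353472/3125)*A^2*B^2*C^4 + (634496/625)*A^3*B*C^4 +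
      (1187328/3125)*A^4*C^4 := by
    intro A B C hA hB hC
    positivity
  have e := pos (t - 3/4) (1 - t) (g - 4) (by linarith) (by linarith) (by linarith)
  have k : 13817/6250 - 101839/25000*g - 138707/25000*g^2 - 4638/3125*g^3 - 1084253/150000*t +
    233471/30000*t*g + 218161/25000*t*g^2 - 138707/25000*t*g^3 - 4638/3125*t*g^4 -
    568879/50000*t^2*g + 391121/50000*t^2*g^2 + 96/5*t^2*g^3 - 158899/9375*t^3*g^2 -
    98899/9375*t^3*g^3 + 32/5*t^3*g^4 - 32/5*t^4*g^3 - 32/5*t^4*g^4 =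
      -((197207568/3125)*(1 - t)^4 + (2904681052/9375)*(t - 3/4)*(1 - t)^3 +
      (1923756264/3125)*(t - 3/4)^2*(1 - t)^2 + (5399432924/9375)*(t - 3/4)^3*(1 - t) +
      (130694832/625)*(t - 3/4)^4 + (6215211/125)*(1 - t)^4*(g - 4) + (2291263958/9375)*(t -
      3/4)*(1 - t)^3*(g - 4) + (1526562347/3125)*(t - 3/4)^2*(1 - t)^2*(g - 4) +
      (4331658884/9375)*(t - 3/4)^3*(1 - t)*(g - 4) + (1595334976/9375)*(t - 3/4)^4*(g - 4) +
      (47730571/3125)*(1 - t)^4*(g - 4)^2 + (233886746/3125)*(t - 3/4)*(1 - t)^3*(g - 4)^2 +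
      (93406787/625)*(t - 3/4)^2*(1 - t)^2*(g - 4)^2 + (1330092496/9375)*(t - 3/4)^3*(1 -
      t)*(g - 4)^2 + (493939216/9375)*(t - 3/4)^4*(g - 4)^2 + (6664596/3125)*(1 - t)^4*(g -
      4)^3 + (32477716/3125)*(t - 3/4)*(1 - t)^3*(g - 4)^3 + (12902472/625)*(t - 3/4)^2*(1 -
      t)^2*(g - 4)^3 + (183545464/9375)*(t - 3/4)^3*(1 - t)*(g - 4)^3 + (68467744/9375)*(t -
      3/4)^4*(g - 4)^3 + (350496/3125)*(1 - t)^4*(g - 4)^4 + (1698816/3125)*(t - 3/4)*(1 -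
      t)^3*(g - 4)^4 + (3353472/3125)*(t - 3/4)^2*(1 - t)^2*(g - 4)^4 + (634496/625)*(t -
      3/4)^3*(1 - t)*(g - 4)^4 + (1187328/3125)*(t - 3/4)^4*(g - 4)^4) := by
    ring
  rw [k]
  linarith

end Helper35.HG.Poly
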