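import Mathlib
import Pool.Agent.Helper35.HG.Poly0a
import Pool.Agent.Helper35.HG.Poly0b
import Pool.Agent.Helper35.HG.Poly0c
import Pool.Agent.Helper35.HG.Poly0d


/-!
Project HG (MP_925021_gt): polynomial inequalities for the constants (Bernstein expansions; generated).
Names: `m8, m0` (variable `t = h = 1/(1+13X/4)`), `i8, i0, j8, j0, k8, k0` (`t = h`), `a.., b.., r..` (`t = u/g` or `u`).
-/

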