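import Mathlib
import Pool.Agent.Helper35.HG.StD
import Pool.Agent.Helper35.HG.Poly8
import Pool.Agent.Helper35.HG.Poly0

/-!
Project HG (MP_925021_gt), module statements, part E: the functions and constants of the region, `n ≥ 8(k+1)`
(real inequalities only, no geometry).

Every module proves `theorem hX : StX` from the listed hypotheses.  COMPLETE proofs in the docstrings; every inequality was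
checked numerically, the polynomial inequalities are proved in `Poly8.lean`, `Poly0.lean` (generated, compiled).
Notation: `s = sn n = 12/n²`, `w = √(1+sx)`, `W = √(1+sX)`, `g = w - 1`, `u = W - 1`, `N = n/16 ≥ 1`, so
`sx = g(g+2)`, `s = 3/(64N²)`, `x = (64/3)N²g(g+2)`, `X = (64/3)N²u(u+2)`; `h = hh X = 1/(1+13X/4)`, `X = (4/13)(1-h)/h`;
`p = (3/10)g`, `τ = (3/10)u`, `K = 23/100`, `J₀ = 433/1000`, `V₀ = J₀ + p`, `D₁ = D1f u g = p - τu/(1+u)`, `0 ≤ D₁ ≤ p`,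
`G = u(u+2)`, `γ = g(g+2)`.
-/

set_option autoImplicit false

namespace Helper35.HG

open Helper35.PI Helper35.PI2 Helper32.CL Helper35.MS Helper35.HSF Helper35.HC
open scoped ContDiff Manifold Topology ENNReal BigOperators
open MeasureTheory Set Filter

section DefsE

/-- `12/n²` -/
noncomputable def sn (n : ℕ) : ℝ := 12 / (n : ℝ) ^ 2
/-- `1/(1+13X/4)` -/
noncomputable def hh (X : ℝ) : ℝ := 1 / (1 + 13 / 4 * X)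
/-- `J₁` -/
noncomputable def Jf (X : ℝ) : ℝ := 263 / 1000 + 23 / 100 * X + 17 / 100 * hh X
/-- `L₁ = J₁ - X J₁'` -/
noncomputable def Lf (X : ℝ) : ℝ := 263 / 1000 + 17 / 100 * (2 * hh X - hh X ^ 2)

/-- the functions of the region -/
noncomputable def pP (n : ℕ) : Prf where
  E := 1 / 4
  K := 23 / 100
  J := fun x => Jf x - 3 / 5 * (Real.sqrt (1 + sn n * x) - 1)
  J1 := fun x => 23 / 100 - 17 / 100 * (13 / 4) * hh x ^ 2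
    - 3 / 5 * (sn n / (2 * Real.sqrt (1 + sn n * x)))
  J2 := fun x => 2 * (17 / 100) * (13 / 4) ^ 2 * hh x ^ 3
    + 3 / 5 * (sn n ^ 2 / (4 * Real.sqrt (1 + sn n * x) ^ 3))
  P := fun x => 3 / 10 * (Real.sqrt (1 + sn n * x) - 1)
  P1 := fun x => 3 / 10 * (sn n / (2 * Real.sqrt (1 + sn n * x)))
  P2 := fun x => -(3 / 10 * (sn n ^ 2 / (4 * Real.sqrt (1 + sn n * x) ^ 3)))
  e := fun x => 27 / 40 * (sn n / (2 * Real.sqrt (1 + sn n * x)))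
  e1 := fun x => -(27 / 40 * (sn n ^ 2 / (4 * Real.sqrt (1 + sn n * x) ^ 3)))
  e2 := fun x => 27 / 40 * (3 * sn n ^ 3 / (8 * Real.sqrt (1 + sn n * x) ^ 5))

/-- `D₁` -/
noncomputable def D1f (u g : ℝ) : ℝ := 3 / 10 * g - 3 / 10 * u * (u / (1 + u))
/-- `V` -/
noncomputable def Vf (X u g : ℝ) : ℝ := Jf X + 3 / 10 * g - 3 / 5 * u
/-- the function to be estimated -/
noncomputable def FR (a X u g N R : ℝ) : ℝ :=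
  (a * Vf X u g + X + 1) * (Lf X + D1f u g) - 2 * Vf X u g
    + (1 - a / 4) * Vf X u g * ((433 / 1000 + 3 / 10 * g) / 2 + R) + Vf X u g / 100
    - 6938 / 10000 * (16 / 5 * N ^ 2 * (g * (g + 2)) ^ 2 / (1 + g))
    + 323 / 10000 * (4 / 3 * N * (g * (g + 2))) + 105 / 10000 - 13 / 1000 * g
    - 26 / 1000 * g ^ 2

/-- the variables -/
structure RH (X u g N R : ℝ) : Prop where
  N1 : 1 ≤ N
  u0 : 0 ≤ u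
  ug : u ≤ g
  hX : X = 64 / 3 * N ^ 2 * (u * (u + 2))
  R0 : 0 ≤ R
  R1 : R ≤ 23 / 100 * (16 / 3 * N * (g * (g + 2) - u * (u + 2)))
  R2 : X * R ≤ (433 / 1000 + 3 / 10 * g) * (16 / 3 * N * (g * (g + 2) - u * (u + 2)))

/-- `M_a(X)` -/
noncomputable def Mf (a X : ℝ) : ℝ :=
  (a * Jf X + X + 1) * Lf X - 2 * Jf X + (1 / 2 - a / 8) * (433 / 1000) * Jf X
/-- regime `X ≤ 7/4`, `a = 4/5` -/
noncomputable def T8 (X z g : ℝ) : ℝ :=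
  Mf (4 / 5) X + Jf X / 100 + 105 / 10000
    + 2 * (18268 / 10000 - 4 / 5 * Lf X) * (9 / 1280 * X)
    + 3 / 10 * g * (1 - (18268 / 10000 - 4 / 5 * Lf X) + 6 / 5 * Jf X + X)
    - 10 / 1000 * g + 82 / 1000 * g ^ 2
    + (736 / 1000 * Jf X + 323 / 10000 + 2208 / 10000 * g) * z
    - 12488 / 10000 * z ^ 2 / (1 + g)
/-- regime `X ≤ 7/4`, `a = 0` -/
noncomputable def T0 (X z g : ℝ) : ℝ :=
  Mf 0 X + Jf X / 100 + 105 / 10000 + 3567 / 1000 * (9 / 1280 * X)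
    + 3 / 10 * g * (-(7835 / 10000) + Jf X / 2 + X)
    - 10 / 1000 * g + 19 / 1000 * g ^ 2
    + (92 / 100 * Jf X + 323 / 10000 + 276 / 1000 * g) * z
    - 12488 / 10000 * z ^ 2 / (1 + g)
/-- `c₀`, `X ≥ 7/4`, `a = 4/5` -/
noncomputable def cA8 (u g : ℝ) : ℝ :=
  -(248 / 10000) - 7978 / 100000 * g + 82 / 1000 * g ^ 2 + 97 / 100 * u
/-- `c₀`, `X ≥ 7/4`, `a = 0` -/
noncomputable def cA0 (u g : ℝ) : ℝ :=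
  -(866 / 10000) - 20176 / 100000 * g + 19 / 1000 * g ^ 2 + 10701 / 10000 * u
/-- `c₀`, all `X`, `a = 4/5` -/
noncomputable def cB8 (u g : ℝ) : ℝ := 176 / 100000 * g + 82 / 1000 * g ^ 2 + 97 / 100 * u
/-- `c₀`, all `X`, `a = 0` -/
noncomputable def cB0 (u g : ℝ) : ℝ := 19 / 1000 * g ^ 2 + 10701 / 10000 * u
/-- `c₁`, `b = 1 - a/4` -/
noncomputable def cC (b u g : ℝ) : ℝ :=
  b * (32 / 3) * (23 / 100) * (433 / 1000 + 3 / 10 * g) * (g * (g + 2) - u * (u + 2))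
    + 4 / 3 * (323 / 10000) * (g * (g + 2))
/-- `c₂`, `a = 4/5` -/
noncomputable def cD8 (u g : ℝ) : ℝ :=
  64 / 3 * (u * (u + 2)) * (-(1064 / 10000) + 92 / 1000 * (3 / 10 * g)
    + 1184 / 1000 * D1f u g) - 6938 / 10000 * (16 / 5 * (g * (g + 2)) ^ 2 / (1 + g))
/-- `c₂`, `a = 0` -/
noncomputable def cD0 (u g : ℝ) : ℝ :=
  64 / 3 * (u * (u + 2)) * (-(1447 / 10000) + 115 / 1000 * (3 / 10 * g)
    + D1f u g) - 6938 / 10000 * (16 / 5 * (g * (g + 2)) ^ 2 / (1 + g))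

end DefsE

/-- RG1. Regularity and signs.

Proof. `1 + sn n * x > 0` near every `x ≥ 0` (`sn n ≥ 0`), `√` is smooth at positive numbers, `hh` is smooth near `x ≥ 0`.
`(√(1+sx))' = s/(2√(1+sx))`, `(s/(2√(1+sx)))' = -s²/(4√(1+sx)³)`, `(-s²/(4√³))' = 3s³/(8√⁵)`, `hh' = -(13/4)hh²`,
`(hh²)' = -2(13/4)hh³`. Signs: `√ ≥ 1`. -/
def StRG1 : Prop := ∀ n : ℕ, 16 ≤ n → ∀ x : ℝ, 0 ≤ x →
    C2J (pP n).J (pP n).J1 (pP n).J2 x ∧ C2J (pP n).P (pP n).P1 (pP n).P2 x ∧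
    C2J (pP n).e (pP n).e1 (pP n).e2 x ∧ 0 ≤ (pP n).e x ∧ (pP n).e1 x ≤ 0 ∧
    0 ≤ (pP n).e2 x ∧ 0 ≤ (pP n).P x ∧ 0 ≤ (pP n).P1 x ∧ (pP n).P2 x ≤ 0

/-- RG2. Simple inequalities.

Proof. `s = sn n ≤ 12/256`, `w - W = s(x-X)/(w+W) ≤ s(x-X)/2`, `W - 1 ≤ sX/2`, `0 < hh X ≤ 1`. `J X + P x = Jf X - (3/5)(W-1) +
(3/10)(w-1) ≥ Jf X - (3/10)(W-1) ≥ 263/1000 + (23/100)X - (3/20)sX > 0`. `J 0 = 433/1000`; `J X + P x ≤ 433/1000 + (23/100)X +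
(3/10)(w - W) ≤ 433/1000 + (23/100)x`. `P x ≤ (3/10)√(sx) ≤ ηx` for large `x`. Last: `J1 X + 2X J2 X = K - DBh² + 4DB²Xh³ -
(3/10)s/W + (3/10)s(W²-1)/W³` (`D = 17/100`, `B = 13/4`, `sX = W²-1`); the `s`-terms sum to `-(3/10)s/W³ ≤ 0`; `BXh = 1-h`, so
it is `≤ K + DB(3h² - 4h³) ≤ K + DB/4` (`1 - 12h² + 16h³ = (2h-1)²(4h+1) ≥ 0`), `= .368.. ≤ 5/12 ≤ 2((n-1)/(n+2))/4`. -/
def StRG2 : Prop := ∀ n : ℕ, 16 ≤ n → (pP n).J 0 = 433 / 1000 ∧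
    (∀ X x, 0 ≤ X → X ≤ x → 0 < (pP n).J X + (pP n).P x ∧
      (pP n).J X + (pP n).P x ≤ (pP n).J 0 + (pP n).K * x) ∧
    (∀ η, 0 < η → ∃ X₀, ∀ x, X₀ ≤ x → (pP n).P x ≤ η * x) ∧
    ∀ X, 0 ≤ X → (pP n).J1 X + 2 * X * (pP n).J2 X ≤ 2 * (((n : ℝ) - 1) / (n + 2)) * (pP n).E

/-- RG3. The gradient condition.

Proof. `w = √(1+sx) ≥ 1`, `g ≥ 5/6`, `1/(2g) ≤ 3/5`; `P1 = (3/20)s/w`, `e = (9/4)P1`, `-e1 = (s/(2w²))e`. It suffices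
(divide by `e > 0`) `(4/9)(3/5) + (s/(2w²))((3/5)T + 4√((3/5)xT)) ≤ 1`. `J x + P x = Jf x - (3/10)(w-1) ≤ 433/1000 + (23/100)x -
(3/10)(w-1)`, `J 0 + P x = 433/1000 + (3/10)(w-1)`, so `T ≤ (4/5)((k+2)(433/1000) + (23/100)x + (3/10)k(w-1))`. With
`k+1 ≤ n/8`, `n ≥ 16`: `s(k+2) ≤ 12(n/8+1)/n² ≤ 9/64`, `sk ≤ 12(n/8-1)/n² ≤ 3/64` (`(n-16)² ≥ 0`), `sx = w²-1`:
`sT ≤ Θ := 49/1000 + (184/1000)(w²-1) + (12/1000)(w-1)`. `(s/(2w²))(3/5)T ≤ (3/10)Θ/w²`,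
`(s/(2w²))4√((3/5)xT) = (2/w²)√((3/5)(sx)(sT)) ≤ (1/w²)((1/3)(w²-1) + (9/5)Θ)` (AM-GM). So it suffices
`(4/15)w² + (21/10)Θ + (1/3)(w²-1) ≤ w²`, i.e. `0 ≤ (136/10000)w² - (252/10000)(w-1) + 6168/10000`. -/
def StRG3 : Prop := ∀ n k : ℕ, 16 ≤ n → 8 * (k + 1) ≤ n → ∀ x T g : ℝ, 0 ≤ x → 0 ≤ T →
    g = ((n : ℝ) - 1) / (n + 2) →
    (1 + (pP n).E) * T ≤ (pP n).J x + (pP n).P x + (k + 1) * ((pP n).J 0 + (pP n).P x) →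
    (pP n).P1 x / (2 * g) + -(pP n).e1 x * (T / (2 * g) + 4 * Real.sqrt (x * T / (2 * g)))
      ≤ (pP n).e x

/-- RG4. The initial condition.

Proof. `e x ≤ (27/80)s = (81/20)/n²`, `k+2 ≤ n/8+1`: `(k+2)e x ≤ (81/20)(3/256) ≤ 475/10000`. `J X + P x ≥ Jf X - (3/10)(W-1) ≥
Jf X - (9/1280)X`. The left side is `≤ 5/12 + (475/10000)/3 - (1/4 + 475/10000)x`, and `x ≥ X`. Remains
`5/12 + (475/30000) - (2975/10000)X ≤ 263/1000 + (23/100)X + (17/100)h - (9/1280)X`; times `1/h = 1 + 13X/4`: it is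
`0 ≤ 1/2000 - (.0304..)X + (1.69..)X²`, negative discriminant (`5/12 + 475/30000 = 4325/10000`). -/
def StRG4 : Prop := ∀ n k : ℕ, 16 ≤ n → 8 * (k + 1) ≤ n → ∀ X x : ℝ, 0 ≤ X → X ≤ x →
    x ≤ 1 / 3 → (1 + (pP n).E) / 3 - (pP n).E * x + (k + 2) * (pP n).e x * (1 / 3 - x)
      ≤ (pP n).J X + (pP n).P x

/-- MBD. Linear bounds of `M_a`.

Proof. `h = hh X ∈ (0,1]`, `X = (4/13)(1-h)/h`, `Jf X = (263/1000)+(23/100)X+(17/100)h`. `h` times (left minus right side) is the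
polynomial of `Poly.m8` resp. `Poly.m0` in `t = h` (second variable `0`). -/
def StMBD : Prop := ∀ X : ℝ, 0 ≤ X → Mf (4 / 5) X ≤ -(382 / 10000) - 1087 / 10000 * X ∧
    Mf 0 X ≤ -(1 / 10) - 147 / 1000 * X

/-- PQ1. Regime `X ≤ 7/4`.

Proof. `h = hh X ∈ [16/107,1]`, `149/1000 ≤ 16/107`; `X = (4/13)(1-h)/h`, `hJf X = (263/1000)h + (23/100)(4/13)(1-h) + (17/100)h²`.
`T8 = C + bz - a'z²` with `a' = (12488/10000)/(1+g)`, `b = (736/1000)Jf X + 323/10000 + (2208/10000)g > 0`. (i) `g ≤ 1/8`: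
`bz - a'z² ≤ b²/(4a')`, and `h²(C + b²/(4a'))` is the polynomial of `Poly.i8` in `t = h` and `g`. (ii) `g ≥ 1/8`: with
`z₀ = (4/3)g(g+2) ≤ z` one has `2a'z₀ ≥ b` (`Jf X ≤ 691/1000`: `b ≤ 541/1000 + (2208/10000)g`, `2a'z₀ = (2·1.2488·4/3)g(g+2)/(1+g)`),
so `bz - a'z² ≤ bz₀ - a'z₀²` (the difference is `(z-z₀)(b - a'(z+z₀))`), and `h(1+g)(C + bz₀ - a'z₀²)` is the polynomial of
`Poly.j8` (`g ≤ 1`), `Poly.k8` (`g ≥ 1`). The same for `T0`: `b = (92/100)Jf X + 323/10000 + (276/1000)g`, `Poly.i0, j0, k0`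
(`2a'z₀ ≥ b` for `g ≥ 1/8`: `b ≤ 669/1000 + (276/1000)g`). -/
def StPQ1 : Prop := ∀ X z g : ℝ, 0 ≤ X → X ≤ 7 / 4 → 0 ≤ g → 4 / 3 * (g * (g + 2)) ≤ z →
    T8 X z g ≤ 0 ∧ T0 X z g ≤ 0

/-- PQ2A. Polynomial inequalities, `a = 4/5`. `c₀ = cA8`, `c₁ = cC (4/5)`, `c₂ = cD8`, `M₁ = (64/3)G/(7/4)`.

Proof. `ω = (1+u)(1+g) > 0`; `ωc₂` is a polynomial. If `g = 0` then `u = 0` and all is `0`; let `g > 0`, `t = u/g ∈ [0,1]`.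
`(3gc₁+c₂)ω/g` is the polynomial of `Poly.a8` in `t, g`; `(g c₀ + c₁/12)M₁ω/g² + (3gc₁+c₂)ω/g` is that of `Poly.a18`
(`= ((c₀ + c₁/(12g))M₁ + 3gc₁ + c₂)ω/g`). `(c₁/2+c₂)ω/g`: `Poly.b8`. `((c₀+c₁/2)M₁ + c₁/2 + c₂)ω` is that of `Poly.b18` in `u, g`
(`u ≤ 403/10000` since `(64/3)u(u+2) ≤ 7/4`). `(c₀+c₁+c₂)ω` is that of `Poly.b28` in `t, g` with `u = 4/100 + t(g - 4/100)`
(`u ≥ 4/100` since `(64/3)u(u+2) ≥ 7/4`). -/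
def StPQ2A : Prop := ∀ u g : ℝ, 0 ≤ u → u ≤ g → g ≤ 3 / 10 →
    (g ≤ 1 / 6 → 3 * g * cC (4 / 5) u g + cD8 u g ≤ 0 ∧
      (0 < g → (cA8 u g + cC (4 / 5) u g / (12 * g)) * (64 / 3 * (u * (u + 2)) / (7 / 4))
        + 3 * g * cC (4 / 5) u g + cD8 u g ≤ 0)) ∧
    (1 / 6 ≤ g → cC (4 / 5) u g / 2 + cD8 u g ≤ 0 ∧
      (64 / 3 * (u * (u + 2)) ≤ 7 / 4 →
        (cA8 u g + cC (4 / 5) u g / 2) * (64 / 3 * (u * (u + 2)) / (7 / 4))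
          + cC (4 / 5) u g / 2 + cD8 u g ≤ 0) ∧
      (7 / 4 ≤ 64 / 3 * (u * (u + 2)) → cA8 u g + cC (4 / 5) u g + cD8 u g ≤ 0))

/-- PQ2B. Polynomial inequalities, `a = 0`: as PQ2A with `cA0, cC 1, cD0`, `Poly.a0, a10, b0, b10, b20`, `g ≤ 2/5`. -/
def StPQ2B : Prop := ∀ u g : ℝ, 0 ≤ u → u ≤ g → g ≤ 2 / 5 →
    (g ≤ 1 / 6 → 3 * g * cC 1 u g + cD0 u g ≤ 0 ∧
      (0 < g → (cA0 u g + cC 1 u g / (12 * g)) * (64 / 3 * (u * (u + 2)) / (7 / 4))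
        + 3 * g * cC 1 u g + cD0 u g ≤ 0)) ∧
    (1 / 6 ≤ g → cC 1 u g / 2 + cD0 u g ≤ 0 ∧
      (64 / 3 * (u * (u + 2)) ≤ 7 / 4 →
        (cA0 u g + cC 1 u g / 2) * (64 / 3 * (u * (u + 2)) / (7 / 4))
          + cC 1 u g / 2 + cD0 u g ≤ 0) ∧
      (7 / 4 ≤ 64 / 3 * (u * (u + 2)) → cA0 u g + cC 1 u g + cD0 u g ≤ 0))

/-- PQ3. Polynomial inequalities for large `g`.

Proof. `t = u/g ∈ [0,1]`, `ω = (1+u)(1+g)`: `(c₀+c₁+c₂)ω/g` is the polynomial of `Poly.r8_0` (`t ≤ 1/2`, `g ≤ 4`), `r8_1, r8_2`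
(`1/2 ≤ t ≤ 3/4`, `g ≤ 43/20`, `43/20 ≤ g ≤ 4`), `r8_3, r8_4` (`3/4 ≤ t`), `rt8_0, rt8_1, rt8_2` (`g ≥ 4`); for `a = 0`: `Poly.r0_0`,
`r0_1`, `rt0_0, rt0_1, rt0_2`. -/
def StPQ3 : Prop := ∀ u g : ℝ, 0 ≤ u → u ≤ g →
    (3 / 10 ≤ g → cB8 u g + cC (4 / 5) u g + cD8 u g ≤ 0) ∧
    (2 / 5 ≤ g → cB0 u g + cC 1 u g + cD0 u g ≤ 0)

/-- RL1 (hPQ1 : StPQ1). Regime `X ≤ 7/4`.

Proof. `p = (3/10)g`, `τ = (3/10)u`, `J₁ = Jf X`, `V = J₁ + p - 2τ`, `z = (4/3)Ng(g+2) ≥ (4/3)g(g+2)`. `u ≤ u(u+2)/2 = (3/128)X/N² ≤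
(3/128)X`, so `τ ≤ (9/1280)X`; `V ≥ J₁ - τ ≥ 0` (`p ≥ τ`); `V ≤ J₁ + p`; `0 ≤ D₁ ≤ p`. Identity (expand, `v = p - 2τ`):
`(aV+X+1)(L₁+D₁) - 2V + (1/2-a/8)V(J₀+p) = M_a(X) - κ_a v + (aV+X+1)D₁ + (1/2-a/8)Vp`, `κ_a = 2 - aL₁ - (1/2-a/8)J₀`,
`κ_(4/5) = 1.8268 - .8L₁ > 0`, `κ_0 = 1.7835`. `-κv = -κp + 2κτ ≤ -κp + 2κ(9/1280)X` (`2κ_0 = 3.567`).
`(aV+X+1)D₁ ≤ (a(J₁+p)+X+1)p`, `Vp ≤ (J₁+p)p`, `V/100 ≤ (J₁+p)/100`. `R ≤ (23/100)(16/3)Ng(g+2) = (92/100)z`,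
`(1-a/4)VR ≤ (1-a/4)(J₁+p)(92/100)z`. `(16/5)N²(g(g+2))² = (9/5)z²`, `(6938/10000)(9/5) ≥ 12488/10000`. The sum is
`T8 X z g` (`a = 4/5`), `T0 X z g` (`a = 0`). -/
def StRL1 : Prop := ∀ X u g N R : ℝ, RH X u g N R → X ≤ 7 / 4 →
    FR (4 / 5) X u g N R ≤ 0 ∧ FR 0 X u g N R ≤ 0

/-- RL2A (hMBD : StMBD)(hPQ2A : StPQ2A). Regime `X ≥ 7/4`, `g ≤ 3/10`, `a = 4/5`.

Proof. Notation of RL1. `h ≤ 16/107`: `J₁ ≤ j + (23/100)X`, `j = 263/1000 + (17/100)(16/107) = .28842..`; `263/1000 ≤ L₁ ≤ l =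
263/1000 + (17/100)(2(16/107) - (16/107)²) = .31003..`, `J₁ ≤ J₀ + (23/100)X`. Identity of RL1; MBD;
`-κ(p - 2τ) ≤ -(1.8268 - .8l)p + 3.2328τ` (`κ ≤ 1.6164`); `(.8V+X+1)D₁ ≤ 1.184XD₁ + (1 + .8j + .8p)p`, `.4Vp ≤ (.4j + .092X + .4p)p`,
`V/100 ≤ j/100 + .0023X + p/100`. `VR ≤ (V₀ + (23/100)X)R ≤ 2(23/100)V₀(16/3)N(γ-G)` (`V ≤ V₀ + KX`; `R1, R2`), times `4/5`: it
is the first part of `N cC (4/5)`. So `FR ≤ c₀ + c₁N + c₂N²`, `c₀ = cA8, c₁ = cC (4/5), c₂ = cD8` (rounded constants).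
`m = 1/N ∈ (0,1]`, `M = m²`, `M ≤ M₁ := (64/3)G/(7/4)` (`X ≥ 7/4`; so `u > 0`, `g > 0`). `FR/N² ≤ c₀M + c₁m + c₂`, `c₁ ≥ 0`,
`m ≤ μ/2 + M/(2μ)`: it is `≤ (c₀ + c₁/(2μ))M + c₁μ/2 + c₂`, linear in `M`. `g ≤ 1/6`: `μ = 6g`, `0 ≤ M ≤ M₁`, both ends by PQ2A.
`g ≥ 1/6`: `μ = 1`, `0 ≤ M ≤ min 1 M₁`: PQ2A. -/
def StRL2A : Prop := ∀ X u g N R : ℝ, RH X u g N R → 7 / 4 ≤ X → g ≤ 3 / 10 →
    FR (4 / 5) X u g N R ≤ 0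

/-- RL2B (hMBD : StMBD)(hPQ2B : StPQ2B). Regime `X ≥ 7/4`, `g ≤ 2/5`, `a = 0`.

Proof. As RL2A: MBD; `-κ_0(p-2τ) = -1.7835p + 3.567τ`; `(X+1)D₁ ≤ XD₁ + p`; `(1/2)Vp ≤ (j/2 + .115X + p/2)p`; `VR ≤ 2(23/100)
V₀(16/3)N(γ-G)`. So `FR ≤ c₀ + c₁N + c₂N²` with `cA0, cC 1, cD0`; the rest as in RL2A with PQ2B. -/
def StRL2B : Prop := ∀ X u g N R : ℝ, RH X u g N R → 7 / 4 ≤ X → g ≤ 2 / 5 →
    FR 0 X u g N R ≤ 0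

/-- RL3 (hMBD : StMBD)(hPQ3 : StPQ3). Regime of large `g`, all `X`.

Proof. Notation of RL1; `J₁ ≤ J₀ + (23/100)X`, `263/1000 ≤ L₁ ≤ J₀`, `κ_(4/5) ∈ [1.4804, 1.6164]`. `a = 4/5`: identity of RL1, MBD,
`-κ(p-2τ) ≤ -1.4804p + 3.2328τ`, `(.8V+X+1)D₁ ≤ 1.184XD₁ + (1.3464 + .8p)p`, `.4Vp ≤ (.1732 + .092X + .4p)p`,
`V/100 ≤ .0044 + .0023X + p/100`, `VR` as in RL2A. Constants: `-.0382 + .0044 + .0105 ≤ 0` dropped; `p` terms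
`(-1.4804 + 1.3464 + .1732)p = .0392p`. So `FR ≤ c₀ + c₁N + c₂N²`, `cB8 ≥ 0, cC (4/5) ≥ 0, cD8`; `N ≥ 1`: `FR ≤ N²(c₀+c₁+c₂) ≤ 0`
(PQ3). `a = 0`: MBD, `-κ_0(p-2τ)`, `(X+1)D₁ ≤ XD₁ + p`, `(1/2)Vp ≤ (.2165 + .115X + p/2)p`; constants `-.1 + .0044 + .0105 ≤ 0`
dropped, `p` terms `(-1.7835 + 1 + .2165)p ≤ 0` dropped: `cB0, cC 1, cD0`. -/
def StRL3 : Prop := ∀ X u g N R : ℝ, RH X u g N R →
    (3 / 10 ≤ g → FR (4 / 5) X u g N R ≤ 0) ∧ (2 / 5 ≤ g → FR 0 X u g N R ≤ 0)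

/-- RDX (hRL1 : StRL1)(hRL2A : StRL2A)(hRL2B : StRL2B)(hRL3 : StRL3)(hRG2 : StRG2). The reaction condition.

Proof. `N = n/16`, `w, W, g, u` as above; `X = (64/3)N²G`, `x = (64/3)N²γ`. `V := J X + P x = Vf X u g`, `V₀ := J 0 + P x = 433/1000 +
(3/10)g`, `V - J1 X·X = L₁ + D₁` (`Jf X - X Jf' = Lf X` as `(13/4)Xh² = h - h²`; `sX/(2W) = u(u+2)/(2(1+u))`).
`y₁ := P1 x·x = (3/20)g(g+2)/(1+g)`, `e x·x = (9/4)y₁`, `Y := y₁x = (16/5)N²γ²/(1+g)`. `V_x := J x + P x = Jf x - (3/10)g ∈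
[0, 433/1000 + (23/100)x - (3/10)g]`. `b ≤ (4/5)V_x`, `T ≤ (4/5)(V_x + (k+1)V₀)`, `k+1 ≤ 2N`. The left side, without the terms
`(a+X+1)(L₁+D₁) - 2V + (4/n)(V - a/4)(kV₀+S)`, is `≤` (drop the `e1` term):
`-y₁ - y₁x + (5/4)y₁b + e(16/25)(J₀+Kx)(V_x+(k+1)V₀) + e(4/5)(4(k+1)/n)V₀(2V_x+kV₀)`; `(5/4)b ≤ V_x`, `4(k+1)/n ≤ 1/2`,
`V_x ≤ J₀+Kx`: `≤ -y₁ - Y + y₁(J₀+Kx-(3/10)g) + (16/25)e(J₀+Kx)² + (16/25)e(k+1)(J₀+Kx)V₀ + (4/5)eV₀(J₀+Kx) + (2/5)e(k+1)V₀²`.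
With `ex = (9/4)y₁`, `e = (81/5120)/(N²(1+g))`, `e(k+1) ≤ (81/2560)/(N(1+g))`, `(k+1)ex ≤ (27/40)Nγ/(1+g)` this is
`≤ -.693824Y - y₁(.100919 + .1758g) + [.0104408 + .0075627g + .0011391g²]/(1+g) + .07452V₀z/(1+g)` (`z = (4/3)Nγ`, `N ≥ 1`); `y₁ ≥
(3/20)g`, `[..]/(1+g) ≤ .0105 + .00114g`, `V₀/(1+g) ≤ 433/1000`: `≤ -.6938Y + .0323z + .0105 - .013g - .026g²`. Next, `R :=
(4/n)·max (S - V₀) 0`: `(4/n)(kV₀+S) ≤ V₀/2 + R` (`V - a/4 ≥ 0`, `V > 0`, RG2), and RH: `S ≤ J(x-X) + P x ≤ V₀ + K(x-X)`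
(`Jf y ≤ J₀ + Ky`), `X(S-V₀) ≤ (x-X)V₀`, `(4/n)(x-X) = (16/3)N(γ-G)`. So left side `+ V/100 ≤ Φ(a)`, affine in `a ∈ [0,(4/5)V]`,
with `Φ(0) = FR 0`, `Φ((4/5)V) = FR (4/5)`, both `≤ 0`: cases `X ≤ 7/4`, `g ≤ 3/10` etc. -/
def StRDX : Prop := ∀ n k : ℕ, 16 ≤ n → 8 * (k + 1) ≤ n →
    ∀ X x a b T S : ℝ, 0 ≤ X → X ≤ x → 0 ≤ a →
    (1 + (pP n).E) * a ≤ (pP n).J X + (pP n).P x → 0 ≤ b →
    (1 + (pP n).E) * b ≤ (pP n).J x + (pP n).P x → 0 ≤ T →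
    (1 + (pP n).E) * T ≤ (pP n).J x + (pP n).P x + (k + 1) * ((pP n).J 0 + (pP n).P x) →
    0 ≤ S → S ≤ (pP n).J (x - X) + (pP n).P x → X * S ≤ x * ((pP n).J 0 + (pP n).P x) →
    (a + X + 1) * ((pP n).J X + (pP n).P x - (pP n).J1 X * X)
      - 2 * ((pP n).J X + (pP n).P x) - (pP n).P1 x * x * (1 + x + b)
      + (pP n).e x * (((pP n).J 0 + (pP n).K * x) / (1 + (pP n).E) * T
        + 4 * (k + 1) / n * (((pP n).J 0 + (pP n).P x) / (1 + (pP n).E))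
          * (2 * ((pP n).J x + (pP n).P x) + k * ((pP n).J 0 + (pP n).P x)) + x * b)
      + (pP n).e1 x * (x * (1 + x)) * T
      + 4 / n * ((pP n).J X + (pP n).P x - (pP n).E * a)
        * (k * ((pP n).J 0 + (pP n).P x) + S)
    ≤ -(1 / 100) * ((pP n).J X + (pP n).P x)

/-- SCG (hRG1 : StRG1)(hRG2 : StRG2)(hRG3 : StRG3)(hRG4 : StRG4)(hRDX : StRDX). The constants exist. -/
def StSCG : Prop := ∀ n k : ℕ, 1 ≤ k → 8 * (k + 1) ≤ n → GPr n k (pP n)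

end Helper35.HG
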