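import Pool.Agent.Helper35.HC.All
import Pool.Agent.Helper35.HG.StE
import Pool.Agent.Helper29.HG.M_SPX
import Pool.Agent.Helper10.HG.M_CTA
import Pool.Agent.Helper3.HG.M_CTB
import Pool.Agent.Helper7.HG.M_FRL
import Pool.Agent.Helper99.HG.M_FRM
import Pool.Agent.Helper70.HG.M_SQF
import Pool.Agent.Helper45.HG.M_RNF
import Pool.Agent.Helper36.HG.M_GBD
import Pool.Agent.Helper61.HG.M_SQC
import Pool.Agent.Helper2.HG.M_FOC
import Pool.Agent.Helper40.HG.M_CTS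
import Pool.Agent.Helper42.HG.M_REA
import Pool.Agent.Helper48.HG.M_GRA
import Pool.Agent.Helper34.HG.M_TPN
import Pool.Agent.Helper25.HG.M_INN
import Pool.Agent.Helper47.HG.M_ZBD
import Pool.Agent.Helper13.HG.M_PB1
import Pool.Agent.Helper2.HG.M_PB2
import Pool.Agent.Helper28.HG.M_PIB
import Pool.Agent.Helper25.HG.M_SPN
import Pool.Agent.Helper44.HG.M_NJ0
import Pool.Agent.Helper38.HG.M_NJ1
import Pool.Agent.Helper67.HG.M_PBN
import Pool.Agent.Helper29.HG.M_CHR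
import Pool.Agent.Helper62.HG.M_NTR
import Pool.Agent.Helper27.HG.M_CPN
import Pool.Agent.Helper47.HG.M_PRN
import Pool.Agent.Helper26.HG.M_RPN
import Pool.Agent.Helper57.HG.M_INB
import Pool.Agent.Helper10.HG.M_PKB
import Pool.Agent.Helper61.HG.M_EAB
import Pool.Agent.Helper7.HG.M_LPB
import Pool.Agent.Helper55.HG.M_THB
import Pool.Agent.Helper13.HG.M_GRC
import Pool.Agent.Helper25.HG.M_MNB
import Pool.Agent.Helper1.HG.M_RCB
import Pool.Agent.Helper28.HG.M_PDT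
import Pool.Agent.Helper29.HG.M_CN4
import Pool.Agent.Helper20.HG.M_RI4
import Pool.Agent.Helper71.HG.M_FT4
import Pool.Agent.Helper14.HG.M_IT4
import Pool.Agent.Helper60.HG.M_RG1
import Pool.Agent.Helper36.HG.M_RG2
import Pool.Agent.Helper38.HG.M_RG3
import Pool.Agent.Helper45.HG.M_RG4
import Pool.Agent.Helper88.HG.M_MBD
import Pool.Agent.Helper16.HG.M_PQ1
import Pool.Agent.Helper8.HG.M_PQ2A
import Pool.Agent.Helper75.HG.M_PQ2B
import Pool.Agent.Helper7.HG.M_PQ3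
import Pool.Agent.Helper1.HG.M_RL1
import Pool.Agent.Helper34.HG.M_RL2A
import Pool.Agent.Helper82.HG.M_RL2B
import Pool.Agent.Helper71.HG.M_RL3
import Pool.Agent.Helper42.HG.M_RDX
import Pool.Agent.Helper61.HG.M_SCG

/-!
Project HG (MP_925021_gt): assembly of the modules.
-/

set_option autoImplicit false

namespace Helper35.HG

open Helper35.PI Helper35.PI.All Helper35.PI2 Helper35.PI2.All Helper32.CL
open Pool.Agent.Helper35.CL Pool.Agent.Helper35.CL.All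

theorem kSPX : Helper35.HG.StSPX := Helper29.HG.hSPX Helper35.HC.kSPR
theorem kCTA : Helper35.HG.StCTA := Helper10.HG.hCTA Helper35.HC.kPXE Helper35.HC.kSPR
theorem kCTB : Helper35.HG.StCTB := Helper3.HG.hCTB Helper35.HC.kPXE
theorem kFRL : Helper35.HG.StFRL := Helper7.HG.hFRL 
theorem kFRM : Helper35.HG.StFRM := Pool.Agent.Helper99.HG.hFRM 
theorem kSQF : Helper35.HG.StSQF := Helper70.HG.hSQF Helper35.HC.kSQG
theorem kRNF : Helper35.HG.StRNF := Helper45.HG.hRNF Helper35.HC.kPXE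
theorem kGBD : Helper35.HG.StGBD := Helper36.HG.hGBD 
theorem kSQC : Helper35.HG.StSQC := Helper61.HG.hSQC kFRM kFRL kSQF kSPX kGBD
theorem kFOC : Helper35.HG.StFOC := Helper2.HG.hFOC kFRL
theorem kCTS : Helper35.HG.StCTS := Helper40.HG.hCTS kCTA kCTB kFRM kFRL kSQF kSPX
theorem kREA : Helper35.HG.StREA := Pool.Agent.Helper42.HG.hREA kCTS kRNF kFOC kSQC kSQF kSPX
theorem kGRA : Helper35.HG.StGRA := Helper48.HG.hGRA Helper13.PI.hT3
theorem kTPN : Helper35.HG.StTPN := Helper34.HG.hTPN kREA kGRA kSQC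
theorem kINN : Helper35.HG.StINN := Helper25.HG.hINN kFRM kSQF
theorem kZBD : Helper35.HG.StZBD := Pool.Agent.Helper47.HG.hZBD Helper35.HC.kSQG
theorem kPB1 : Helper35.HG.StPB1 := Helper13.HG.hPB1 kFRM kSQF kSPX kSQC
theorem kPB2 : Helper35.HG.StPB2 := Helper2.HG.hPB2 kFRM kSQF
theorem kPIB : Helper35.HG.StPIB := Pool.Agent.Helper28.HG.hPIB kPB1 kPB2 Helper35.HC.kPI3 kSQC
theorem kSPN : Helper35.HG.StSPN := Helper25.HG.hSPN tG1 tG2 tG7 tG8 tG9 tG10 tSM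
theorem kNJ0 : Helper35.HG.StNJ0 := Helper44.HG.hNJ0 tG1 tG2 tG3 tG4 tG5 tSM tJA tJB
theorem kNJ1 : Helper35.HG.StNJ1 := Helper38.HG.hNJ1 kNJ0 tG1 tG2 tG3 tG5 tJA tJB tJD
theorem kPBN : Helper35.HG.StPBN := Helper67.HG.hPBN kNJ0 Helper35.HC.kGCP kNJ1 kSPN tFR tNR tG1 tG2
theorem kCHR : Helper35.HG.StCHR := Helper29.HG.hCHR 
theorem kNTR : Helper35.HG.StNTR := Pool.Agent.Helper62.HG.hNTR kPBN kSPN kTPN kCHR Helper35.HSF.kGCH tG7 tG8 tMP tJA tJB tC1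
theorem kCPN : Helper35.HG.StCPN := Helper27.HG.hCPN Helper35.MS.jI2J Helper35.MS.jI3J Helper35.MS.jI4J tSM tNR
theorem kPRN : Helper35.HG.StPRN := Pool.Agent.Helper47.HG.hPRN kNTR kCPN Helper35.HSF.kSMF kSPN Helper35.HSF.kGCH tC1
theorem kRPN : Helper35.HG.StRPN := Helper26.HG.hRPN kPRN kPIB kPBN kSPN kZBD Helper35.HSF.kGCH tC1
theorem kINB : Helper35.HG.StINB := Helper57.HG.hINB kINN kPBN Helper35.HC.kPBR kSPN Helper35.HSF.kGCH tC1
theorem kPKB : Helper35.HG.StPKB := Helper10.HG.hPKB Helper35.HC.kJPK Helper35.HC.kSQG Helper13.PI.hT3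
theorem kEAB : Helper35.HG.StEAB := Helper61.HG.hEAB Helper35.HC.kEA2
theorem kLPB : Helper35.HG.StLPB := Pool.Agent.Helper7.HG.LPB.hLPB kEAB kPKB Helper35.HC.kJPK Helper35.HSF.kEPW Helper35.HSF.kHTR Helper35.MS.jTDJ Helper35.MS.jFVJ Helper35.MS.jPRJ Helper35.MS.jMUJ Helper35.HSF.kSMR Helper35.HSF.kSMF
theorem kTHB : Helper35.HG.StTHB := Helper55.HG.hTHB kLPB Helper35.HSF.kMVN kPKB Helper35.HSF.kHTR Helper35.MS.jMUJ tV5 Helper35.HSF.kSMF
theorem kGRC : Helper35.HG.StGRC := Helper13.HG.hGRC kTHB kPKB Helper35.HSF.kFZP Helper35.HSF.kHTR Helper35.HC.kHSM Helper35.HSF.kSMF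
theorem kMNB : Helper35.HG.StMNB := Helper25.HG.hMNB kPKB Helper35.HSF.kFZP Helper35.HSF.kHTR Helper35.HSF.kSMF
theorem kRCB : Helper35.HG.StRCB := Helper1.HG.hRCB Helper35.HC.kSPF
theorem kPDT : Helper35.HG.StPDT := Pool.Agent.Helper28.HG.hPDT kGRC kRCB kMNB kPKB Helper35.MS.jI4J tG8
theorem kCN4 : Helper35.HG.StCN4 := Helper29.HG.hCN4 Helper35.MS.jSCL Helper35.HSF.kHSN Helper35.HSF.kCTN
theorem kRI4 : Helper35.HG.StRI4 := Helper20.HG.hRI4 kCN4 Helper35.HC.kP3H kINB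
theorem kFT4 : Helper35.HG.StFT4 := Helper71.HG.hFT4 kCN4 kRI4 kRPN kPDT Helper35.HC.kRNT Helper35.HSF.kHSN Helper35.HSF.kCTN
theorem kIT4 : Helper35.HG.StIT4 := Helper14.HG.hIT4 kCN4 kRI4 kRPN Helper35.HC.kRNT Helper35.HSF.kHSN Helper35.HSF.kCTN
theorem kRG1 : Helper35.HG.StRG1 := Helper60.HG.hRG1 
theorem kRG2 : Helper35.HG.StRG2 := Helper36.HG.hRG2 
theorem kRG3 : Helper35.HG.StRG3 := Helper38.HG.hRG3 
theorem kRG4 : Helper35.HG.StRG4 := Pool.Agent.Helper45.HG.hRG4 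
theorem kMBD : Helper35.HG.StMBD := Helper88.HG.hMBD 
theorem kPQ1 : Helper35.HG.StPQ1 := Pool.Agent.Helper16.HG.hPQ1 
theorem kPQ2A : Helper35.HG.StPQ2A := Helper8.HG.hPQ2A 
theorem kPQ2B : Helper35.HG.StPQ2B := Helper75.HG.hPQ2B 
theorem kPQ3 : Helper35.HG.StPQ3 := Pool.Agent.Helper7.HG.PQ3.hPQ3 
theorem kRL1 : Helper35.HG.StRL1 := Helper1.HG.hRL1 kPQ1
theorem kRL2A : Helper35.HG.StRL2A := Helper34.HG.hRL2A kMBD kPQ2A
theorem kRL2B : Helper35.HG.StRL2B := Helper82.HG.hRL2B kMBD kPQ2B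
theorem kRL3 : Helper35.HG.StRL3 := Helper71.HG.hRL3 kMBD kPQ3
theorem kRDX : Helper35.HG.StRDX := Helper42.HG.hRDX kRL1 kRL2A kRL2B kRL3 kRG2
theorem kSCG : Helper35.HG.StSCG := Helper61.HG.hSCG kRG1 kRG2 kRG3 kRG4 kRDX

end Helper35.HG
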